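import Pool.Agent.PurNrd.PD

/-! Projective dimension and reduction modulo a regular element. -/

namespace Pool.Agent.PurNrd

open Module Pointwise

universe u

section
variable {R : Type u} [CommRing R] [IsNoetherianRing R] [IsLocalRing R] {x : R}

theorem isLocalRing_quot (hx : x ∈ IsLocalRing.maximalIdeal R) :
    IsLocalRing (R ⧸ Ideal.span {x}) := by
  have hne : Ideal.span {x} ≠ ⊤ := by
    intro h
    have h1 : Ideal.span {x} ≤ IsLocalRing.maximalIdeal R :=
      (Ideal.span_singleton_le_iff_mem _).2 hx
    rw [h] at h1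
    exact (IsLocalRing.maximalIdeal.isMaximal R).ne_top (top_le_iff.1 h1)
  have : Nontrivial (R ⧸ Ideal.span {x}) := Ideal.Quotient.nontrivial_iff.2 hne
  exact IsLocalRing.of_surjective' (Ideal.Quotient.mk (Ideal.span {x}))
    Ideal.Quotient.mk_surjective

theorem change (hx : x ∈ IsLocalRing.maximalIdeal R) (hreg : IsSMulRegular R x) (n : ℕ) :
    ∀ (M : Type u) [AddCommGroup M] [Module R M] [Module.Finite R M] (_ : IsSMulRegular M x)
      (_ : PDLT (R ⧸ Ideal.span {x}) (QuotSMulTop x M) (n + 1)), PDLT R M (n + 1) := by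
  have hloc := isLocalRing_quot hx
  induction n with
  | zero =>
    intro M _ _ _ h1 h2
    rw [zero_add, pd_one_iff] at h2 ⊢
    have hfin : Module.Finite (R ⧸ Ideal.span {x}) (QuotSMulTop x M) :=
      Module.Finite.of_restrictScalars_finite R _ _
    have hfree : Module.Free (R ⧸ Ideal.span {x}) (QuotSMulTop x M) :=
      Module.free_of_flat_of_isLocalRing
    have hfp : Module.FinitePresentation R M := Module.finitePresentation_of_finite R M
    have hjac : x ∈ (⊥ : Ideal R).jacobson := by
      rw [IsLocalRing.jacobson_eq_maximalIdeal ⊥ bot_ne_top]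
      exact hx
    have := (Module.free_quotSMulTop_iff_free R M hjac h1).1 hfree
    infer_instance
  | succ n ih =>
    intro M _ _ _ h1 h2
    obtain ⟨k, f, hf⟩ := Module.Finite.exists_fin' R M
    set Z := LinearMap.ker f with hZ
    let F : QuotSMulTop x (Fin k → R) →ₗ[R ⧸ Ideal.span {x}] QuotSMulTop x M :=
      (QuotSMulTop.map x f).extendScalarsOfSurjective Ideal.Quotient.mk_surjective
    let G : QuotSMulTop x Z →ₗ[R ⧸ Ideal.span {x}] QuotSMulTop x (Fin k → R) :=
      (QuotSMulTop.map x Z.subtype).extendScalarsOfSurjective Ideal.Quotient.mk_surjective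
    have hF : Function.Surjective F := QuotSMulTop.map_surjective x hf
    have hex : Function.Exact G F := QuotSMulTop.map_exact x (fun y => by
      rw [← LinearMap.mem_ker]
      simp [hZ]) hf
    have hG : Function.Injective G := by
      rw [injective_iff_map_eq_zero]
      intro q hq
      obtain ⟨z, rfl⟩ := Submodule.mkQ_surjective _ q
      have h3 : (z : Fin k → R) ∈ (x • (⊤ : Submodule R (Fin k → R))) := by
        have h4 : Submodule.mkQ (x • (⊤ : Submodule R (Fin k → R))) (z : Fin k → R) = 0 := hq
        rwa [← LinearMap.mem_ker, Submodule.ker_mkQ] at h4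
      obtain ⟨w, -, hw⟩ := (Submodule.mem_smul_pointwise_iff_exists _ _ _).1 h3
      have h5 : x • f w = 0 := by
        rw [← map_smul, hw]
        exact z.2
      have h6 : f w = 0 := IsSMulRegular.right_eq_zero_of_smul h1 h5
      rw [← LinearMap.mem_ker, Submodule.ker_mkQ, Submodule.mem_smul_pointwise_iff_exists]
      exact ⟨⟨w, h6⟩, trivial, Subtype.ext hw⟩
    let e : QuotSMulTop x Z ≃ₗ[R ⧸ Ideal.span {x}] LinearMap.ker F :=
      (LinearEquiv.ofInjective G hG).trans (LinearEquiv.ofEq _ _ (by
        rw [LinearMap.exact_iff.1 hex]))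
    have hZreg : IsSMulRegular Z x := by
      intro a b hab
      have h7 : x • (a : Fin k → R) = x • (b : Fin k → R) := congrArg Subtype.val hab
      refine Subtype.ext (funext fun i => hreg ?_)
      exact congrFun h7 i
    have h8 := pd_ker F hF n h2
    have h9 := ih Z hZreg (pd_congr e.symm (n + 1) h8)
    exact pd_quot f hf (n + 1) h9
      (pd_mono (by omega) ((pd_one_iff (R := R) (Fin k → R)).2 inferInstance))

end

end Pool.Agent.PurNrd
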