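import Pool.Agent.PurNrd.ModClass

/-! Idempotents of a simple algebra generating left ideals of the same dimension are conjugate. -/

namespace Pool.Agent.PurNrd

open Module

universe u

section
variable {F S : Type u} [Field F] [Ring S] [Algebra F S]

/-- the left ideal generated by `e` -/
def lid (e : S) : Submodule S S := LinearMap.range (LinearMap.toSpanSingleton S S e)

theorem mem_lid {e : S} (he : e * e = e) {x : S} : x ∈ lid e ↔ x * e = x := by
  constructor
  · rintro ⟨y, rfl⟩
    rw [LinearMap.toSpanSingleton_apply, smul_eq_mul, mul_assoc, he]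
  · intro h
    exact ⟨x, by rw [LinearMap.toSpanSingleton_apply, smul_eq_mul, h]⟩

theorem idem_compl {e : S} (he : e * e = e) : (1 - e) * (1 - e) = 1 - e := by
  rw [mul_sub, sub_mul, sub_mul, he]
  simp

theorem finrank_lid_add [FiniteDimensional F S] {e : S} (he : e * e = e) :
    finrank F (lid e) + finrank F (lid (1 - e)) = finrank F S := by
  have h1 := LinearMap.finrank_range_add_finrank_ker
    ((LinearMap.toSpanSingleton S S e).restrictScalars F)
  have h2 : LinearMap.ker (LinearMap.toSpanSingleton S S e) = lid (1 - e) := by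
    ext x
    rw [LinearMap.mem_ker, LinearMap.toSpanSingleton_apply, smul_eq_mul,
      mem_lid (idem_compl he), mul_sub, mul_one, sub_eq_self]
  have h3 : finrank F (LinearMap.ker ((LinearMap.toSpanSingleton S S e).restrictScalars F)) =
      finrank F (LinearMap.ker (LinearMap.toSpanSingleton S S e)) := rfl
  rw [h3, h2] at h1
  exact h1

theorem exists_conj [IsSimpleRing S] [FiniteDimensional F S] {e f : S} (he : e * e = e)
    (hf : f * f = f) (h : finrank F (lid e) = finrank F (lid f)) :
    ∃ u : Sˣ, e * u = u * f := by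
  have h1 := finrank_lid_add (F := F) he
  have h2 := finrank_lid_add (F := F) hf
  have h' : finrank F (lid (1 - e)) = finrank F (lid (1 - f)) := by omega
  have hfd : ∀ W : Submodule S S, FiniteDimensional F W := fun W =>
    FiniteDimensional.of_injective (W.subtype.restrictScalars F) W.injective_subtype
  have := hfd (lid e)
  have := hfd (lid f)
  have := hfd (lid (1 - e))
  have := hfd (lid (1 - f))
  obtain ⟨φ⟩ := equiv_of_finrank (F := F) (S := S) h
  obtain ⟨ψ⟩ := equiv_of_finrank (F := F) (S := S) h'
  have he' := idem_compl he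
  have hf' := idem_compl hf
  let E : lid e := ⟨e, (mem_lid he).2 he⟩
  let E' : lid (1 - e) := ⟨1 - e, (mem_lid he').2 he'⟩
  let G : lid f := ⟨f, (mem_lid hf).2 hf⟩
  let G' : lid (1 - f) := ⟨1 - f, (mem_lid hf').2 hf'⟩
  have hφ : ∀ x : lid e, ((φ x : lid f) : S) = (x : S) * (φ E : lid f) := by
    intro x
    have hx : x = (x : S) • E := Subtype.ext ((mem_lid he).1 x.2).symm
    conv_lhs => rw [hx, map_smul]
    rfl
  have hφs : ∀ x : lid f, ((φ.symm x : lid e) : S) = (x : S) * (φ.symm G : lid e) := by
    intro x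
    have hx : x = (x : S) • G := Subtype.ext ((mem_lid hf).1 x.2).symm
    conv_lhs => rw [hx, map_smul]
    rfl
  have hψ : ∀ x : lid (1 - e), ((ψ x : lid (1 - f)) : S) = (x : S) * (ψ E' : lid (1 - f)) := by
    intro x
    have hx : x = (x : S) • E' := Subtype.ext ((mem_lid he').1 x.2).symm
    conv_lhs => rw [hx, map_smul]
    rfl
  have hψs : ∀ x : lid (1 - f), ((ψ.symm x : lid (1 - e)) : S) =
      (x : S) * (ψ.symm G' : lid (1 - e)) := by
    intro x
    have hx : x = (x : S) • G' := Subtype.ext ((mem_lid hf').1 x.2).symm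
    conv_lhs => rw [hx, map_smul]
    rfl
  set a : S := ((φ E : lid f) : S) with ha
  set b : S := ((ψ E' : lid (1 - f)) : S) with hb
  set c : S := ((φ.symm G : lid e) : S) with hc
  set d : S := ((ψ.symm G' : lid (1 - e)) : S) with hd
  -- relations
  have a1 : a * f = a := (mem_lid hf).1 (φ E).2
  have b1 : b * (1 - f) = b := (mem_lid hf').1 (ψ E').2
  have c1 : c * e = c := (mem_lid he).1 (φ.symm G).2
  have d1 : d * (1 - e) = d := (mem_lid he').1 (ψ.symm G').2
  have a2 : e * a = a := (hφ E).symm
  have b2 : (1 - e) * b = b := (hψ E').symm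
  have c2 : f * c = c := (hφs G).symm
  have d2 : (1 - f) * d = d := (hψs G').symm
  have ac : a * c = e := by
    have := hφs (φ E)
    rw [LinearEquiv.symm_apply_apply] at this
    exact this.symm
  have ca : c * a = f := by
    have := hφ (φ.symm G)
    rw [LinearEquiv.apply_symm_apply] at this
    exact this.symm
  have bd : b * d = 1 - e := by
    have := hψs (ψ E')
    rw [LinearEquiv.symm_apply_apply] at this
    exact this.symm
  have db : d * b = 1 - f := by
    have := hψ (ψ.symm G')
    rw [LinearEquiv.apply_symm_apply] at this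
    exact this.symm
  have ff' : f * (1 - f) = 0 := by rw [mul_sub, mul_one, hf, sub_self]
  have f'f : (1 - f) * f = 0 := by rw [sub_mul, one_mul, hf, sub_self]
  have ee' : e * (1 - e) = 0 := by rw [mul_sub, mul_one, he, sub_self]
  have e'e : (1 - e) * e = 0 := by rw [sub_mul, one_mul, he, sub_self]
  have ad : a * d = 0 := by rw [← a1, ← d2, mul_assoc, ← mul_assoc f, ff', zero_mul, mul_zero]
  have bc : b * c = 0 := by rw [← b1, ← c2, mul_assoc, ← mul_assoc (1 - f), f'f, zero_mul, mul_zero]
  have cb : c * b = 0 := by rw [← c1, ← b2, mul_assoc, ← mul_assoc e, ee', zero_mul, mul_zero]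
  have da : d * a = 0 := by rw [← d1, ← a2, mul_assoc, ← mul_assoc (1 - e), e'e, zero_mul, mul_zero]
  have eb : e * b = 0 := by rw [← b2, ← mul_assoc, ee', zero_mul]
  have bf : b * f = 0 := by rw [← b1, mul_assoc, f'f, mul_zero]
  refine ⟨⟨a + b, c + d, ?_, ?_⟩, ?_⟩
  · rw [add_mul, mul_add, mul_add, ac, ad, bc, bd]
    abel
  · rw [add_mul, mul_add, mul_add, ca, cb, da, db]
    abel
  · change e * (a + b) = (a + b) * f
    rw [mul_add, add_mul, a2, eb, a1, bf]

end

end Pool.Agent.PurNrd
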