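import Mathlib

/-! Corners of Azumaya algebras are Azumaya. -/

namespace Pool.Agent.PurNrd

open Module TensorProduct

universe u

section
variable {R : Type u} [CommRing R] {B : Type u} [Ring B] [Algebra R B] {e : B}
  (he : IsIdempotentElem e)

theorem corner_mem (x : he.Corner) : e * x.1 = x.1 ∧ x.1 * e = x.1 :=
  (Subsemigroup.mem_corner_iff he).1 x.2

/-- the module structure of the corner -/
abbrev cornerModule : Module R he.Corner where
  smul r x := ⟨r • x.1, (Subsemigroup.mem_corner_iff he).2
    ⟨by rw [mul_smul_comm, (corner_mem he x).1], by rw [smul_mul_assoc, (corner_mem he x).2]⟩⟩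
  one_smul x := Subtype.ext (one_smul R x.1)
  mul_smul r s x := Subtype.ext (mul_smul r s x.1)
  smul_zero r := Subtype.ext (smul_zero r)
  smul_add r x y := Subtype.ext (smul_add r x.1 y.1)
  add_smul r s x := Subtype.ext (add_smul r s x.1)
  zero_smul x := Subtype.ext (zero_smul R x.1)

instance cornerAlgebra : Algebra R he.Corner :=
  letI := cornerModule (R := R) he
  Algebra.ofModule (fun r x y => Subtype.ext (smul_mul_assoc r x.1 y.1))
    (fun r x y => Subtype.ext (mul_smul_comm r x.1 y.1))

theorem corner_smul_val (r : R) (x : he.Corner) : (r • x).1 = r • x.1 := rfl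

/-- the inclusion of the corner -/
def cInc : he.Corner →ₗ[R] B where
  toFun x := x.1
  map_add' _ _ := rfl
  map_smul' _ _ := rfl

/-- the projection onto the corner -/
def cPr : B →ₗ[R] he.Corner where
  toFun x := ⟨e * x * e, x, rfl⟩
  map_add' x y := Subtype.ext (by
    change e * (x + y) * e = e * x * e + e * y * e
    rw [mul_add, add_mul])
  map_smul' r x := Subtype.ext (by
    change e * (r • x) * e = r • (e * x * e)
    rw [mul_smul_comm, smul_mul_assoc])

theorem cPr_cInc (x : he.Corner) : cPr (R := R) he (cInc (R := R) he x) = x := by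
  refine Subtype.ext ?_
  change e * x.1 * e = x.1
  rw [(corner_mem he x).1, (corner_mem he x).2]

theorem cPr_comp : cPr (R := R) he ∘ₗ cInc (R := R) he = LinearMap.id :=
  LinearMap.ext (cPr_cInc he)

/-- the opposite of a linear map -/
def opL {M N : Type u} [AddCommGroup M] [Module R M] [AddCommGroup N] [Module R N]
    (f : M →ₗ[R] N) : Mᵐᵒᵖ →ₗ[R] Nᵐᵒᵖ :=
  (MulOpposite.opLinearEquiv R).toLinearMap ∘ₗ f ∘ₗ (MulOpposite.opLinearEquiv R).symm.toLinearMap

theorem mlr_pr (t : B ⊗[R] Bᵐᵒᵖ) (x : he.Corner) :
    AlgHom.mulLeftRight R he.Corner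
      (TensorProduct.map (cPr (R := R) he) (opL (cPr (R := R) he)) t) x =
      cPr (R := R) he (AlgHom.mulLeftRight R B t (cInc (R := R) he x)) := by
  induction t using TensorProduct.induction_on with
  | zero => simp
  | tmul a b =>
    rw [TensorProduct.map_tmul, AlgHom.mulLeftRight_apply, AlgHom.mulLeftRight_apply]
    refine Subtype.ext ?_
    change (e * a * e) * x.1 * (e * b.unop * e) = e * (a * x.1 * b.unop) * e
    have h1 := (corner_mem he x).1
    have h2 := (corner_mem he x).2
    calc (e * a * e) * x.1 * (e * b.unop * e) = e * a * (e * x.1) * e * b.unop * e := by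
          simp only [mul_assoc]
      _ = e * a * (x.1 * e) * b.unop * e := by rw [h1]; simp only [mul_assoc]
      _ = _ := by rw [h2]; simp only [mul_assoc]
  | add s t hs ht => simp only [map_add, LinearMap.add_apply, hs, ht]

theorem mlr_inc (t : he.Corner ⊗[R] he.Cornerᵐᵒᵖ) (x : B) :
    AlgHom.mulLeftRight R B
      (TensorProduct.map (cInc (R := R) he) (opL (cInc (R := R) he)) t) x =
      cInc (R := R) he (AlgHom.mulLeftRight R he.Corner t (cPr (R := R) he x)) := by
  induction t using TensorProduct.induction_on with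
  | zero => simp
  | tmul a b =>
    rw [TensorProduct.map_tmul, AlgHom.mulLeftRight_apply, AlgHom.mulLeftRight_apply]
    change a.1 * x * b.unop.1 = a.1 * (e * x * e) * b.unop.1
    have h1 := (corner_mem he a).2
    have h2 := (corner_mem he b.unop).1
    calc a.1 * x * b.unop.1 = (a.1 * e) * x * (e * b.unop.1) := by rw [h1, h2]
      _ = _ := by simp only [mul_assoc]
  | add s t hs ht => simp only [map_add, LinearMap.add_apply, hs, ht]

theorem isAzumaya_corner [IsDomain R] [IsAzumaya R B] [Module.Free R B] (h0 : e ≠ 0) :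
    IsAzumaya R he.Corner := by
  have hproj : Module.Projective R he.Corner :=
    Module.Projective.of_split (cInc (R := R) he) (cPr (R := R) he) (cPr_comp he)
  have hfin : Module.Finite R he.Corner :=
    Module.Finite.of_surjective (cPr (R := R) he) (fun x => ⟨cInc (R := R) he x, cPr_cInc he x⟩)
  have hfaith : FaithfulSMul R he.Corner := ⟨fun {r s} h => by
    have h1 := h (1 : he.Corner)
    have h2 : r • e = s • e := congrArg Subtype.val h1
    have h3 : (r - s) • e = 0 := by rw [sub_smul, h2, sub_self]
    exact sub_eq_zero.1 ((smul_eq_zero.1 h3).resolve_right h0)⟩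
  refine ⟨⟨?_, ?_⟩⟩
  · rw [injective_iff_map_eq_zero]
    intro t ht
    have h1 : TensorProduct.map (cInc (R := R) he) (opL (cInc (R := R) he)) t = 0 := by
      apply (IsAzumaya.AlgHom.mulLeftRight_bij R B).1
      refine LinearMap.ext fun x => ?_
      rw [mlr_inc, ht, map_zero]
      simp
    have h2 : TensorProduct.map (cPr (R := R) he) (opL (cPr (R := R) he))
        (TensorProduct.map (cInc (R := R) he) (opL (cInc (R := R) he)) t) = t := by
      rw [← LinearMap.comp_apply, ← TensorProduct.map_comp, cPr_comp]
      have h3 : opL (cPr (R := R) he) ∘ₗ opL (cInc (R := R) he) =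
          (LinearMap.id : he.Cornerᵐᵒᵖ →ₗ[R] he.Cornerᵐᵒᵖ) := by
        refine LinearMap.ext fun x => ?_
        change MulOpposite.op (cPr (R := R) he (cInc (R := R) he x.unop)) = x
        rw [cPr_cInc]
        rfl
      rw [h3, TensorProduct.map_id]
      rfl
    rw [← h2, h1, map_zero]
  · intro φ
    obtain ⟨t, ht⟩ := (IsAzumaya.AlgHom.mulLeftRight_bij R B).2
      (cInc (R := R) he ∘ₗ φ ∘ₗ cPr (R := R) he)
    refine ⟨TensorProduct.map (cPr (R := R) he) (opL (cPr (R := R) he)) t, ?_⟩
    refine LinearMap.ext fun x => ?_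
    rw [mlr_pr, ht]
    change cPr (R := R) he (cInc (R := R) he (φ (cPr (R := R) he (cInc (R := R) he x)))) = φ x
    rw [cPr_cInc, cPr_cInc]

end

end Pool.Agent.PurNrd
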