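import Mathlib

/-! Reduced norms. -/

namespace Pool.Agent.PurNrd

open TensorProduct

universe u

/-- `c` is the reduced norm of the element `s` of the `K`-algebra `S`: after some field extension
`L` of `K` and some isomorphism of `L ⊗ S` with a matrix algebra, `s` has determinant `c`. -/
def IsReducedNorm (K : Type u) [Field K] {S : Type u} [Ring S] [Algebra K S] (s : S) (c : K) :
    Prop :=
  ∃ (L : Type u) (_ : Field L) (_ : Algebra K L) (n : ℕ)
    (φ : (L ⊗[K] S) ≃ₐ[L] Matrix (Fin n) (Fin n) L),
    (φ (1 ⊗ₜ s)).det = algebraMap K L c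

end Pool.Agent.PurNrd
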