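import Pool.Agent.PurNrd.PD

/-! Finitely generated torsion-free modules of finite projective dimension over a local ring of
depth one are free. -/

namespace Pool.Agent.PurNrd

open Module Pointwise IsLocalRing

universe u

section
variable {A : Type u} [CommRing A] [IsNoetherianRing A] [IsLocalRing A]

omit [IsNoetherianRing A] in
theorem exists_minimal (M : Type u) [AddCommGroup M] [Module A M] [Module.Finite A M] :
    ∃ (k : ℕ) (f : (Fin k → A) →ₗ[A] M), Function.Surjective f ∧
      ∀ z, f z = 0 → ∀ i, z i ∈ maximalIdeal A := by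
  classical
  have hex : ∃ k : ℕ, ∃ f : (Fin k → A) →ₗ[A] M, Function.Surjective f :=
    Module.Finite.exists_fin' A M
  obtain ⟨f, hf⟩ := Nat.find_spec hex
  refine ⟨Nat.find hex, f, hf, fun z hz i => ?_⟩
  by_contra hi
  rw [mem_maximalIdeal, mem_nonunits_iff, not_not] at hi
  obtain ⟨k', hk'⟩ : ∃ k', Nat.find hex = k' + 1 := by
    refine Nat.exists_eq_succ_of_ne_zero fun h0 => ?_
    rw [h0] at i
    exact i.elim0
  revert f hf z i hz hi
  rw [hk']
  intro f hf z hz i hi
  obtain ⟨u, hu⟩ := hi
  refine Nat.find_min hex (m := k') (by omega) ⟨Fintype.linearCombination A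
    (fun j => f (Pi.single (i.succAbove j) 1)), fun y => ?_⟩
  obtain ⟨v, rfl⟩ := hf y
  have hexp : ∀ v : Fin (k' + 1) → A, f v = v i • f (Pi.single i 1) +
      ∑ j, v (i.succAbove j) • f (Pi.single (i.succAbove j) 1) := by
    intro v
    rw [← Fin.sum_univ_succAbove (fun j => v j • f (Pi.single j 1)) i]
    have hv1 : v = ∑ j, v j • (Pi.single j (1 : A) : Fin (k' + 1) → A) := by
      ext j
      simp [Finset.sum_apply, Pi.single_apply]
    conv_lhs => rw [hv1]
    rw [map_sum]
    exact Finset.sum_congr rfl fun j _ => map_smul _ _ _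
  have h1 := hexp z
  rw [hz, ← hu] at h1
  have h2 : f (Pi.single i 1) = -∑ j, (((u⁻¹ : Aˣ) : A) * z (i.succAbove j)) •
      f (Pi.single (i.succAbove j) 1) := by
    have h3 := congrArg (fun m => ((u⁻¹ : Aˣ) : A) • m) h1
    simp only [smul_zero, smul_add, smul_smul, Units.inv_mul, one_smul, Finset.smul_sum] at h3
    exact eq_neg_of_add_eq_zero_left h3.symm
  refine ⟨fun j => v (i.succAbove j) - v i * (((u⁻¹ : Aˣ) : A) * z (i.succAbove j)), ?_⟩
  rw [hexp v, h2, Fintype.linearCombination_apply]
  simp only [sub_smul, Finset.sum_sub_distrib, mul_smul, smul_neg, Finset.smul_sum]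
  abel

theorem free_of_depth_one {a s : A} (ha : IsSMulRegular A a) (hs : s ∉ Ideal.span {a})
    (hms : ∀ m ∈ maximalIdeal A, m * s ∈ Ideal.span {a}) (n : ℕ) :
    ∀ (M : Type u) [AddCommGroup M] [Module A M] [Module.Finite A M] (_ : IsSMulRegular M a)
      (_ : PDLT A M (n + 1)), Module.Free A M := by
  induction n with
  | zero =>
    intro M _ _ _ h1 h2
    rw [zero_add, pd_one_iff] at h2
    exact Module.free_of_flat_of_isLocalRing
  | succ n ih =>
    intro M _ _ _ h1 h2
    obtain ⟨k, f, hf, hmin⟩ := exists_minimal (A := A) M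
    have hZreg : IsSMulRegular (LinearMap.ker f) a := by
      intro x y hxy
      have h7 : a • (x : Fin k → A) = a • (y : Fin k → A) := congrArg Subtype.val hxy
      exact Subtype.ext (funext fun i => ha (congrFun h7 i))
    have hZfree : Module.Free A (LinearMap.ker f) :=
      ih (LinearMap.ker f) hZreg (pd_ker f hf n h2)
    let b := Module.Free.chooseBasis A (LinearMap.ker f)
    have hemp : IsEmpty (Module.Free.ChooseBasisIndex A (LinearMap.ker f)) := by
      by_contra hcon
      rw [not_isEmpty_iff] at hcon
      obtain ⟨i⟩ := hcon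
      have hz : ∀ j, ∃ w, a * w = s * (b i : Fin k → A) j := by
        intro j
        have h3 := hms _ (hmin (b i : Fin k → A) (b i).2 j)
        obtain ⟨w, hw⟩ := Ideal.mem_span_singleton.1 h3
        exact ⟨w, by rw [← hw, mul_comm]⟩
      choose w hw using hz
      have hw' : a • w = s • (b i : Fin k → A) := funext hw
      have hfw : f w = 0 := by
        apply IsSMulRegular.right_eq_zero_of_smul h1
        rw [← map_smul, hw', map_smul]
        have : f (b i : Fin k → A) = 0 := (b i).2
        rw [this, smul_zero]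
      have h4 : a • (⟨w, hfw⟩ : LinearMap.ker f) = s • b i := Subtype.ext hw'
      have h5 := congrArg (fun z => b.repr z i) h4
      simp only [map_smul, Finsupp.smul_apply, Basis.repr_self, Finsupp.single_eq_same,
        smul_eq_mul, mul_one] at h5
      exact hs (Ideal.mem_span_singleton.2 ⟨_, h5.symm⟩)
    have hsub : Subsingleton (LinearMap.ker f) := b.repr.toEquiv.subsingleton
    have hinj : Function.Injective f := by
      rw [← LinearMap.ker_eq_bot]
      exact (Submodule.eq_bot_iff _).2 fun x hx =>
        congrArg Subtype.val (Subsingleton.elim (⟨x, hx⟩ : LinearMap.ker f) 0)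
    exact Module.Free.of_equiv (LinearEquiv.ofBijective f ⟨hinj, hf⟩)

end

end Pool.Agent.PurNrd
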