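import Pool.Agent.PurNrd.Defs

/-! Reduced norms: the determinant of right multiplication is the n-th power of the reduced norm;
in characteristic zero reduced norms lie in the base field. -/

namespace Pool.Agent.PurNrd

open Module TensorProduct

universe u

section
variable {K L : Type u} [Field K] [Field L] [Algebra K L] {S : Type u} [Ring S] [Algebra K S]
  {n : ℕ}

theorem det_mulRight_matrix (X : Matrix (Fin n) (Fin n) L) :
    LinearMap.det (LinearMap.mulRight L X) = X.det ^ n := by
  have h : LinearMap.mulRight L X =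
      LinearMap.pi (fun i : Fin n => (Matrix.vecMulLinear X).comp (LinearMap.proj i)) := by
    ext Y i j
    simp only [LinearMap.mulRight_apply, Matrix.mul_apply]
    rfl
  have h2 := LinearMap.det_pi (R := L) (fun _ : Fin n => Matrix.vecMulLinear X)
  have h3 : LinearMap.det (Matrix.vecMulLinear X) = X.det := by
    rw [← Matrix.det_transpose, ← LinearMap.det_toLin']
    congr 1
    ext v i
    simp
  rw [h]
  refine h2.trans ?_
  rw [Finset.prod_const, h3, Finset.card_univ, Fintype.card_fin]

theorem det_mulRight_eq (φ : (L ⊗[K] S) ≃ₐ[L] Matrix (Fin n) (Fin n) L) [FiniteDimensional K S]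
    (s : S) : algebraMap K L (LinearMap.det (LinearMap.mulRight K s)) =
      (φ (1 ⊗ₜ s)).det ^ n := by
  rw [← LinearMap.det_baseChange]
  have h1 : (LinearMap.mulRight K s).baseChange L = LinearMap.mulRight L ((1 : L) ⊗ₜ[K] s) := by
    ext x
    simp
  have h2 : (φ.toLinearEquiv : (L ⊗[K] S) →ₗ[L] Matrix (Fin n) (Fin n) L) ∘ₗ
      LinearMap.mulRight L ((1 : L) ⊗ₜ[K] s) ∘ₗ
      (φ.toLinearEquiv.symm : Matrix (Fin n) (Fin n) L →ₗ[L] (L ⊗[K] S)) =
      LinearMap.mulRight L (φ (1 ⊗ₜ s)) := by
    ext Y : 1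
    simp
  rw [h1, ← LinearMap.det_conj _ φ.toLinearEquiv, h2, det_mulRight_matrix]

theorem det_mulRight_L (φ : (L ⊗[K] S) ≃ₐ[L] Matrix (Fin n) (Fin n) L)
    (x : L ⊗[K] S) : LinearMap.det (LinearMap.mulRight L x) = (φ x).det ^ n := by
  have h2 : (φ.toLinearEquiv : (L ⊗[K] S) →ₗ[L] Matrix (Fin n) (Fin n) L) ∘ₗ
      LinearMap.mulRight L x ∘ₗ
      (φ.toLinearEquiv.symm : Matrix (Fin n) (Fin n) L →ₗ[L] (L ⊗[K] S)) =
      LinearMap.mulRight L (φ x) := by
    ext Y : 1
    simp
  rw [← LinearMap.det_conj _ φ.toLinearEquiv, h2, det_mulRight_matrix]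

theorem finrank_eq_sq (φ : (L ⊗[K] S) ≃ₐ[L] Matrix (Fin n) (Fin n) L) [FiniteDimensional K S] :
    finrank K S = n ^ 2 := by
  have := φ.toLinearEquiv.finrank_eq
  rw [Module.finrank_baseChange, Module.finrank_matrix] at this
  simpa [sq] using this

open Polynomial in
/-- an `n`-th root with constant term one of a polynomial over `K` has coefficients in `K`
(characteristic zero) -/
theorem coeff_lift [CharZero K] (f : L[X]) (g : K[X]) (n : ℕ) (hn : n ≠ 0)
    (h0 : f.coeff 0 = 1) (hf : f ^ n = g.map (algebraMap K L)) (m : ℕ) :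
    ∃ q : K[X], ∀ i, i < m + 1 → (q.map (algebraMap K L)).coeff i = f.coeff i := by
  induction m with
  | zero =>
    refine ⟨1, fun i hi => ?_⟩
    have : i = 0 := by omega
    subst this
    simp [h0]
  | succ m ih =>
    obtain ⟨q, hq⟩ := ih
    set f0 := q.map (algebraMap K L) with hf0
    have hdvd : X ^ (m + 1) ∣ f - f0 := by
      rw [Polynomial.X_pow_dvd_iff]
      intro d hd
      rw [Polynomial.coeff_sub, hq d hd, sub_self]
    obtain ⟨f1, hf1⟩ := hdvd
    have hf' : f = f0 + X ^ (m + 1) * f1 := by rw [← hf1]; ring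
    have h00 : f0.coeff 0 = 1 := by rw [hq 0 (by omega), h0]
    have key : ∀ k : ℕ, ∃ r : L[X], f ^ k = f0 ^ k + X ^ (m + 1) * r ∧
        r.coeff 0 = k * f1.coeff 0 := by
      intro k
      induction k with
      | zero => exact ⟨0, by simp, by simp⟩
      | succ k ih =>
        obtain ⟨r, hr, hr0⟩ := ih
        refine ⟨f0 ^ k * f1 + r * f0 + X ^ (m + 1) * (r * f1), ?_, ?_⟩
        · rw [pow_succ, hr]
          conv_lhs => rw [hf']
          ring
        · have hp : (f0 ^ k).coeff 0 = 1 := by
            rw [Polynomial.coeff_zero_eq_eval_zero, Polynomial.eval_pow,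
              ← Polynomial.coeff_zero_eq_eval_zero, h00, one_pow]
          rw [Polynomial.coeff_add, Polynomial.coeff_add, Polynomial.mul_coeff_zero,
            Polynomial.mul_coeff_zero, Polynomial.mul_coeff_zero, hp, h00, hr0,
            Polynomial.coeff_X_pow]
          simp
          ring
    obtain ⟨r, hr, hr0⟩ := key n
    have hc : (f ^ n).coeff (m + 1) = (f0 ^ n).coeff (m + 1) + n * f1.coeff 0 := by
      rw [hr, Polynomial.coeff_add, ← hr0]
      congr 1
      have := Polynomial.coeff_X_pow_mul r (m + 1) 0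
      rwa [zero_add] at this
    have hfm : f.coeff (m + 1) = f0.coeff (m + 1) + f1.coeff 0 := by
      conv_lhs => rw [hf']
      rw [Polynomial.coeff_add]
      congr 1
      have := Polynomial.coeff_X_pow_mul f1 (m + 1) 0
      rwa [zero_add] at this
    have hnL : (n : L) ≠ 0 := by
      have : CharZero L := charZero_of_injective_algebraMap (algebraMap K L).injective
      exact_mod_cast hn
    have hf1c : f1.coeff 0 = algebraMap K L ((g.coeff (m + 1) - (q ^ n).coeff (m + 1)) / n) := by
      rw [hf, hf0, ← Polynomial.map_pow, Polynomial.coeff_map, Polynomial.coeff_map] at hc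
      rw [map_div₀, map_sub, map_natCast, hc]
      field_simp
      ring
    refine ⟨q + Polynomial.monomial (m + 1)
      ((g.coeff (m + 1) - (q ^ n).coeff (m + 1)) / n), fun i hi => ?_⟩
    rw [Polynomial.map_add, Polynomial.coeff_add, Polynomial.map_monomial,
      Polynomial.coeff_monomial]
    by_cases h : m + 1 = i
    · subst h
      rw [if_pos rfl, hfm, hf1c]
    · rw [if_neg h, add_zero]
      exact hq i (by omega)

open Polynomial in
theorem eval_one_mem [CharZero K] (f : L[X]) (g : K[X]) (n : ℕ) (hn : n ≠ 0)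
    (h0 : f.coeff 0 = 1) (hf : f ^ n = g.map (algebraMap K L)) :
    ∃ c : K, algebraMap K L c = f.eval 1 := by
  obtain ⟨q, hq⟩ := coeff_lift f g n hn h0 hf f.natDegree
  refine ⟨∑ i ∈ Finset.range (f.natDegree + 1), q.coeff i, ?_⟩
  rw [Polynomial.eval_eq_sum_range, map_sum]
  refine Finset.sum_congr rfl fun i hi => ?_
  rw [one_pow, mul_one, ← hq i (Finset.mem_range.1 hi), Polynomial.coeff_map]

open Polynomial in
/-- in characteristic zero the determinant of `φ (1 ⊗ s)` lies in `K` -/
theorem exists_nrd [CharZero K] (φ : (L ⊗[K] S) ≃ₐ[L] Matrix (Fin n) (Fin n) L)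
    [FiniteDimensional K S] (hn : n ≠ 0) (s : S) :
    ∃ c : K, algebraMap K L c = (φ (1 ⊗ₜ s)).det := by
  classical
  have hL : CharZero L := charZero_of_injective_algebraMap (algebraMap K L).injective
  set Y := φ (1 ⊗ₜ s) with hY
  let b := Module.finBasis K S
  let M := LinearMap.toMatrix b b (LinearMap.mulRight K s)
  let f : L[X] := ((1 : Matrix (Fin n) (Fin n) L[X]) + (X : L[X]) • (Y - 1).map C).det
  let g : K[X] := ((1 : Matrix _ _ K[X]) + (X : K[X]) • (M - 1).map C).det
  have hfe : ∀ t : L, f.eval t = (1 + t • (Y - 1)).det := by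
    intro t
    change (Polynomial.evalRingHom t) _ = _
    rw [RingHom.map_det]
    congr 1
    ext i j
    by_cases hij : i = j
    · subst hij; simp [RingHom.mapMatrix_apply, Matrix.map_apply, Matrix.smul_apply]
    · simp [RingHom.mapMatrix_apply, Matrix.map_apply, Matrix.smul_apply, hij]
      ring
  have hge : ∀ t : L, (g.map (algebraMap K L)).eval t = (1 + t • (M.map (algebraMap K L) - 1)).det := by
    intro t
    rw [Polynomial.eval_map]
    change (Polynomial.eval₂RingHom (algebraMap K L) t) _ = _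
    rw [RingHom.map_det]
    congr 1
    ext i j
    by_cases hij : i = j
    · subst hij; simp [RingHom.mapMatrix_apply, Matrix.map_apply, Matrix.smul_apply]
    · simp [RingHom.mapMatrix_apply, Matrix.map_apply, Matrix.smul_apply, hij]
      ring
  have hfg : f ^ n = g.map (algebraMap K L) := by
    refine Polynomial.funext fun t => ?_
    rw [Polynomial.eval_pow, hfe, hge]
    have h1 := det_mulRight_L φ (1 + t • ((1 : L) ⊗ₜ[K] s - 1))
    rw [map_add, map_one, map_smul, map_sub, map_one, ← hY] at h1
    rw [← h1, ← LinearMap.det_toMatrix (Algebra.TensorProduct.basis L b)]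
    congr 1
    have h2 : LinearMap.mulRight L (1 + t • ((1 : L) ⊗ₜ[K] s - 1)) =
        LinearMap.id + t • ((LinearMap.mulRight K s).baseChange L - LinearMap.id) := by
      ext x
      simp [mul_add, mul_sub, smul_sub]
    rw [h2, map_add, map_smul, map_sub, LinearMap.toMatrix_id, LinearMap.toMatrix_baseChange]
  have hf0 : f.coeff 0 = 1 := by
    rw [Polynomial.coeff_zero_eq_eval_zero, hfe, zero_smul, add_zero, Matrix.det_one]
  obtain ⟨c, hc⟩ := eval_one_mem f g n hn hf0 hfg
  refine ⟨c, ?_⟩
  rw [hc, hfe, one_smul]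
  congr 1
  abel

end

end Pool.Agent.PurNrd
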