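import Pool.Agent.PurNrd.IdemLift
import Pool.Agent.PurNrd.Corner
import Pool.Agent.PurNrd.Nrd

/-! Descent of central simple algebras whose Brauer class comes from the base. -/

namespace Pool.Agent.PurNrd

open Module TensorProduct

universe u

section
variable {K : Type u} [Field K] {S S' : Type u} [Ring S] [Algebra K S] [Ring S'] [Algebra K S']

theorem IsReducedNorm.map {s : S} {c : K} (h : IsReducedNorm K s c) (f : S ≃ₐ[K] S') :
    IsReducedNorm K (f s) c := by
  obtain ⟨L, _, _, n, φ, hφ⟩ := h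
  refine ⟨L, inferInstance, inferInstance, n,
    (Algebra.TensorProduct.congr (AlgEquiv.refl : L ≃ₐ[L] L) f.symm).trans φ, ?_⟩
  rw [AlgEquiv.trans_apply, Algebra.TensorProduct.congr_apply, Algebra.TensorProduct.map_tmul]
  simpa using hφ

end

section
variable {R : Type u} [CommRing R] [IsDomain R] [IsLocalRing R] [IsNoetherianRing R]
  {B : Type u} [Ring B] [Algebra R B] [IsAzumaya R B]
  (K : Type u) [Field K] [Algebra R K] [IsFractionRing R K]

theorem exists_descent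
    (hpd : ∀ (M : Type u) [AddCommGroup M] [Module R M] [Module.Finite R M], ∃ n, PDLT R M n)
    (A : Type u) [Ring A] [Algebra K A] {a : ℕ} (ha : a ≠ 0)
    (Ψ : Matrix (Fin a) (Fin a) A ≃ₐ[K] K ⊗[R] B) :
    ∃ (C : Type u) (_ : Ring C) (_ : Algebra R C), IsAzumaya R C ∧
      Nonempty ((K ⊗[R] C) ≃ₐ[K] A) := by
  classical
  have hfB : Module.Free R B := free_of_azumaya
  have hs : IsSimpleRing (K ⊗[R] B) := isSimpleRing_baseChange K
  let i0 : Fin a := ⟨0, Nat.pos_of_ne_zero ha⟩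
  have hntA : Nontrivial A := by
    by_contra hA
    rw [not_nontrivial_iff_subsingleton] at hA
    have h1 : (1 : Matrix (Fin a) (Fin a) A) = 0 := by
      ext i j
      exact Subsingleton.elim _ _
    have h2 := congrArg Ψ h1
    rw [map_one, map_zero] at h2
    exact one_ne_zero h2
  set E : Matrix (Fin a) (Fin a) A := Matrix.single i0 i0 1 with hE
  have hEE : E * E = E := by
    rw [hE, Matrix.single_mul_single_same, one_mul]
  have hE0 : E ≠ 0 := by
    intro h
    have := congrFun (congrFun h i0) i0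
    rw [hE, Matrix.single_apply_same] at this
    exact one_ne_zero this
  obtain ⟨e, u, hee, hu⟩ := exists_idem K hpd (Ψ E) (by rw [← map_mul, hEE])
  have he : IsIdempotentElem e := hee
  have he0 : e ≠ 0 := by
    rintro rfl
    rw [TensorProduct.tmul_zero, zero_mul] at hu
    have h1 : Ψ E = 0 := by
      have := congrArg (fun y => ((u⁻¹ : (K ⊗[R] B)ˣ) : K ⊗[R] B) * y) hu
      simp only [mul_zero, ← mul_assoc, Units.inv_mul, one_mul] at this
      exact this.symm
    exact hE0 ((map_eq_zero_iff Ψ Ψ.injective).1 h1)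
  -- conjugation
  let Φ0 : (K ⊗[R] B) →ₐ[K] Matrix (Fin a) (Fin a) A :=
    AlgHom.ofLinearMap (Ψ.symm.toLinearMap ∘ₗ
      (LinearMap.mulLeft K ((u⁻¹ : (K ⊗[R] B)ˣ) : K ⊗[R] B)) ∘ₗ
      (LinearMap.mulRight K (u : K ⊗[R] B)))
      (by
        change Ψ.symm (((u⁻¹ : (K ⊗[R] B)ˣ) : K ⊗[R] B) * (1 * (u : K ⊗[R] B))) = 1
        rw [one_mul, Units.inv_mul, map_one])
      (fun x y => by
        change Ψ.symm (((u⁻¹ : (K ⊗[R] B)ˣ) : K ⊗[R] B) * (x * y * (u : K ⊗[R] B))) =
          Ψ.symm (((u⁻¹ : (K ⊗[R] B)ˣ) : K ⊗[R] B) * (x * (u : K ⊗[R] B))) *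
          Ψ.symm (((u⁻¹ : (K ⊗[R] B)ˣ) : K ⊗[R] B) * (y * (u : K ⊗[R] B)))
        rw [← map_mul]
        congr 1
        have h1 : (u : K ⊗[R] B) * ((u⁻¹ : (K ⊗[R] B)ˣ) : K ⊗[R] B) = 1 := Units.mul_inv u
        calc ((u⁻¹ : (K ⊗[R] B)ˣ) : K ⊗[R] B) * (x * y * (u : K ⊗[R] B)) =
              ((u⁻¹ : (K ⊗[R] B)ˣ) : K ⊗[R] B) * (x * (1 * (y * (u : K ⊗[R] B)))) := by
              rw [one_mul, mul_assoc]
          _ = _ := by rw [← h1]; simp only [mul_assoc])
  have hΦ0 : ∀ y, Φ0 y = Ψ.symm (((u⁻¹ : (K ⊗[R] B)ˣ) : K ⊗[R] B) * (y * (u : K ⊗[R] B))) :=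
    fun y => rfl
  have hΦinj : Function.Injective Φ0 := by
    intro x y hxy
    rw [hΦ0, hΦ0] at hxy
    have h1 := Ψ.symm.injective hxy
    have h2 := (Units.mul_right_inj u⁻¹).1 h1
    exact (Units.mul_left_inj u).1 h2
  have hΦsurj : Function.Surjective Φ0 := by
    intro y
    refine ⟨(u : K ⊗[R] B) * Ψ y * ((u⁻¹ : (K ⊗[R] B)ˣ) : K ⊗[R] B), ?_⟩
    rw [hΦ0]
    have : ((u⁻¹ : (K ⊗[R] B)ˣ) : K ⊗[R] B) * ((u : K ⊗[R] B) * Ψ y *
        ((u⁻¹ : (K ⊗[R] B)ˣ) : K ⊗[R] B) * (u : K ⊗[R] B)) = Ψ y := by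
      rw [mul_assoc _ ((u⁻¹ : (K ⊗[R] B)ˣ) : K ⊗[R] B), Units.inv_mul, mul_one, ← mul_assoc,
        Units.inv_mul, one_mul]
    rw [this, AlgEquiv.symm_apply_apply]
  have hΦe : Φ0 ((1 : K) ⊗ₜ[R] e) = E := by
    rw [hΦ0, hu, ← mul_assoc, Units.inv_mul, one_mul, AlgEquiv.symm_apply_apply]
  -- the comparison map
  let cI : (K ⊗[R] he.Corner) →ₗ[K] (K ⊗[R] B) := (cInc (R := R) he).baseChange K
  let cP : (K ⊗[R] B) →ₗ[K] (K ⊗[R] he.Corner) := (cPr (R := R) he).baseChange K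
  have hPI : ∀ z, cP (cI z) = z := by
    intro z
    have : cP ∘ₗ cI = LinearMap.id := by
      rw [← LinearMap.baseChange_comp, cPr_comp, LinearMap.baseChange_id]
    exact LinearMap.congr_fun this z
  have hIP : ∀ X, cI (cP X) = ((1 : K) ⊗ₜ[R] e) * X * ((1 : K) ⊗ₜ[R] e) := by
    intro X
    induction X using TensorProduct.induction_on with
    | zero => simp
    | tmul k x =>
      rw [Algebra.TensorProduct.tmul_mul_tmul, Algebra.TensorProduct.tmul_mul_tmul, one_mul,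
        mul_one]
      rfl
    | add x y hx hy => rw [map_add, map_add, hx, hy, mul_add, add_mul]
  have hIe : ∀ z, ((1 : K) ⊗ₜ[R] e) * cI z * ((1 : K) ⊗ₜ[R] e) = cI z := by
    intro z
    rw [← hIP, hPI]
  have hsingle : ∀ X, ((1 : K) ⊗ₜ[R] e) * X * ((1 : K) ⊗ₜ[R] e) = X →
      Φ0 X = Matrix.single i0 i0 (Φ0 X i0 i0) := by
    intro X hX
    have h1 : E * Φ0 X * E = Φ0 X := by rw [← hΦe, ← map_mul, ← map_mul, hX]
    rw [hE, Matrix.single_mul_mul_single, one_mul, mul_one] at h1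
    exact h1.symm
  have hImul : ∀ z w, cI (z * w) = cI z * cI w := by
    intro z w
    induction z using TensorProduct.induction_on with
    | zero => simp
    | tmul k x =>
      induction w using TensorProduct.induction_on with
      | zero => simp
      | tmul k' x' =>
        rw [Algebra.TensorProduct.tmul_mul_tmul]
        change (k * k') ⊗ₜ[R] (x.1 * x'.1) = (k ⊗ₜ[R] x.1) * (k' ⊗ₜ[R] x'.1)
        rw [Algebra.TensorProduct.tmul_mul_tmul]
      | add x y hx hy => rw [mul_add, map_add, map_add, mul_add, hx, hy]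
    | add x y hx hy => rw [add_mul, map_add, map_add, add_mul, hx, hy]
  let θ0 : (K ⊗[R] he.Corner) →ₗ[K] A :=
    (Matrix.entryLinearMap K A i0 i0) ∘ₗ Φ0.toLinearMap ∘ₗ cI
  have hθ0 : ∀ z, θ0 z = Φ0 (cI z) i0 i0 := fun z => rfl
  let θ : (K ⊗[R] he.Corner) →ₐ[K] A := AlgHom.ofLinearMap θ0
    (by
      rw [hθ0]
      have : cI 1 = (1 : K) ⊗ₜ[R] e := rfl
      rw [this, hΦe, hE, Matrix.single_apply_same])
    (fun z w => by
      rw [hθ0, hθ0, hθ0, hImul, map_mul, hsingle _ (hIe z), hsingle _ (hIe w),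
        Matrix.single_mul_single_same, Matrix.single_apply_same, Matrix.single_apply_same,
        Matrix.single_apply_same])
  have hθ : ∀ z, θ z = Φ0 (cI z) i0 i0 := fun z => rfl
  have hbij : Function.Bijective θ := by
    constructor
    · rw [injective_iff_map_eq_zero]
      intro z hz
      rw [hθ] at hz
      have h1 := hsingle _ (hIe z)
      rw [hz, Matrix.single_zero] at h1
      have h2 : cI z = 0 := hΦinj (h1.trans (map_zero Φ0).symm)
      rw [← hPI z, h2, map_zero]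
    · intro y
      obtain ⟨X, hX⟩ := hΦsurj (Matrix.single i0 i0 y)
      have h1 : ((1 : K) ⊗ₜ[R] e) * X * ((1 : K) ⊗ₜ[R] e) = X := by
        apply hΦinj
        rw [map_mul, map_mul, hΦe, hX, hE, Matrix.single_mul_mul_single, one_mul, mul_one,
          Matrix.single_apply_same]
      refine ⟨cP X, ?_⟩
      rw [hθ, hIP, h1, hX, Matrix.single_apply_same]
  exact ⟨he.Corner, inferInstance, inferInstance, isAzumaya_corner he he0,
    ⟨AlgEquiv.ofBijective θ hbij⟩⟩

end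

end Pool.Agent.PurNrd
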