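import Pool.Agent.PurNrd.Free

/-! Devissage: the index at `π` of every lattice of finite projective dimension containing
`π^e B^k` is the determinant of a unit of `K ⊗ B`. -/

namespace Pool.Agent.PurNrd

open Module TensorProduct

universe u

section
variable {R : Type u} [CommRing R] [IsDomain R] [IsLocalRing R] [IsNoetherianRing R]
  {B : Type u} [Ring B] [Algebra R B] [IsAzumaya R B]
  (K : Type u) [Field K] [Algebra R K] [IsFractionRing R K] [CharZero K]
  {π : R} (hπ : Prime π) (O : Type u) [CommRing O] [IsDomain O] [IsPrincipalIdealRing O]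
  [Algebra R O] [Module.Flat R O]

omit [IsDomain R] [IsNoetherianRing R] [IsFractionRing R K] [CharZero K] in
theorem det_scalar (c : K) :
    LinearMap.det (LinearMap.mulRight K (algebraMap K (K ⊗[R] B) c)) = c ^ finrank R B := by
  have hfB : Module.Free R B := free_of_azumaya
  have h : LinearMap.mulRight K (algebraMap K (K ⊗[R] B) c) =
      c • (LinearMap.id : (K ⊗[R] B) →ₗ[K] (K ⊗[R] B)) := by
    refine LinearMap.ext fun x => ?_
    rw [LinearMap.mulRight_apply, ← Algebra.commutes, ← Algebra.smul_def]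
    rfl
  rw [h, LinearMap.det_smul, LinearMap.det_id, mul_one, Module.finrank_baseChange]

include hπ in
theorem complement (hs : IsSimpleRing (K ⊗[R] B)) (y' : (K ⊗[R] B)ˣ) (w' : Rˣ) (j t t' : ℕ)
    (h : LinearMap.det (LinearMap.mulRight K (y' : K ⊗[R] B)) =
        algebraMap R K ((w' : R) * π ^ t')) (ht : t' + t = j * finrank R B) :
    ∃ y : (K ⊗[R] B)ˣ, LinearMap.det (LinearMap.mulRight K (y : K ⊗[R] B)) =
        algebraMap R K (((w'⁻¹ : Rˣ) : R) * π ^ t) := by
  have hfB : Module.Free R B := free_of_azumaya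
  have hπK : algebraMap R K π ≠ 0 := by
    rw [Ne, FaithfulSMul.algebraMap_eq_zero_iff]; exact hπ.ne_zero
  let z : (K ⊗[R] B)ˣ := Units.map (algebraMap K (K ⊗[R] B)).toMonoidHom
    (Units.mk0 ((algebraMap R K π) ^ j) (pow_ne_zero _ hπK))
  refine ⟨z * y'⁻¹, ?_⟩
  have hz : LinearMap.det (LinearMap.mulRight K (z : K ⊗[R] B)) =
      (algebraMap R K π) ^ (j * finrank R B) := by
    have : (z : K ⊗[R] B) = algebraMap K (K ⊗[R] B) ((algebraMap R K π) ^ j) := rfl
    rw [this, det_scalar, pow_mul]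
  have hy : LinearMap.det (LinearMap.mulRight K ((y'⁻¹ : (K ⊗[R] B)ˣ) : K ⊗[R] B)) *
      algebraMap R K ((w' : R) * π ^ t') = 1 := by
    rw [← h, ← det_mulRight_mul, Units.inv_mul, LinearMap.mulRight_one, LinearMap.det_id]
  rw [Units.val_mul, det_mulRight_mul, hz, ← ht, pow_add]
  have hw : algebraMap R K (w' : R) * algebraMap R K ((w'⁻¹ : Rˣ) : R) = 1 := by
    rw [← map_mul, Units.mul_inv, map_one]
  rw [map_mul, map_pow] at hy
  rw [map_mul, map_pow]
  calc (algebraMap R K π) ^ t' * (algebraMap R K π) ^ t *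
        LinearMap.det (LinearMap.mulRight K ((y'⁻¹ : (K ⊗[R] B)ˣ) : K ⊗[R] B))
      = (algebraMap R K (w' : R) * algebraMap R K ((w'⁻¹ : Rˣ) : R)) *
        ((algebraMap R K π) ^ t' * (algebraMap R K π) ^ t *
        LinearMap.det (LinearMap.mulRight K ((y'⁻¹ : (K ⊗[R] B)ˣ) : K ⊗[R] B))) := by
        rw [hw, one_mul]
    _ = (LinearMap.det (LinearMap.mulRight K ((y'⁻¹ : (K ⊗[R] B)ˣ) : K ⊗[R] B)) *
        (algebraMap R K (w' : R) * (algebraMap R K π) ^ t')) *
        (algebraMap R K ((w'⁻¹ : Rˣ) : R) * (algebraMap R K π) ^ t) := by ring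
    _ = _ := by rw [hy, one_mul]

omit [IsLocalRing R] [IsNoetherianRing R] [IsAzumaya R B] [IsPrincipalIdealRing O] [Module.Flat R O] in
theorem lp_add_lattice [IsPrincipalIdealRing O] [Module.Flat R O] {k k' : ℕ} {r : R}
    (Λ : Submodule B (Fin k → B)) (hΛ : ∀ v, r • v ∈ Λ)
    (g : (Fin k' → B) →ₗ[B] Λ) (hg : Function.Surjective g) :
    lp (R := R) O ((Fin k → B) ⧸ LinearMap.range
        (r • (LinearMap.id : (Fin k → B) →ₗ[R] (Fin k → B)))) =
      lp (R := R) O ((Fin k' → B) ⧸ (LinearMap.range (smulInto r Λ hΛ)).comap g) +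
      lp (R := R) O ((Fin k → B) ⧸ Λ) := by
  set R0 : Submodule R (Fin k → B) := LinearMap.range
    (r • (LinearMap.id : (Fin k → B) →ₗ[R] (Fin k → B))) with hR0
  set Λ' : Submodule B (Fin k' → B) := (LinearMap.range (smulInto r Λ hΛ)).comap g
  have hmem : ∀ x : Fin k' → B, x ∈ Λ' ↔ ((g x : Λ) : Fin k → B) ∈ R0 := by
    intro x
    constructor
    · rintro ⟨v, hv⟩
      exact ⟨v, congrArg Subtype.val hv⟩
    · rintro ⟨v, hv⟩
      exact ⟨v, Subtype.ext hv⟩
  let φ : (Fin k' → B) →ₗ[R] ((Fin k → B) ⧸ R0) :=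
    R0.mkQ ∘ₗ (Λ.subtype ∘ₗ g).restrictScalars R
  have hφ : LinearMap.ker φ = Λ'.restrictScalars R := by
    ext x
    rw [LinearMap.mem_ker, Submodule.restrictScalars_mem, hmem]
    change R0.mkQ ((g x : Λ) : Fin k → B) = 0 ↔ _
    rw [← LinearMap.mem_ker, Submodule.ker_mkQ]
  let α : ((Fin k' → B) ⧸ Λ'.restrictScalars R) →ₗ[R] ((Fin k → B) ⧸ R0) :=
    (Λ'.restrictScalars R).liftQ φ hφ.ge
  have hα : Function.Injective α := by
    rw [← LinearMap.ker_eq_bot]
    exact Submodule.ker_liftQ_eq_bot _ _ _ hφ.le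
  have hR0Λ : R0 ≤ Λ.restrictScalars R := by
    rintro x ⟨v, rfl⟩
    exact hΛ v
  let β : ((Fin k → B) ⧸ R0) →ₗ[R] ((Fin k → B) ⧸ Λ.restrictScalars R) :=
    Submodule.factor hR0Λ
  have hβ : Function.Surjective β := Submodule.factor_surjective hR0Λ
  have hex : Function.Exact α β := by
    intro q
    obtain ⟨v, rfl⟩ := R0.mkQ_surjective q
    constructor
    · intro hq
      have hv : v ∈ Λ := by
        have h1 : (Λ.restrictScalars R).mkQ v = 0 := hq
        rwa [← LinearMap.mem_ker, Submodule.ker_mkQ] at h1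
      obtain ⟨x, hx⟩ := hg ⟨v, hv⟩
      refine ⟨(Λ'.restrictScalars R).mkQ x, ?_⟩
      change R0.mkQ ((g x : Λ) : Fin k → B) = _
      rw [hx]
    · rintro ⟨y, hy⟩
      obtain ⟨x, rfl⟩ := (Λ'.restrictScalars R).mkQ_surjective y
      rw [← hy]
      change (Λ.restrictScalars R).mkQ ((g x : Λ) : Fin k → B) = 0
      rw [← LinearMap.mem_ker, Submodule.ker_mkQ]
      exact (g x).2
  exact lp_add O α β hα hβ hex

omit [IsLocalRing R] [IsNoetherianRing R] [IsAzumaya R B] in
theorem pd_step [Module.Free R B] [Module.Finite R B] {k k' : ℕ} {r : R} (hr : r ≠ 0) (n : ℕ)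
    (Λ : Submodule B (Fin k → B)) (hΛ : ∀ v, r • v ∈ Λ)
    (g : (Fin k' → B) →ₗ[B] Λ) (hg : Function.Surjective g) (h : PDLT R Λ (n + 2)) :
    PDLT R ((LinearMap.range (smulInto r Λ hΛ)).comap g) (n + 1) := by
  set P := LinearMap.range (smulInto r Λ hΛ) with hP
  set Λ' : Submodule B (Fin k' → B) := P.comap g with hΛ'
  have hp' : Function.Injective (smulInto r Λ hΛ) := by
    rw [injective_iff_map_eq_zero]
    intro v hv
    have h1 : r • v = 0 := congrArg Subtype.val hv
    exact (smul_eq_zero.1 h1).resolve_left hr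
  have hK1 : PDLT R (LinearMap.ker (g.restrictScalars R)) (n + 1) :=
    pd_ker (g.restrictScalars R) hg n h
  have hPp : PDLT R P (n + 1) := by
    have e1 : (Fin k → B) ≃ₗ[B] P := LinearEquiv.ofInjective _ hp'
    have h1 : PDLT R (Fin k → B) 1 := (pd_one_iff _).2 inferInstance
    exact pd_mono (by omega) (pd_congr (e1.restrictScalars R) 1 h1)
  let q : Λ' →ₗ[B] P := (g ∘ₗ Λ'.subtype).codRestrict P (fun x => x.2)
  have hq : Function.Surjective q := by
    rintro ⟨y, hy⟩
    obtain ⟨x, hx⟩ := hg y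
    refine ⟨⟨x, ?_⟩, Subtype.ext hx⟩
    change g x ∈ P
    rw [hx]; exact hy
  have hker : LinearMap.ker (g.restrictScalars R) ≃ₗ[R] LinearMap.ker (q.restrictScalars R) :=
    { toFun := fun x => ⟨⟨x.1, by
        have hx : g x.1 = 0 := x.2
        change g x.1 ∈ P
        rw [hx]; exact P.zero_mem⟩, by
        have hx : g x.1 = 0 := x.2
        exact Subtype.ext hx⟩
      invFun := fun x => ⟨x.1.1, congrArg Subtype.val (x.2 : q x.1 = 0)⟩
      map_add' := fun _ _ => rfl
      map_smul' := fun _ _ => rfl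
      left_inv := fun _ => rfl
      right_inv := fun _ => rfl }
  exact pd_mid (q.restrictScalars R) hq (n + 1) (pd_congr hker (n + 1) hK1) hPp

include hπ in
/-- the devissage -/
theorem devissage (hO0 : algebraMap R O π ≠ 0) (hO : Ring.ord O (algebraMap R O π) = 1)
    (e n : ℕ) : ∀ (k : ℕ) (Λ : Submodule B (Fin k → B)) (_ : ∀ v : Fin k → B, (π ^ e) • v ∈ Λ)
    (_ : PDLT R Λ (n + 1)),
    ∃ (y : (K ⊗[R] B)ˣ) (w : Rˣ) (t : ℕ), lp (R := R) O ((Fin k → B) ⧸ Λ) = t ∧
      LinearMap.det (LinearMap.mulRight K (y : K ⊗[R] B)) =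
        algebraMap R K ((w : R) * π ^ t) := by
  have hfB : Module.Free R B := free_of_azumaya
  have hs : IsSimpleRing (K ⊗[R] B) := isSimpleRing_baseChange K
  induction n with
  | zero =>
    intro k Λ hΛ hp
    exact base_case K hπ O hO0 hO Λ hΛ ((pd_one_iff _).1 hp)
  | succ n ih =>
    intro k Λ hΛ hp
    have hfin : Module.Finite R Λ :=
      Module.Finite.of_injective (Λ.subtype.restrictScalars R) Λ.injective_subtype
    have hfinB : Module.Finite B Λ := Module.Finite.of_restrictScalars_finite R B Λ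
    obtain ⟨k', g, hg⟩ := Module.Finite.exists_fin' B Λ
    have hpd := pd_step (pow_ne_zero e hπ.ne_zero) n Λ hΛ g hg hp
    obtain ⟨y', w', t', ht', hy'⟩ := ih k' _ (fun v => by
      change g ((π ^ e) • v) ∈ LinearMap.range (smulInto (π ^ e) Λ hΛ)
      refine ⟨((g v : Λ) : Fin k → B), ?_⟩
      refine Subtype.ext ?_
      have : g ((π ^ e) • v) = (π ^ e) • g v := (g.restrictScalars R).map_smul _ _
      rw [this]
      rfl) hpd
    have hadd := lp_add_lattice O Λ hΛ g hg
    have hinj : Function.Injective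
        ((π ^ e) • (LinearMap.id : (Fin k → B) →ₗ[R] (Fin k → B))) := by
      intro v v' h
      exact smul_right_injective _ (pow_ne_zero _ hπ.ne_zero) h
    have hR0 : lp (R := R) O ((Fin k → B) ⧸ LinearMap.range
        ((π ^ e) • (LinearMap.id : (Fin k → B) →ₗ[R] (Fin k → B)))) =
        ((k * e) * finrank R B : ℕ) := by
      rw [lp_coker O _ hinj, LinearMap.det_smul, LinearMap.det_id, mul_one, ← pow_mul,
        Module.finrank_pi_fintype]
      have := ord_unit_pow O hO0 hO (1 : Rˣ) (e * ∑ _i : Fin k, finrank R B)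
      rw [Units.val_one, one_mul] at this
      rw [this]
      congr 1
      simp
      ring
    rw [hR0, ht'] at hadd
    obtain ⟨t, ht⟩ : ∃ t : ℕ, lp (R := R) O ((Fin k → B) ⧸ Λ) = t := by
      have h1 : lp (R := R) O ((Fin k → B) ⧸ Λ) ≠ ⊤ := by
        intro h
        rw [h, add_top] at hadd
        exact ENat.natCast_ne_top _ hadd
      obtain ⟨t, ht⟩ := ENat.ne_top_iff_exists.1 h1
      exact ⟨t, ht.symm⟩
    rw [ht] at hadd
    have hadd' : t' + t = (k * e) * finrank R B := by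
      exact_mod_cast hadd.symm
    obtain ⟨y, hy⟩ := complement K hπ hs y' w' (k * e) t t' hy' hadd'
    exact ⟨y, w'⁻¹, t, ht, hy⟩

end

end Pool.Agent.PurNrd
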