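import Pool.Agent.PurNrd.Devissage

/-! The localisation at a prime element is a discrete valuation ring; saturation of a lattice. -/

namespace Pool.Agent.PurNrd

open Module TensorProduct

universe u

section
variable {R : Type u} [CommRing R] [IsDomain R] [IsNoetherianRing R] {π : R} (hπ : Prime π)

include hπ in
theorem prime_span : (Ideal.span {π}).IsPrime :=
  (Ideal.span_singleton_prime hπ.ne_zero).2 hπ

variable [hP : (Ideal.span {π}).IsPrime]

theorem loc_max : IsLocalRing.maximalIdeal (Localization.AtPrime (Ideal.span {π})) =
    Ideal.span {algebraMap R (Localization.AtPrime (Ideal.span {π})) π} := by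
  rw [← Localization.AtPrime.map_eq_maximalIdeal, Ideal.map_span, Set.image_singleton]

theorem loc_domain : IsDomain (Localization.AtPrime (Ideal.span {π})) :=
  IsLocalization.isDomain_localization (Ideal.primeCompl_le_nonZeroDivisors _)

theorem loc_inj : Function.Injective (algebraMap R (Localization.AtPrime (Ideal.span {π}))) :=
  IsLocalization.injective _ (Ideal.primeCompl_le_nonZeroDivisors (Ideal.span {π}))

include hπ in
theorem loc_ne : algebraMap R (Localization.AtPrime (Ideal.span {π})) π ≠ 0 := by
  intro h
  exact hπ.ne_zero (loc_inj (h.trans (map_zero _).symm))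

theorem loc_pid : IsPrincipalIdealRing (Localization.AtPrime (Ideal.span {π})) := by
  have := loc_domain (π := π)
  have : IsNoetherianRing (Localization.AtPrime (Ideal.span {π})) :=
    IsLocalization.isNoetherianRing (Ideal.span {π}).primeCompl _ inferInstance
  refine ((tfae_of_isNoetherianRing_of_isLocalRing_of_isDomain
    (Localization.AtPrime (Ideal.span {π}))).out 4 0).1 ?_
  rw [loc_max]
  exact ⟨_, rfl⟩

theorem loc_ord : Ring.ord (Localization.AtPrime (Ideal.span {π}))
    (algebraMap R (Localization.AtPrime (Ideal.span {π})) π) = 1 := by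
  rw [Ring.ord, ← loc_max, Module.length_eq_one_iff]
  have : (IsLocalRing.maximalIdeal (Localization.AtPrime (Ideal.span {π}))).IsMaximal :=
    inferInstance
  rw [isSimpleModule_iff_isCoatom]
  exact this.out

theorem loc_unit {d : R} (hd : ¬ π ∣ d) :
    IsUnit (algebraMap R (Localization.AtPrime (Ideal.span {π})) d) :=
  IsLocalization.map_units (Localization.AtPrime (Ideal.span {π}))
    (⟨d, fun h => hd (Ideal.mem_span_singleton.1 h)⟩ : (Ideal.span {π}).primeCompl)

end

section adj
variable {R : Type u} [CommRing R] {V : Type u} [AddCommGroup V] [Module R V] [Module.Free R V]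
  [Module.Finite R V]

/-- the adjugate of an endomorphism of a free module -/
theorem exists_adj (f : V →ₗ[R] V) : ∃ g : V →ₗ[R] V,
    f ∘ₗ g = LinearMap.det f • LinearMap.id ∧ g ∘ₗ f = LinearMap.det f • LinearMap.id := by
  classical
  let b := Module.Free.chooseBasis R V
  refine ⟨Matrix.toLin b b (Matrix.adjugate (LinearMap.toMatrix b b f)), ?_, ?_⟩
  · apply (LinearMap.toMatrix b b).injective
    rw [LinearMap.toMatrix_comp b b b, LinearMap.toMatrix_toLin, Matrix.mul_adjugate,
      LinearMap.det_toMatrix, map_smul, LinearMap.toMatrix_id]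
  · apply (LinearMap.toMatrix b b).injective
    rw [LinearMap.toMatrix_comp b b b, LinearMap.toMatrix_toLin, Matrix.adjugate_mul,
      LinearMap.det_toMatrix, map_smul, LinearMap.toMatrix_id]

end adj

end Pool.Agent.PurNrd
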