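import Pool.Agent.PurNrd.ModClass

/-! Automorphisms of free modules over a simple algebra: the determinant is the determinant of one
unit of the algebra. -/

namespace Pool.Agent.PurNrd

open Module

universe u

section shear
variable {K V W : Type u} [Field K] [CharZero K] [AddCommGroup V] [Module K V]
  [FiniteDimensional K V] [AddCommGroup W] [Module K W] [FiniteDimensional K W]

theorem det_eq_one_of_conj (U : (V × W) →ₗ[K] (V × W)) (U' : (V × W) →ₗ[K] (V × W))
    (hU : U ∘ₗ U' = LinearMap.id) (e : (V × W) ≃ₗ[K] (V × W))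
    (he : ∀ x, e (U x) = U (U (e x))) :
    LinearMap.det U = 1 := by
  have he' : (e : (V × W) →ₗ[K] (V × W)) ∘ₗ U ∘ₗ (e.symm : (V × W) →ₗ[K] (V × W)) =
      U ∘ₗ U := by
    refine LinearMap.ext fun x => ?_
    simp [he]
  have h1 := LinearMap.det_conj U e
  rw [he', LinearMap.det_comp] at h1
  have h2 : LinearMap.det U * LinearMap.det U' = 1 := by
    rw [← LinearMap.det_comp, hU, LinearMap.det_id]
  have h3 : LinearMap.det U ≠ 0 := by
    intro h; rw [h, zero_mul] at h2; exact zero_ne_one h2
  exact mul_right_cancel₀ h3 (by rw [h1, one_mul])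

theorem det_shear (δ : V →ₗ[K] W) :
    LinearMap.det (LinearMap.prod (LinearMap.fst K V W)
      (LinearMap.snd K V W + δ ∘ₗ LinearMap.fst K V W)) = 1 := by
  refine det_eq_one_of_conj _ (LinearMap.prod (LinearMap.fst K V W)
      (LinearMap.snd K V W - δ ∘ₗ LinearMap.fst K V W)) ?_
    (LinearEquiv.prodCongr (LinearEquiv.refl K V)
      (LinearEquiv.smulOfNeZero K W (2 : K) two_ne_zero)) ?_
  · ext x <;> simp
  · rintro ⟨x, y⟩
    refine Prod.ext ?_ ?_
    · simp
    · simp [smul_add, add_assoc, ← two_smul K]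

theorem det_shear' (μ : W →ₗ[K] V) :
    LinearMap.det (LinearMap.prod (LinearMap.fst K V W + μ ∘ₗ LinearMap.snd K V W)
      (LinearMap.snd K V W)) = 1 := by
  refine det_eq_one_of_conj _ (LinearMap.prod (LinearMap.fst K V W - μ ∘ₗ LinearMap.snd K V W)
      (LinearMap.snd K V W)) ?_
    (LinearEquiv.prodCongr (LinearEquiv.smulOfNeZero K V (2 : K) two_ne_zero)
      (LinearEquiv.refl K W)) ?_
  · ext x <;> simp
  · rintro ⟨x, y⟩
    refine Prod.ext ?_ ?_
    · simp [smul_add, add_assoc, ← two_smul K]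
    · simp

end shear

section elim
variable {K S W : Type u} [Field K] [CharZero K] [Ring S] [Algebra K S] [IsSimpleRing S]
  [hfdS : FiniteDimensional K S] [AddCommGroup W] [Module S W] [Module K W] [IsScalarTower K S W]
  [FiniteDimensional K W]

/-- stable range: correct a column by a multiple of the others to make the first entry a unit -/
theorem exists_correction (K : Type u) {S W : Type u} [Field K] [Ring S] [Algebra K S]
    [IsSimpleRing S] [FiniteDimensional K S] [AddCommGroup W] [Module S W] (a : S) (β : W →ₗ[S] S)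
    (hsurj : ∀ s : S, ∃ (x : S) (w : W), x * a + β w = s) :
    ∃ τ : S →ₗ[S] W, IsUnit (a + β (τ 1)) := by
  have hart : IsArtinianRing S := IsArtinianRing.of_finite K S
  let ra : S →ₗ[S] S := LinearMap.toSpanSingleton S S a
  have hra : ∀ x, ra x = x * a := fun x => rfl
  let A : Submodule S S := LinearMap.range ra
  let N : Submodule S S := LinearMap.ker ra
  have hfd : FiniteDimensional K N :=
    FiniteDimensional.of_injective ((N.subtype).restrictScalars K) N.injective_subtype
  have hfq : FiniteDimensional K (S ⧸ A) :=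
    Module.Finite.of_surjective ((A.mkQ).restrictScalars K) A.mkQ_surjective
  have hdim : finrank K N = finrank K (S ⧸ A) := by
    have h1 := LinearMap.finrank_range_add_finrank_ker (ra.restrictScalars K)
    have h2 := Submodule.finrank_quotient_add_finrank (A.restrictScalars K)
    have h3 : finrank K (S ⧸ A) = finrank K (S ⧸ (A.restrictScalars K)) := rfl
    have h4 : finrank K N = finrank K (LinearMap.ker (ra.restrictScalars K)) := rfl
    have h5 : finrank K (LinearMap.range (ra.restrictScalars K)) =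
      finrank K (A.restrictScalars K) := rfl
    omega
  obtain ⟨ψ⟩ := equiv_of_finrank (F := K) (S := S) hdim
  obtain ⟨pr, hpr⟩ := IsSemisimpleModule.extension_property (R := S) N.subtype
    N.injective_subtype (LinearMap.id : N →ₗ[S] N)
  have hsur : Function.Surjective (A.mkQ ∘ₗ β) := by
    intro q
    obtain ⟨s, rfl⟩ := A.mkQ_surjective q
    obtain ⟨x, w, hw⟩ := hsurj s
    refine ⟨w, ?_⟩
    rw [LinearMap.comp_apply, ← sub_eq_zero, ← map_sub, ← LinearMap.mem_ker, Submodule.ker_mkQ]
    have : β w - s = -(x * a) := by rw [← hw]; abel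
    rw [this]
    exact A.neg_mem ⟨x, rfl⟩
  obtain ⟨σ, hσ⟩ := IsSemisimpleModule.lifting_property (R := S) (A.mkQ ∘ₗ β) hsur
    (LinearMap.id : (S ⧸ A) →ₗ[S] (S ⧸ A))
  let τ : S →ₗ[S] W := σ ∘ₗ ψ.toLinearMap ∘ₗ pr
  refine ⟨τ, ?_⟩
  let h : S →ₗ[S] S := ra + β ∘ₗ τ
  have hh : ∀ x, h x = x * (a + β (τ 1)) := by
    intro x
    have : h x = h (x • (1 : S)) := by simp
    rw [this, map_smul, smul_eq_mul]
    simp [h, hra]
  have hinj : Function.Injective h := by
    rw [injective_iff_map_eq_zero]
    intro x hx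
    have h1 : A.mkQ (h x) = ψ (pr x) := by
      have e1 : A.mkQ (ra x) = 0 := by
        rw [← LinearMap.mem_ker, Submodule.ker_mkQ]; exact ⟨x, rfl⟩
      have e2 : A.mkQ (β (σ (ψ (pr x)))) = ψ (pr x) := by
        have := LinearMap.congr_fun hσ (ψ (pr x))
        simpa using this
      change A.mkQ (ra x + β (σ (ψ (pr x)))) = _
      rw [map_add, e1, zero_add, e2]
    rw [hx, map_zero] at h1
    have h2 : pr x = 0 := by
      apply ψ.injective
      rw [map_zero, ← h1]
    have h3 : τ x = 0 := by simp [τ, h2]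
    have h4 : ra x = 0 := by
      have : h x = ra x + β (τ x) := rfl
      rw [h3, map_zero, add_zero] at this
      rw [← this, hx]
    have h5 : x ∈ N := h4
    have h6 := LinearMap.congr_fun hpr ⟨x, h5⟩
    have h7 : pr x = ⟨x, h5⟩ := by simpa using h6
    rw [h2] at h7
    exact (congrArg Subtype.val h7).symm
  have hbij : Function.Surjective h := by
    have := (LinearMap.injective_iff_surjective (f := h.restrictScalars K)).1 hinj
    exact this
  obtain ⟨v, hv⟩ := hbij 1
  rw [hh] at hv
  have hart' : IsDedekindFiniteMonoid S := inferInstance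
  exact IsUnit.of_mul_eq_one_right _ hv

theorem elim_step (f : (S × W) ≃ₗ[S] (S × W)) : ∃ (u : Sˣ) (g : W ≃ₗ[S] W),
    LinearMap.det (f.toLinearMap.restrictScalars K) =
      LinearMap.det (LinearMap.mulRight K (u : S)) *
        LinearMap.det (g.toLinearMap.restrictScalars K) := by
  set a : S := (f (1, 0)).1 with ha
  let β : W →ₗ[S] S := LinearMap.fst S S W ∘ₗ f.toLinearMap ∘ₗ LinearMap.inr S S W
  have hf1 : ∀ x w, (f (x, w)).1 = x * a + β w := by
    intro x w
    have : ((x, w) : S × W) = x • ((1 : S), (0 : W)) + (0, w) := by simp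
    rw [this, map_add, map_smul, Prod.fst_add, Prod.smul_fst, smul_eq_mul]
    rfl
  obtain ⟨τ, hτ⟩ := exists_correction K a β (by
    intro s
    obtain ⟨⟨x, w⟩, hxw⟩ := f.surjective (s, 0)
    exact ⟨x, w, by rw [← hf1, hxw]⟩)
  obtain ⟨u, hu⟩ := hτ
  have hτ1 : ∀ x, τ x = x • τ 1 := by
    intro x
    rw [← map_smul, smul_eq_mul, mul_one]
  let E : (S × W) →ₗ[S] (S × W) :=
    LinearMap.prod (LinearMap.fst S S W) (LinearMap.snd S S W + τ ∘ₗ LinearMap.fst S S W)
  let ρ : S →ₗ[S] S := LinearMap.toSpanSingleton S S ((u⁻¹ : Sˣ) : S)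
  let E2 : (S × W) →ₗ[S] (S × W) :=
    LinearMap.prod (LinearMap.fst S S W + (-(ρ ∘ₗ β)) ∘ₗ LinearMap.snd S S W)
      (LinearMap.snd S S W)
  let F : (S × W) →ₗ[S] (S × W) := f.toLinearMap ∘ₗ E ∘ₗ E2
  have hE : ∀ x w, E (x, w) = (x, w + τ x) := fun x w => rfl
  have hE2 : ∀ x w, E2 (x, w) = (x - β w * ((u⁻¹ : Sˣ) : S), w) := by
    intro x w
    simp [E2, ρ, sub_eq_add_neg]
  have hF1 : ∀ x w, (F (x, w)).1 = x * u := by
    intro x w
    change (f (E (E2 (x, w)))).1 = _
    rw [hE2, hE, hf1, map_add, hτ1 (x - _), map_smul, smul_eq_mul]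
    have : (x - β w * ((u⁻¹ : Sˣ) : S)) * a + (β w + (x - β w * ((u⁻¹ : Sˣ) : S)) * β (τ 1)) =
      (x - β w * ((u⁻¹ : Sˣ) : S)) * (a + β (τ 1)) + β w := by
      rw [mul_add]; abel
    rw [this, ← hu, sub_mul, mul_assoc, Units.inv_mul, mul_one, sub_add_cancel]
  have hEinj : Function.Injective E := by
    rw [injective_iff_map_eq_zero]
    rintro ⟨x, w⟩ h
    rw [hE, Prod.mk_eq_zero] at h
    obtain ⟨rfl, h2⟩ := h
    rw [map_zero, add_zero] at h2
    rw [h2]; rfl
  have hE2inj : Function.Injective E2 := by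
    rw [injective_iff_map_eq_zero]
    rintro ⟨x, w⟩ h
    rw [hE2, Prod.mk_eq_zero] at h
    obtain ⟨h1, rfl⟩ := h
    rw [map_zero, zero_mul, sub_zero] at h1
    rw [h1]; rfl
  have hFinj : Function.Injective F := f.injective.comp (hEinj.comp hE2inj)
  let g0 : W →ₗ[S] W := LinearMap.snd S S W ∘ₗ F ∘ₗ LinearMap.inr S S W
  let γ : S →ₗ[S] W := LinearMap.snd S S W ∘ₗ F ∘ₗ LinearMap.inl S S W
  have hF : ∀ x w, F (x, w) = (x * u, γ x + g0 w) := by
    intro x w
    refine Prod.ext (hF1 x w) ?_
    have : ((x, w) : S × W) = (x, 0) + (0, w) := by simp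
    rw [this, map_add]
    rfl
  have hg0 : Function.Injective g0 := by
    rw [injective_iff_map_eq_zero]
    intro w hw
    have h1 : F (0, w) = 0 := by
      rw [hF, map_zero, hw, zero_mul, add_zero]; rfl
    have h2 := hFinj (h1.trans (map_zero F).symm)
    exact (Prod.mk_eq_zero.1 h2).2
  have hg0s : Function.Surjective g0 :=
    (LinearMap.injective_iff_surjective (f := g0.restrictScalars K)).1 hg0
  let g : W ≃ₗ[S] W := LinearEquiv.ofBijective g0 ⟨hg0, hg0s⟩
  refine ⟨u, g, ?_⟩
  have d1 : LinearMap.det (F.restrictScalars K) =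
      LinearMap.det (f.toLinearMap.restrictScalars K) := by
    have e1 : F.restrictScalars K = f.toLinearMap.restrictScalars K ∘ₗ
      (LinearMap.prod (LinearMap.fst K S W)
        (LinearMap.snd K S W + (τ.restrictScalars K) ∘ₗ LinearMap.fst K S W)) ∘ₗ
      (LinearMap.prod (LinearMap.fst K S W + ((-(ρ ∘ₗ β)).restrictScalars K) ∘ₗ
        LinearMap.snd K S W) (LinearMap.snd K S W)) := rfl
    rw [e1, LinearMap.det_comp, LinearMap.det_comp, det_shear, det_shear', mul_one, mul_one]
  have d2 : LinearMap.det (F.restrictScalars K) =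
      LinearMap.det (LinearMap.mulRight K (u : S)) *
        LinearMap.det (g.toLinearMap.restrictScalars K) := by
    have e2 : F.restrictScalars K =
      (LinearMap.prodMap (LinearMap.mulRight K (u : S)) (g.toLinearMap.restrictScalars K)) ∘ₗ
      (LinearMap.prod (LinearMap.fst K S W)
        (LinearMap.snd K S W + ((g.symm.toLinearMap ∘ₗ γ).restrictScalars K) ∘ₗ
          LinearMap.fst K S W)) := by
      refine LinearMap.ext fun x => ?_
      obtain ⟨x, w⟩ := x
      have : g (w + g.symm (γ x)) = γ x + g0 w := by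
        rw [map_add, LinearEquiv.apply_symm_apply, add_comm]; rfl
      refine (hF x w).trans (Prod.ext rfl ?_)
      exact this.symm
    rw [e2, LinearMap.det_comp, det_shear, mul_one, LinearMap.det_prodMap]
  rw [← d1, d2]

theorem det_mulRight_mul (u v : S) : LinearMap.det (LinearMap.mulRight K (u * v)) =
    LinearMap.det (LinearMap.mulRight K u) * LinearMap.det (LinearMap.mulRight K v) := by
  have : LinearMap.mulRight K (u * v) = LinearMap.mulRight K v ∘ₗ LinearMap.mulRight K u := by
    ext x; simp [mul_assoc]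
  rw [this, LinearMap.det_comp, mul_comm]

/-- the determinant of an automorphism of `S^k` is the determinant of a unit of `S` -/
theorem elim (k : ℕ) (f : (Fin k → S) ≃ₗ[S] (Fin k → S)) : ∃ u : Sˣ,
    LinearMap.det (f.toLinearMap.restrictScalars K) =
      LinearMap.det (LinearMap.mulRight K (u : S)) := by
  induction k with
  | zero =>
    refine ⟨1, ?_⟩
    have h1 : f.toLinearMap.restrictScalars K = LinearMap.id :=
      LinearMap.ext fun x => funext fun i => i.elim0
    have h2 : LinearMap.mulRight K ((1 : Sˣ) : S) = LinearMap.id := by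
      ext x; simp
    rw [h1, h2, LinearMap.det_id, LinearMap.det_id]
  | succ k ih =>
    let c : (S × (Fin k → S)) ≃ₗ[S] (Fin (k + 1) → S) :=
      Fin.consLinearEquiv S (fun _ : Fin (k + 1) => S)
    obtain ⟨u, g, hg⟩ := elim_step (K := K) ((c.trans f).trans c.symm)
    obtain ⟨v, hv⟩ := ih g
    refine ⟨u * v, ?_⟩
    rw [Units.val_mul, det_mulRight_mul, ← hv, ← hg]
    have := LinearMap.det_conj (f.toLinearMap.restrictScalars K) (c.symm.restrictScalars K)
    rw [← this]
    rfl

end elim

end Pool.Agent.PurNrd
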