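import Pool.Agent.PurNrd.Main
import Pool.Agent.PurNrd.Descent

/-! Purity for forms of type A: algebras whose Brauer class comes from the base, with reduced
norms. -/

namespace Pool.Agent.PurNrd

open Module TensorProduct

universe u

theorem purity_forms {R : Type u} [CommRing R] [IsRegularLocalRing R]
    (K : Type u) [Field K] [Algebra R K] [IsFractionRing R K] [CharZero K]
    {m r : ℕ} (A : Fin m → Type u) [∀ j, Ring (A j)] [∀ j, Algebra K (A j)]
    (hA : ∀ j, ∃ (B : Type u) (_ : Ring B) (_ : Algebra R B) (k : ℕ), IsAzumaya R B ∧ k ≠ 0 ∧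
      Nonempty (Matrix (Fin k) (Fin k) (A j) ≃ₐ[K] K ⊗[R] B))
    (l : Fin m → Fin r → ℤ) (c : Fin r → Kˣ)
    (h : ∀ p : Ideal R, p.IsPrime → p.height = 1 →
      ∃ (a s : Fin r → R) (b : ∀ j, (A j)ˣ) (ν : Fin m → K),
        (∀ i, a i ∉ p ∧ s i ∉ p) ∧ (∀ j, IsReducedNorm K (b j : A j) (ν j)) ∧
        ∀ i, algebraMap R K (s i) * c i = algebraMap R K (a i) * ∏ j, ν j ^ l j i) :
    ∃ (C : Fin m → Type u) (_ : ∀ j, Ring (C j)) (_ : ∀ j, Algebra R (C j)),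
      (∀ j, IsAzumaya R (C j)) ∧ (∀ j, Nonempty ((K ⊗[R] C j) ≃ₐ[K] A j)) ∧
      ∃ (a : Fin r → Rˣ) (b : ∀ j, (A j)ˣ) (ν : Fin m → K),
        (∀ j, IsReducedNorm K (b j : A j) (ν j)) ∧
        ∀ i, (c i : K) = algebraMap R K (a i) * ∏ j, ν j ^ l j i := by
  have hdom := isDomain_of_regular R
  have hC : ∀ j, ∃ (C : Type u) (_ : Ring C) (_ : Algebra R C), IsAzumaya R C ∧
      Nonempty ((K ⊗[R] C) ≃ₐ[K] A j) := by
    intro j
    obtain ⟨B, _, _, k, hB, hk, ⟨Ψ⟩⟩ := hA j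
    exact exists_descent K (finite_pd R) (A j) hk Ψ
  choose C iR iA hCaz hCe using hC
  refine ⟨C, iR, iA, hCaz, hCe, ?_⟩
  have e : ∀ j, (K ⊗[R] C j) ≃ₐ[K] A j := fun j => (hCe j).some
  obtain ⟨a, b, ν, hν, hc⟩ := purity_regular C K l (fun i => (c i : K)) (fun i => (c i).ne_zero)
    (fun p hp hh => by
      obtain ⟨a, s, b, ν, has, hν, hc⟩ := h p hp hh
      refine ⟨a, s, fun j => Units.map ((e j).symm : A j →* K ⊗[R] C j) (b j), ν, has,
        fun j => ?_, hc⟩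
      exact (hν j).map (e j).symm)
  exact ⟨a, fun j => Units.map ((e j) : K ⊗[R] C j →* A j) (b j), ν, fun j => (hν j).map (e j), hc⟩

end Pool.Agent.PurNrd
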