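import Mathlib

/-! Lengths of cokernels over discrete valuation rings and their localised versions. -/

namespace Pool.Agent.PurNrd

open Module TensorProduct

universe u

section dvr
variable {O : Type u} [CommRing O] [IsDomain O] [IsPrincipalIdealRing O]
  {V : Type u} [AddCommGroup V] [Module O V] [Module.Free O V] [Module.Finite O V]

theorem ord_prod {ι : Type*} (s : Finset ι) (a : ι → O) (ha : ∀ i, a i ≠ 0) :
    Ring.ord O (∏ i ∈ s, a i) = ∑ i ∈ s, Ring.ord O (a i) := by
  classical
  induction s using Finset.induction_on with
  | empty => simp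
  | insert i s his ih =>
    rw [Finset.prod_insert his, Finset.sum_insert his,
      Ring.ord_mul' O (mem_nonZeroDivisors_of_ne_zero (ha i)), ih]

theorem length_coker (f : V →ₗ[O] V) (hf : Function.Injective f) :
    Module.length O (V ⧸ LinearMap.range f) = Ring.ord O (LinearMap.det f) := by
  classical
  let b := Module.Free.chooseBasis O V
  set N := LinearMap.range f with hN
  let e1 : V ≃ₗ[O] N := LinearEquiv.ofInjective f hf
  have hr : finrank O N = finrank O V := e1.symm.finrank_eq
  let a := Submodule.smithNormalFormCoeffs b hr
  let b' := Submodule.smithNormalFormTopBasis b hr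
  let ab := Submodule.smithNormalFormBotBasis b hr
  have hab := Submodule.smithNormalFormBotBasis_def b hr
  have ha0 : ∀ i, a i ≠ 0 := fun i => Submodule.smithNormalFormCoeffs_ne_zero b hr i
  have hl : Module.length O (V ⧸ N) = ∑ i, Ring.ord O (a i) := by
    rw [(Submodule.quotientEquivPiSpan N b hr).length_eq, Module.length_pi_of_fintype]
    rfl
  let e2 : V ≃ₗ[O] N := b'.equiv ab (Equiv.refl _)
  let D : V →ₗ[O] V := Matrix.toLin b' b' (Matrix.diagonal a)
  have hD : D = N.subtype ∘ₗ e2.toLinearMap := by
    refine b'.ext fun i => ?_
    simp only [D, Matrix.toLin_self, Matrix.diagonal_apply]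
    rw [Finset.sum_eq_single i (by intro j _ hj; simp [hj]) (by simp)]
    simp only [if_true, LinearMap.comp_apply, LinearEquiv.coe_coe, e2, Basis.equiv_apply,
      Equiv.refl_apply, Submodule.subtype_apply, ab, hab]
    rfl
  have hdet : Associated (LinearMap.det f) (∏ i, a i) := by
    rw [← Matrix.det_diagonal, ← LinearMap.det_toLin b']
    refine LinearMap.associated_det_of_eq_comp (e1.trans e2.symm) _ _ fun x => ?_
    change f x = D (e2.symm (e1 x))
    rw [hD, LinearMap.comp_apply, LinearEquiv.coe_coe, LinearEquiv.apply_symm_apply]
    rfl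
  rw [hl, Ring.ord_eq_of_associated hdet, ord_prod _ _ ha0]

end dvr

section loc
variable {R : Type u} [CommRing R] [IsDomain R] (O : Type u) [CommRing O] [IsDomain O]
  [IsPrincipalIdealRing O] [Algebra R O] [Module.Flat R O]

/-- the length of `O ⊗ T` over `O` -/
noncomputable def lp (T : Type u) [AddCommGroup T] [Module R T] : ℕ∞ :=
  Module.length O (O ⊗[R] T)

omit [IsDomain R] [IsDomain O] [IsPrincipalIdealRing O] [Module.Flat R O] in
theorem lp_congr {T T' : Type u} [AddCommGroup T] [Module R T] [AddCommGroup T'] [Module R T']
    (e : T ≃ₗ[R] T') : lp (R := R) O T = lp (R := R) O T' :=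
  (e.baseChange R O T T').length_eq

omit [IsDomain R] [IsDomain O] [IsPrincipalIdealRing O] in
theorem lp_add {A B C : Type u} [AddCommGroup A] [Module R A] [AddCommGroup B] [Module R B]
    [AddCommGroup C] [Module R C] (f : A →ₗ[R] B) (g : B →ₗ[R] C) (hf : Function.Injective f)
    (hg : Function.Surjective g) (hfg : Function.Exact f g) :
    lp (R := R) O B = lp (R := R) O A + lp (R := R) O C := by
  refine Module.length_eq_add_of_exact (f.baseChange O) (g.baseChange O) ?_ ?_ ?_
  · exact Module.Flat.lTensor_preserves_injective_linearMap (M := O) f hf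
  · exact LinearMap.lTensor_surjective O hg
  · exact lTensor_exact O hfg hg

theorem lp_coker {V : Type u} [AddCommGroup V] [Module R V] [Module.Free R V] [Module.Finite R V]
    (f : V →ₗ[R] V) (hf : Function.Injective f) :
    lp (R := R) O (V ⧸ LinearMap.range f) = Ring.ord O (algebraMap R O (LinearMap.det f)) := by
  let g := (LinearMap.range f).mkQ
  have hfg : Function.Exact f g := fun x => by
    rw [← LinearMap.mem_ker, Submodule.ker_mkQ]; rfl
  have hg : Function.Surjective g := Submodule.mkQ_surjective _
  have h1 : Function.Injective (f.baseChange O) :=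
    Module.Flat.lTensor_preserves_injective_linearMap (M := O) f hf
  have h2 : Function.Surjective (g.baseChange O) := LinearMap.lTensor_surjective O hg
  have h3 : Function.Exact (f.baseChange O) (g.baseChange O) := lTensor_exact O hfg hg
  have h4 : LinearMap.ker (g.baseChange O) = LinearMap.range (f.baseChange O) :=
    LinearMap.exact_iff.1 h3
  have h5 := (LinearMap.quotKerEquivOfSurjective (g.baseChange O) h2).length_eq
  rw [lp, ← h5, h4, length_coker _ h1, LinearMap.det_baseChange]

end loc

end Pool.Agent.PurNrd
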