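import Mathlib

/-! Elementary facts on the projective dimension of modules. -/

namespace Pool.Agent.PurNrd

open CategoryTheory

universe u

section
variable {R : Type u} [CommRing R]

/-- `M` has projective dimension `< n` -/
abbrev PDLT (R : Type u) [CommRing R] (M : Type u) [AddCommGroup M] [Module R M] (n : ℕ) : Prop :=
  HasProjectiveDimensionLT (ModuleCat.of R M) n

theorem pd_one_iff (M : Type u) [AddCommGroup M] [Module R M] :
    PDLT R M 1 ↔ Module.Projective R M := by
  rw [PDLT, ← projective_iff_hasProjectiveDimensionLT_one, IsProjective.iff_projective]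

theorem pd_congr {M N : Type u} [AddCommGroup M] [Module R M] [AddCommGroup N] [Module R N]
    (e : M ≃ₗ[R] N) (n : ℕ) (h : PDLT R M n) : PDLT R N n :=
  hasProjectiveDimensionLT_of_iso (e.toModuleIso) n

theorem pd_mono {M : Type u} [AddCommGroup M] [Module R M] {m n : ℕ} (hmn : m ≤ n)
    (h : PDLT R M m) : PDLT R M n :=
  hasProjectiveDimensionLT_of_ge (ModuleCat.of R M) m n hmn

theorem pd_ker {M N : Type u} [AddCommGroup M] [Module R M] [AddCommGroup N] [Module R N]
    [Module.Projective R M] (g : M →ₗ[R] N) (hg : Function.Surjective g) (n : ℕ)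
    (h : PDLT R N (n + 2)) : PDLT R (LinearMap.ker g) (n + 1) := by
  have hS := LinearMap.shortExact_shortComplexKer hg
  have hp : Projective (ModuleCat.of R M) :=
    (IsProjective.iff_projective M).1 inferInstance
  exact (hS.hasProjectiveDimensionLT_X₃_iff n hp).1 h

theorem pd_quot {M N : Type u} [AddCommGroup M] [Module R M] [AddCommGroup N] [Module R N]
    (g : M →ₗ[R] N) (hg : Function.Surjective g) (n : ℕ)
    (h1 : PDLT R (LinearMap.ker g) n) (h2 : PDLT R M (n + 1)) : PDLT R N (n + 1) :=
  (LinearMap.shortExact_shortComplexKer hg).hasProjectiveDimensionLT_X₃ n h1 h2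

theorem pd_mid {M N : Type u} [AddCommGroup M] [Module R M] [AddCommGroup N] [Module R N]
    (g : M →ₗ[R] N) (hg : Function.Surjective g) (n : ℕ)
    (h1 : PDLT R (LinearMap.ker g) n) (h3 : PDLT R N n) : PDLT R M n :=
  (LinearMap.shortExact_shortComplexKer hg).hasProjectiveDimensionLT_X₂ n h1 h3

end

end Pool.Agent.PurNrd
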