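import Pool.Agent.PurNrd.Lift
import Pool.Agent.PurNrd.Elim
import Pool.Agent.PurNrd.Length
import Pool.Agent.PurNrd.PD

/-! Lattices in `B^k` which are projective over the base ring: their index is the determinant of a
unit of `K ⊗ B`. -/

namespace Pool.Agent.PurNrd

open Module TensorProduct

universe u

section
variable {R : Type u} [CommRing R] {B : Type u} [Ring B] [Algebra R B]
  (K : Type u) [Field K] [Algebra R K]

/-- base change of a `B`-linear endomorphism of `B^k` -/
noncomputable def bc {k : ℕ} (f : (Fin k → B) →ₗ[B] (Fin k → B)) :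
    (Fin k → K ⊗[R] B) →ₗ[K ⊗[R] B] (Fin k → K ⊗[R] B) :=
  Fintype.linearCombination (K ⊗[R] B) (fun i j => (1 : K) ⊗ₜ[R] (f (Pi.single i 1)) j)

theorem det_bc [Module.Free R B] [Module.Finite R B] {k : ℕ}
    (f : (Fin k → B) →ₗ[B] (Fin k → B)) :
    LinearMap.det ((bc (R := R) K f).restrictScalars K) =
      algebraMap R K (LinearMap.det (f.restrictScalars R)) := by
  classical
  let ι : (K ⊗[R] (Fin k → B)) ≃ₗ[K] (Fin k → K ⊗[R] B) :=
    TensorProduct.piRight R K K (fun _ : Fin k => B)
  rw [← LinearMap.det_baseChange, ← LinearMap.det_conj ((f.restrictScalars R).baseChange K) ι]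
  congr 1
  have key : ((bc (R := R) K f).restrictScalars K) ∘ₗ ι.toLinearMap =
      ι.toLinearMap ∘ₗ (f.restrictScalars R).baseChange K := by
    refine TensorProduct.AlgebraTensorModule.ext fun c v => ?_
    funext j
    have hv : f v = ∑ i, v i • f (Pi.single i 1) := by
      have hv1 : v = ∑ i, v i • (Pi.single i (1 : B) : Fin k → B) := by
        ext j
        simp [Finset.sum_apply, Pi.single_apply]
      conv_lhs => rw [hv1]
      rw [map_sum]
      exact Finset.sum_congr rfl fun i _ => map_smul _ _ _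
    simp only [LinearMap.comp_apply, LinearEquiv.coe_coe, LinearMap.baseChange_tmul,
      LinearMap.coe_restrictScalars, ι, TensorProduct.piRight_apply, bc,
      Fintype.linearCombination_apply, TensorProduct.piRightHom_tmul, Finset.sum_apply,
      Pi.smul_apply, smul_eq_mul, Algebra.TensorProduct.tmul_mul_tmul, mul_one]
    rw [hv, ← TensorProduct.tmul_sum]
    simp [Finset.sum_apply]
  refine LinearMap.ext fun x => ?_
  obtain ⟨y, rfl⟩ := ι.surjective x
  have := LinearMap.congr_fun key y
  simpa using this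

end

section base
variable {R : Type u} [CommRing R]

theorem ord_unit_pow {π : R} (O : Type u) [CommRing O] [IsDomain O] [Algebra R O]
    (hO0 : algebraMap R O π ≠ 0) (hO : Ring.ord O (algebraMap R O π) = 1) (w : Rˣ) (t : ℕ) :
    Ring.ord O (algebraMap R O ((w : R) * π ^ t)) = t := by
  rw [map_mul, map_pow, Ring.ord_mul_of_isUnit_left (w.isUnit.map (algebraMap R O)),
    Ring.ord_pow (mem_nonZeroDivisors_of_ne_zero hO0), hO]
  simp

variable [IsDomain R] [IsLocalRing R] [IsNoetherianRing R]
  {B : Type u} [Ring B] [Algebra R B] [IsAzumaya R B]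
  (K : Type u) [Field K] [Algebra R K] [IsFractionRing R K] [CharZero K]
  {π : R} (hπ : Prime π) (O : Type u) [CommRing O] [IsDomain O] [IsPrincipalIdealRing O]
  [Algebra R O] [Module.Flat R O]

/-- multiplication by a central scalar, as a `B`-linear map into a lattice -/
def smulInto {k : ℕ} (r : R) (Λ : Submodule B (Fin k → B)) (hΛ : ∀ v, r • v ∈ Λ) :
    (Fin k → B) →ₗ[B] Λ where
  toFun v := ⟨r • v, hΛ v⟩
  map_add' v w := Subtype.ext (smul_add r v w)
  map_smul' b v := Subtype.ext (smul_comm r b v)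

include hπ in
theorem base_case (hO0 : algebraMap R O π ≠ 0) (hO : Ring.ord O (algebraMap R O π) = 1)
    {k e : ℕ} (Λ : Submodule B (Fin k → B)) (hΛ : ∀ v, (π ^ e) • v ∈ Λ)
    (hp : Module.Projective R Λ) :
    ∃ (y : (K ⊗[R] B)ˣ) (w : Rˣ) (t : ℕ), lp (R := R) O ((Fin k → B) ⧸ Λ) = t ∧
      LinearMap.det (LinearMap.mulRight K (y : K ⊗[R] B)) =
        algebraMap R K ((w : R) * π ^ t) := by
  classical
  have hfB : Module.Free R B := free_of_azumaya
  have hs : IsSimpleRing (K ⊗[R] B) := isSimpleRing_baseChange K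
  have hfin : Module.Finite R Λ :=
    Module.Finite.of_injective (Λ.subtype.restrictScalars R) Λ.injective_subtype
  have hfree : Module.Free R Λ := Module.free_of_flat_of_isLocalRing
  let p' := smulInto (π ^ e) Λ hΛ
  have hp' : Function.Injective p' := by
    rw [injective_iff_map_eq_zero]
    intro v hv
    have h1 : (π ^ e) • v = 0 := congrArg Subtype.val hv
    exact (smul_eq_zero.1 h1).resolve_left (pow_ne_zero _ hπ.ne_zero)
  have hrk : finrank R Λ = k * finrank R B := by
    have h1 : finrank R Λ ≤ finrank R (Fin k → B) :=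
      LinearMap.finrank_le_finrank_of_injective (f := Λ.subtype.restrictScalars R)
        Λ.injective_subtype
    have h2 : finrank R (Fin k → B) ≤ finrank R Λ :=
      LinearMap.finrank_le_finrank_of_injective (f := p'.restrictScalars R) hp'
    rw [le_antisymm h1 h2, Module.finrank_pi_fintype]
    simp
  obtain ⟨h⟩ := free_of_rank Λ k hrk
  let f : (Fin k → B) →ₗ[B] (Fin k → B) := Λ.subtype ∘ₗ h.toLinearMap
  have hfinj : Function.Injective f := Λ.injective_subtype.comp h.injective
  have hfr : LinearMap.range (f.restrictScalars R) = Λ.restrictScalars R := by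
    ext x
    constructor
    · rintro ⟨y, rfl⟩
      exact (h y).2
    · intro hx
      obtain ⟨y, hy⟩ := h.surjective ⟨x, hx⟩
      exact ⟨y, congrArg Subtype.val hy⟩
  let f' : (Fin k → B) →ₗ[B] (Fin k → B) := h.symm.toLinearMap ∘ₗ p'
  have hff' : (f.restrictScalars R) ∘ₗ (f'.restrictScalars R) =
      (π ^ e) • (LinearMap.id : (Fin k → B) →ₗ[R] (Fin k → B)) := by
    refine LinearMap.ext fun v => ?_
    change ((h (h.symm (p' v)) : Λ) : Fin k → B) = _
    rw [LinearEquiv.apply_symm_apply]
    rfl
  have hdd : LinearMap.det (f.restrictScalars R) * LinearMap.det (f'.restrictScalars R) =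
      π ^ (e * finrank R (Fin k → B)) := by
    rw [← LinearMap.det_comp, hff', LinearMap.det_smul, LinearMap.det_id, mul_one, pow_mul]
  obtain ⟨t, -, ht⟩ := (dvd_prime_pow hπ _).1 (Dvd.intro _ hdd)
  obtain ⟨w', hw'⟩ := ht
  -- `det f * w' = π ^ t`
  have hdf : LinearMap.det (f.restrictScalars R) = ((w'⁻¹ : Rˣ) : R) * π ^ t := by
    rw [← hw', mul_comm, mul_assoc, Units.mul_inv, mul_one]
  have hdK : LinearMap.det ((bc (R := R) K f).restrictScalars K) =
      algebraMap R K (((w'⁻¹ : Rˣ) : R) * π ^ t) := by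
    rw [det_bc, hdf]
  have hne : algebraMap R K (((w'⁻¹ : Rˣ) : R) * π ^ t) ≠ 0 := by
    rw [Ne, FaithfulSMul.algebraMap_eq_zero_iff]
    exact mul_ne_zero (Units.ne_zero _) (pow_ne_zero _ hπ.ne_zero)
  have hbij : Function.Bijective (bc (R := R) K f) := by
    have := LinearMap.equivOfDetNeZero ((bc (R := R) K f).restrictScalars K) (by
      rw [hdK]; exact hne)
    exact (LinearMap.equivOfDetNeZero ((bc (R := R) K f).restrictScalars K) (by
      rw [hdK]; exact hne)).bijective
  obtain ⟨y, hy⟩ := elim (K := K) k (LinearEquiv.ofBijective (bc (R := R) K f) hbij)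
  refine ⟨y, w'⁻¹, t, ?_, ?_⟩
  · have h1 : lp (R := R) O ((Fin k → B) ⧸ Λ) =
        lp (R := R) O ((Fin k → B) ⧸ LinearMap.range (f.restrictScalars R)) := by
      rw [hfr]
      rfl
    rw [h1, lp_coker O _ hfinj, hdf, ord_unit_pow O hO0 hO]
  · rw [← hy, ← hdK]
    rfl

end base

end Pool.Agent.PurNrd
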