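import Pool.Agent.PurNrd.Val

/-! An abstract gluing argument over a unique factorisation domain. -/

namespace Pool.Agent.PurNrd

universe u

section
variable {R : Type u} [CommRing R] [IsDomain R] [UniqueFactorizationMonoid R]
  {K : Type u} [Field K] [Algebra R K] [IsFractionRing R K]

theorem glue_aux {r m : ℕ} (G : Fin m → Type u) [∀ j, Group (G j)] (N : ∀ j, G j →* Kˣ)
    (l : Fin m → Fin r → ℤ)
    (hN : ∀ (j : Fin m) (g : G j) (π : R), Prime π → ∃ y : G j,
      vl π (N j y : K) = vl π (N j g : K) ∧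
      ∀ π' : R, Prime π' → ¬ Associated π π' → vl π' (N j y : K) = 0)
    (S : List R) : ∀ (c : Fin r → Kˣ)
    (_ : ∀ π : R, Prime π → (∃ i, vl π (c i : K) ≠ 0) → ∃ q ∈ S, Associated q π)
    (_ : ∀ π : R, Prime π → ∃ g : ∀ j, G j, ∀ i,
      vl π (c i : K) = ∑ j, l j i * vl π (N j (g j) : K)),
    ∃ (a : Fin r → Rˣ) (g : ∀ j, G j), ∀ i,
      c i = Units.map (algebraMap R K).toMonoidHom (a i) * ∏ j, (N j (g j)) ^ (l j i) := by
  induction S with
  | nil =>
    intro c hS _
    have h0 : ∀ i, ∀ π : R, Prime π → vl π (c i : K) = 0 := by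
      intro i π hπ
      by_contra hne
      obtain ⟨q, hq, -⟩ := hS π hπ ⟨i, hne⟩
      exact absurd hq List.not_mem_nil
    choose a ha using fun i => isUnit_of_vl (c i) (h0 i)
    refine ⟨a, fun j => 1, fun i => ?_⟩
    have h1 : ∏ j, (N j (1 : G j)) ^ (l j i) = 1 := by
      refine Finset.prod_eq_one fun j _ => ?_
      rw [map_one, one_zpow]
    rw [h1, mul_one]
    exact Units.ext (ha i)
  | cons q S ih =>
    intro c hS hloc
    by_cases hq : Prime q
    · obtain ⟨g, hg⟩ := hloc q hq
      choose y hy1 hy2 using fun j => hN j (g j) q hq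
      set c' : Fin r → Kˣ := fun i => c i * (∏ j, (N j (y j)) ^ (l j i))⁻¹ with hc'
      have hv : ∀ π : R, Prime π → ∀ i, vl π (c' i : K) =
          vl π (c i : K) - ∑ j, l j i * vl π (N j (y j) : K) := by
        intro π hπ i
        rw [hc', Units.val_mul, vl_mul hπ (Units.ne_zero _) (Units.ne_zero _), vl_inv hπ,
          vl_prod hπ, sub_eq_add_neg]
        congr 2
        exact Finset.sum_congr rfl fun j _ => vl_zpow hπ _ _
      have hv1 : ∀ π : R, Prime π → ¬ Associated q π → ∀ i, vl π (c' i : K) = vl π (c i : K) := by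
        intro π hπ hna i
        rw [hv π hπ i, Finset.sum_eq_zero, sub_zero]
        intro j _
        rw [hy2 j π hπ hna, mul_zero]
      have hv2 : ∀ π : R, Prime π → Associated q π → ∀ i, vl π (c' i : K) = 0 := by
        intro π hπ has i
        rw [← vl_congr has, hv q hq i, hg i, sub_eq_zero]
        exact Finset.sum_congr rfl fun j _ => by rw [hy1 j]
      obtain ⟨a, g', hg'⟩ := ih c' (by
          rintro π hπ ⟨i, hi⟩
          have hna : ¬ Associated q π := fun has => hi (hv2 π hπ has i)
          rw [hv1 π hπ hna i] at hi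
          obtain ⟨q', hq', h2⟩ := hS π hπ ⟨i, hi⟩
          rcases List.mem_cons.1 hq' with h3 | h3
          · exact absurd (h3 ▸ h2) hna
          · exact ⟨q', h3, h2⟩) (by
          intro π hπ
          by_cases has : Associated q π
          · refine ⟨fun j => 1, fun i => ?_⟩
            rw [hv2 π hπ has i]
            refine (Finset.sum_eq_zero fun j _ => ?_).symm
            rw [map_one]
            have h1 := vl_unit (K := K) hπ (1 : Rˣ)
            rw [Units.val_one, map_one] at h1
            rw [Units.val_one, h1, mul_zero]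
          · obtain ⟨g2, hg2⟩ := hloc π hπ
            exact ⟨g2, fun i => by rw [hv1 π hπ has i, hg2 i]⟩)
      refine ⟨a, fun j => g' j * y j, fun i => ?_⟩
      have h1 : c i = c' i * ∏ j, (N j (y j)) ^ (l j i) := by
        rw [hc']
        simp
      rw [h1, hg' i, mul_assoc, ← Finset.prod_mul_distrib]
      congr 1
      refine Finset.prod_congr rfl fun j _ => ?_
      rw [map_mul, mul_zpow]
    · refine ih c ?_ hloc
      intro π hπ hi
      obtain ⟨q', hq', h2⟩ := hS π hπ hi
      rcases List.mem_cons.1 hq' with h3 | h3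
      · subst h3
        exact absurd (h2.symm.prime hπ) hq
      · exact ⟨q', h3, h2⟩

theorem glue {r m : ℕ} (G : Fin m → Type u) [∀ j, Group (G j)] (N : ∀ j, G j →* Kˣ)
    (l : Fin m → Fin r → ℤ)
    (hN : ∀ (j : Fin m) (g : G j) (π : R), Prime π → ∃ y : G j,
      vl π (N j y : K) = vl π (N j g : K) ∧
      ∀ π' : R, Prime π' → ¬ Associated π π' → vl π' (N j y : K) = 0)
    (c : Fin r → Kˣ)
    (hloc : ∀ π : R, Prime π → ∃ g : ∀ j, G j, ∀ i,
      vl π (c i : K) = ∑ j, l j i * vl π (N j (g j) : K)) :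
    ∃ (a : Fin r → Rˣ) (g : ∀ j, G j), ∀ i,
      c i = Units.map (algebraMap R K).toMonoidHom (a i) * ∏ j, (N j (g j)) ^ (l j i) := by
  classical
  choose D hD0 hD using fun i => finite_support (R := R) (c i)
  have hP0 : ∏ i, D i ≠ 0 := Finset.prod_ne_zero_iff.2 fun i _ => hD0 i
  refine glue_aux G N l hN (UniqueFactorizationMonoid.factors (∏ i, D i)).toList c ?_ hloc
  rintro π hπ ⟨i, hi⟩
  have h1 : π ∣ ∏ i, D i := (hD i π hπ hi).trans (Finset.dvd_prod_of_mem D (Finset.mem_univ i))
  obtain ⟨q, hq, hqπ⟩ := UniqueFactorizationMonoid.exists_mem_factors_of_dvd hP0 hπ.irreducible h1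
  exact ⟨q, Multiset.mem_toList.2 hq, hqπ.symm⟩

end

end Pool.Agent.PurNrd
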