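import Pool.Agent.PurNrd.Surj
import Pool.Agent.PurNrd.PD

/-! The ranks of lattices over an Azumaya algebra over a local ring with finite projective
dimensions. -/

namespace Pool.Agent.PurNrd

open Module TensorProduct

universe u

/-- `a` is the rank of a lattice over `B` -/
def IsRk (R B : Type u) [CommRing R] [Ring B] [Algebra R B] (a : ℕ) : Prop :=
  ∃ (L : Type u) (_ : AddCommGroup L) (_ : Module R L) (_ : Module B L)
    (_ : IsScalarTower R B L) (_ : Module.Free R L) (_ : Module.Finite R L), finrank R L = a

section
variable {R : Type u} [CommRing R] [IsDomain R] [IsLocalRing R] {B : Type u} [Ring B]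
  [Algebra R B] [IsAzumaya R B]

omit [IsDomain R] [IsLocalRing R] [IsAzumaya R B] in
theorem rk_mul [Nontrivial R] {a : ℕ} (h : IsRk R B a) (k : ℕ) : IsRk R B (k * a) := by
  obtain ⟨L, _, _, _, _, _, _, h⟩ := h
  refine ⟨Fin k → L, inferInstance, inferInstance, inferInstance, inferInstance, inferInstance,
    inferInstance, ?_⟩
  rw [Module.finrank_pi_fintype]
  simp [h]

omit [IsDomain R] in
theorem rk_self : IsRk R B (finrank R B) :=
  ⟨B, inferInstance, inferInstance, inferInstance, inferInstance, free_of_azumaya,
    inferInstance, rfl⟩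

theorem rk_sub {a b : ℕ} (ha : IsRk R B a) (hb : IsRk R B b) (hab : a ≤ b) :
    IsRk R B (b - a) := by
  obtain ⟨L', _, _, _, _, _, _, h'⟩ := ha
  obtain ⟨L, _, _, _, _, _, _, h⟩ := hb
  obtain ⟨f, hf⟩ := exists_surj (R := R) (B := B) L L' (by rw [h', h]; exact hab)
  obtain ⟨g, hg⟩ := Module.projective_lifting_property (f.restrictScalars R)
    (LinearMap.id : L' →ₗ[R] L') hf
  have hg' : ∀ x, f (g x) = x := fun x => LinearMap.congr_fun hg x
  -- the kernel is a direct summand over `R`
  let s : L →ₗ[R] LinearMap.ker f :=
    LinearMap.codRestrict ((LinearMap.ker f).restrictScalars R)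
      (LinearMap.id - g ∘ₗ f.restrictScalars R) (fun x => by
        change f (x - g (f x)) = 0
        rw [map_sub, hg', sub_self])
  have hs : s ∘ₗ ((LinearMap.ker f).subtype.restrictScalars R) = LinearMap.id := by
    refine LinearMap.ext fun x => Subtype.ext ?_
    change (x : L) - g (f (x : L)) = x
    have : f (x : L) = 0 := x.2
    rw [this, map_zero, sub_zero]
  have hproj : Module.Projective R (LinearMap.ker f) := Module.Projective.of_split _ _ hs
  have hfin : Module.Finite R (LinearMap.ker f) :=
    Module.Finite.of_surjective s (fun x => ⟨x, LinearMap.congr_fun hs x⟩)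
  have hfree : Module.Free R (LinearMap.ker f) := Module.free_of_flat_of_isLocalRing
  refine ⟨LinearMap.ker f, inferInstance, inferInstance, inferInstance, inferInstance, hfree,
    hfin, ?_⟩
  have h1 := Submodule.finrank_quotient_add_finrank (LinearMap.ker (f.restrictScalars R))
  have h2 : finrank R (L ⧸ LinearMap.ker (f.restrictScalars R)) = finrank R L' :=
    ((f.restrictScalars R).quotKerEquivOfSurjective hf).finrank_eq
  rw [h2, h, h'] at h1
  have h3 : finrank R (LinearMap.ker (f.restrictScalars R)) = finrank R (LinearMap.ker f) := rfl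
  omega

/-- the minimal rank divides all ranks -/
theorem exists_min : ∃ g : ℕ, 0 < g ∧ IsRk R B g ∧ ∀ a, IsRk R B a → g ∣ a := by
  classical
  have hex : ∃ g : ℕ, 0 < g ∧ IsRk R B g := ⟨finrank R B, finrank_pos_of_azumaya R B, rk_self⟩
  refine ⟨Nat.find hex, (Nat.find_spec hex).1, (Nat.find_spec hex).2, fun a => ?_⟩
  induction a using Nat.strong_induction_on with
  | _ a ih =>
    intro ha
    by_cases h0 : a = 0
    · subst h0
      exact dvd_zero _
    · have hle : Nat.find hex ≤ a := Nat.find_min' hex ⟨Nat.pos_of_ne_zero h0, ha⟩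
      have h1 := ih (a - Nat.find hex) (by have := (Nat.find_spec hex).1; omega)
        (rk_sub (Nat.find_spec hex).2 ha hle)
      have h2 := Nat.dvd_add h1 (dvd_refl (Nat.find hex))
      rwa [Nat.sub_add_cancel hle] at h2

theorem dvd_finrank [IsNoetherianRing R] {g : ℕ} (hg : ∀ a, IsRk R B a → g ∣ a) (n : ℕ) :
    ∀ (M : Type u) [AddCommGroup M] [Module R M] [Module B M] [IsScalarTower R B M]
      [Module.Finite R M] (_ : PDLT R M (n + 1)), g ∣ finrank R M := by
  have hfB : Module.Free R B := free_of_azumaya
  induction n with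
  | zero =>
    intro M _ _ _ _ _ h
    rw [zero_add, pd_one_iff] at h
    exact hg _ ⟨M, inferInstance, inferInstance, inferInstance, inferInstance,
      Module.free_of_flat_of_isLocalRing, inferInstance, rfl⟩
  | succ n ih =>
    intro M _ _ _ _ _ h
    have hfin : Module.Finite B M := Module.Finite.of_restrictScalars_finite R B M
    obtain ⟨k, f, hf⟩ := Module.Finite.exists_fin' B M
    have h1 : PDLT R (LinearMap.ker f) (n + 1) := pd_ker (f.restrictScalars R) hf n h
    have hfin' : Module.Finite R (LinearMap.ker f) :=
      Module.Finite.of_injective ((LinearMap.ker f).subtype.restrictScalars R)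
        (LinearMap.ker f).injective_subtype
    have h2 := ih (LinearMap.ker f) h1
    have h3 := Submodule.finrank_quotient_add_finrank (LinearMap.ker (f.restrictScalars R))
    have h4 : finrank R ((Fin k → B) ⧸ LinearMap.ker (f.restrictScalars R)) = finrank R M :=
      ((f.restrictScalars R).quotKerEquivOfSurjective hf).finrank_eq
    have h5 : finrank R (LinearMap.ker (f.restrictScalars R)) = finrank R (LinearMap.ker f) := rfl
    rw [h4, h5] at h3
    have h6 : g ∣ finrank R (Fin k → B) := by
      rw [Module.finrank_pi_fintype]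
      simp only [Finset.sum_const, Finset.card_univ, Fintype.card_fin, smul_eq_mul]
      exact Dvd.dvd.mul_left (hg _ rk_self) k
    rw [← h3] at h6
    exact (Nat.dvd_add_left h2).1 h6

theorem rk_of_finite [IsNoetherianRing R]
    (hpd : ∀ (M : Type u) [AddCommGroup M] [Module R M] [Module.Finite R M], ∃ n, PDLT R M n)
    (M : Type u) [AddCommGroup M] [Module R M] [Module B M] [IsScalarTower R B M]
    [Module.Finite R M] : IsRk R B (finrank R M) := by
  obtain ⟨g, hg0, hg1, hg2⟩ := exists_min (R := R) (B := B)
  obtain ⟨n, hn⟩ := hpd M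
  obtain ⟨k, hk⟩ := dvd_finrank hg2 n M (pd_mono (Nat.le_succ n) hn)
  rw [hk, mul_comm]
  exact rk_mul hg1 k

end

end Pool.Agent.PurNrd
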