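import Pool.Agent.PurNrd.Sat

/-! The local step: every unit of `K ⊗ B` may be replaced by one whose determinant has the same
valuation at a given prime and is a unit at all others. -/

namespace Pool.Agent.PurNrd

open Module TensorProduct

universe u

section
variable {K : Type u} [Field K] {S : Type u} [Ring S] [Algebra K S]

/-- the determinant of right multiplication, on units -/
noncomputable def DK (K : Type u) [Field K] (S : Type u) [Ring S] [Algebra K S] : Sˣ →* Kˣ :=
  Units.map
    { toFun := fun s => LinearMap.det (LinearMap.mulRight K s)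
      map_one' := by
        have : LinearMap.mulRight K (1 : S) = LinearMap.id := by ext; simp
        rw [this, LinearMap.det_id]
      map_mul' := fun u v => by
        have : LinearMap.mulRight K (u * v) =
            LinearMap.mulRight K v ∘ₗ LinearMap.mulRight K u := by
          ext x; simp [mul_assoc]
        rw [this, LinearMap.det_comp, mul_comm] }

theorem DK_val (s : Sˣ) : ((DK K S s : Kˣ) : K) = LinearMap.det (LinearMap.mulRight K (s : S)) :=
  rfl

end

section
variable {R : Type u} [CommRing R] [IsDomain R] {B : Type u} [Ring B] [Algebra R B]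
  (K : Type u) [Field K] [Algebra R K] [IsFractionRing R K]

theorem exists_lift (x : K ⊗[R] B) : ∃ (s : R) (b : B), s ≠ 0 ∧ s • x = (1 : K) ⊗ₜ[R] b := by
  induction x using TensorProduct.induction_on with
  | zero => exact ⟨1, 0, one_ne_zero, by simp⟩
  | tmul c b =>
    obtain ⟨a, s, hs, h⟩ := IsFractionRing.div_surjective (A := R) c
    have hs0 : s ≠ 0 := nonZeroDivisors.ne_zero hs
    have hsK : algebraMap R K s ≠ 0 := by
      rw [Ne, FaithfulSMul.algebraMap_eq_zero_iff]; exact hs0
    refine ⟨s, a • b, hs0, ?_⟩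
    have h1 : s • c = a • (1 : K) := by
      rw [Algebra.smul_def, Algebra.smul_def, mul_one, ← h]
      field_simp
    rw [TensorProduct.smul_tmul', h1, TensorProduct.smul_tmul]
  | add x y hx hy =>
    obtain ⟨s, b, hs, hb⟩ := hx
    obtain ⟨s', b', hs', hb'⟩ := hy
    refine ⟨s * s', s' • b + s • b', mul_ne_zero hs hs', ?_⟩
    rw [TensorProduct.tmul_add, TensorProduct.tmul_smul, TensorProduct.tmul_smul, ← hb, ← hb',
      smul_add, smul_smul, smul_smul, mul_comm s' s]

end

section
variable {R : Type u} [CommRing R] [IsDomain R] [IsLocalRing R] [IsNoetherianRing R]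
  [UniqueFactorizationMonoid R]
  {B : Type u} [Ring B] [Algebra R B] [IsAzumaya R B]
  (K : Type u) [Field K] [Algebra R K] [IsFractionRing R K] [CharZero K]

theorem det_step (hpd : ∀ (M : Type u) [AddCommGroup M] [Module R M] [Module.Finite R M],
      ∃ n, PDLT R M n) {π : R} (hπ : Prime π) (b : B)
    (hb : LinearMap.det (LinearMap.mulRight R b) ≠ 0) :
    ∃ (y : (K ⊗[R] B)ˣ), vl π (DK K (K ⊗[R] B) y : K) =
        multiplicity π (LinearMap.det (LinearMap.mulRight R b)) ∧
      ∀ π' : R, Prime π' → ¬ Associated π π' → vl π' (DK K (K ⊗[R] B) y : K) = 0 := by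
  obtain ⟨d, hd, hnd⟩ := FiniteMultiplicity.exists_eq_pow_mul_and_not_dvd
    (FiniteMultiplicity.of_prime_left hπ hb)
  let e : (Fin 1 → B) ≃ₗ[B] B := LinearEquiv.funUnique (Fin 1) B B
  let f : (Fin 1 → B) →ₗ[B] (Fin 1 → B) :=
    e.symm.toLinearMap ∘ₗ LinearMap.toSpanSingleton B B b ∘ₗ e.toLinearMap
  have hf : LinearMap.det (f.restrictScalars R) = LinearMap.det (LinearMap.mulRight R b) := by
    have h1 := LinearMap.det_conj (LinearMap.mulRight R b) (e.symm.restrictScalars R)
    rw [← h1]
    rfl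
  obtain ⟨y, w, hy⟩ := sat_step K hπ hpd f _ d hnd (hf.trans hd)
  have hw0 : ((w : R) * π ^ multiplicity π (LinearMap.det (LinearMap.mulRight R b))) ≠ 0 :=
    mul_ne_zero (Units.ne_zero w) (pow_ne_zero _ hπ.ne_zero)
  refine ⟨y, ?_, fun π' hπ' hna => ?_⟩
  · rw [DK_val, hy, vl_algebraMap hπ hw0]
    have h2 : multiplicity π ((w : R) * π ^ multiplicity π
        (LinearMap.det (LinearMap.mulRight R b))) =
        multiplicity π (LinearMap.det (LinearMap.mulRight R b)) := by
      rw [multiplicity_mul hπ (FiniteMultiplicity.of_prime_left hπ hw0),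
        multiplicity_pow_self hπ.ne_zero hπ.not_isUnit, multiplicity_eq_zero.2, zero_add]
      intro h
      exact hπ.not_isUnit (isUnit_of_dvd_unit h w.isUnit)
    rw [h2]
  · rw [DK_val, hy, vl_algebraMap hπ' hw0, multiplicity_eq_zero.2, Nat.cast_zero]
    intro h
    rcases hπ'.dvd_or_dvd h with h1 | h1
    · exact hπ'.not_isUnit (isUnit_of_dvd_unit h1 w.isUnit)
    · exact hna (hπ'.associated_of_dvd hπ (hπ'.dvd_of_dvd_pow h1)).symm

theorem local_step (hpd : ∀ (M : Type u) [AddCommGroup M] [Module R M] [Module.Finite R M],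
      ∃ n, PDLT R M n) {π : R} (hπ : Prime π) (g : (K ⊗[R] B)ˣ) :
    ∃ (y : (K ⊗[R] B)ˣ), vl π (DK K (K ⊗[R] B) y : K) = vl π (DK K (K ⊗[R] B) g : K) ∧
      ∀ π' : R, Prime π' → ¬ Associated π π' → vl π' (DK K (K ⊗[R] B) y : K) = 0 := by
  have hfB : Module.Free R B := free_of_azumaya
  obtain ⟨s, b, hs, hb⟩ := exists_lift (R := R) (B := B) K (g : K ⊗[R] B)
  have hsK : algebraMap R K s ≠ 0 := by
    rw [Ne, FaithfulSMul.algebraMap_eq_zero_iff]; exact hs
  have hπK : algebraMap R K π ≠ 0 := by
    rw [Ne, FaithfulSMul.algebraMap_eq_zero_iff]; exact hπ.ne_zero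
  have hbc : (LinearMap.mulRight R b).baseChange K =
      LinearMap.mulRight K ((1 : K) ⊗ₜ[R] b) := by
    ext x
    simp
  have hdet1 : algebraMap R K (LinearMap.det (LinearMap.mulRight R b)) =
      (algebraMap R K s) ^ finrank R B * (DK K (K ⊗[R] B) g : K) := by
    rw [← LinearMap.det_baseChange, hbc, ← hb, DK_val]
    have h1 : LinearMap.mulRight K (s • (g : K ⊗[R] B)) =
        (algebraMap R K s) • LinearMap.mulRight K (g : K ⊗[R] B) := by
      refine LinearMap.ext fun x => ?_
      rw [LinearMap.mulRight_apply, LinearMap.smul_apply, LinearMap.mulRight_apply,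
        algebraMap_smul, mul_smul_comm]
    rw [h1, LinearMap.det_smul, Module.finrank_baseChange]
  have hdet0 : LinearMap.det (LinearMap.mulRight R b) ≠ 0 := by
    intro h0
    rw [h0, map_zero] at hdet1
    exact mul_ne_zero (pow_ne_zero _ hsK) (Units.ne_zero _) hdet1.symm
  obtain ⟨y, hy1, hy2⟩ := det_step K hpd hπ b hdet0
  -- correct by a power of `π`
  let z : (K ⊗[R] B)ˣ := Units.map (algebraMap K (K ⊗[R] B)).toMonoidHom
    (Units.mk0 ((algebraMap R K π) ^ multiplicity π s) (pow_ne_zero _ hπK))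
  have hz : (DK K (K ⊗[R] B) z : K) = algebraMap R K (π ^ (multiplicity π s * finrank R B)) := by
    rw [DK_val]
    have h1 := det_scalar (R := R) (B := B) K ((algebraMap R K π) ^ multiplicity π s)
    rw [map_pow, pow_mul]
    exact h1
  have hvz : vl π (DK K (K ⊗[R] B) z : K) = multiplicity π s * finrank R B := by
    rw [hz, vl_algebraMap hπ (pow_ne_zero _ hπ.ne_zero),
      multiplicity_pow_self hπ.ne_zero hπ.not_isUnit]
    push_cast
    rfl
  have hvz' : ∀ π' : R, Prime π' → ¬ Associated π π' → vl π' (DK K (K ⊗[R] B) z : K) = 0 := by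
    intro π' hπ' hna
    rw [hz, vl_algebraMap hπ' (pow_ne_zero _ hπ.ne_zero), multiplicity_eq_zero.2, Nat.cast_zero]
    intro h
    exact hna (hπ'.associated_of_dvd hπ (hπ'.dvd_of_dvd_pow h)).symm
  have hmul : ∀ π' : R, Prime π' → vl π' (DK K (K ⊗[R] B) (y * z⁻¹) : K) =
      vl π' (DK K (K ⊗[R] B) y : K) - vl π' (DK K (K ⊗[R] B) z : K) := by
    intro π' hπ'
    rw [map_mul, map_inv, Units.val_mul, vl_mul hπ' (Units.ne_zero _) (Units.ne_zero _),
      vl_inv hπ', sub_eq_add_neg]
  refine ⟨y * z⁻¹, ?_, fun π' hπ' hna => ?_⟩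
  · rw [hmul π hπ, hy1, hvz]
    have h1 : vl π (algebraMap R K (LinearMap.det (LinearMap.mulRight R b))) =
        vl π (algebraMap R K s ^ finrank R B) + vl π (DK K (K ⊗[R] B) g : K) := by
      rw [hdet1, vl_mul hπ (pow_ne_zero _ hsK) (Units.ne_zero _)]
    rw [vl_algebraMap hπ hdet0] at h1
    have h2 : vl π (algebraMap R K s ^ finrank R B) = finrank R B * multiplicity π s := by
      have := vl_pow hπ (Units.mk0 _ hsK) (finrank R B)
      rw [Units.val_pow_eq_pow_val, Units.val_mk0, vl_algebraMap hπ hs] at this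
      exact this
    rw [h2] at h1
    rw [h1]
    ring
  · rw [hmul π' hπ', hy2 π' hπ' hna, hvz' π' hπ' hna, sub_zero]

end

end Pool.Agent.PurNrd
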