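import Pool.Agent.PurNrd.Conj
import Pool.Agent.PurNrd.Index
import Pool.Agent.PurNrd.LocalStep

/-! Idempotents of `K ⊗ B` are conjugate to idempotents of `B`. -/

namespace Pool.Agent.PurNrd

open Module TensorProduct

universe u

section
variable {R : Type u} [CommRing R] [IsDomain R] {B : Type u} [Ring B] [Algebra R B]
  (K : Type u) [Field K] [Algebra R K] [IsFractionRing R K]

/-- the left ideal of `B` contracted from the left ideal generated by `e` -/
def contr (e : K ⊗[R] B) : Submodule B B where
  carrier := {x | ((1 : K) ⊗ₜ[R] x) * e = (1 : K) ⊗ₜ[R] x}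
  zero_mem' := by simp
  add_mem' := by
    intro x y hx hy
    change ((1 : K) ⊗ₜ[R] (x + y)) * e = (1 : K) ⊗ₜ[R] (x + y)
    rw [TensorProduct.tmul_add, add_mul]
    exact congrArg₂ (· + ·) hx hy
  smul_mem' := by
    intro b x hx
    change ((1 : K) ⊗ₜ[R] (b * x)) * e = (1 : K) ⊗ₜ[R] (b * x)
    have h : (1 : K) ⊗ₜ[R] (b * x) = ((1 : K) ⊗ₜ[R] b) * ((1 : K) ⊗ₜ[R] x) := by
      rw [Algebra.TensorProduct.tmul_mul_tmul, one_mul]
    rw [h, mul_assoc]
    exact congrArg _ hx

/-- the localisation map from the contraction -/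
def contrMap {e : K ⊗[R] B} (he : e * e = e) : contr K e →ₗ[R] lid e where
  toFun x := ⟨(1 : K) ⊗ₜ[R] (x : B), (mem_lid he).2 x.2⟩
  map_add' x y := Subtype.ext (TensorProduct.tmul_add _ _ _)
  map_smul' r x := Subtype.ext (TensorProduct.tmul_smul _ _ _)

theorem isLocalizedModule_contr [Module.Flat R B] {e : K ⊗[R] B} (he : e * e = e) :
    IsLocalizedModule (nonZeroDivisors R) (contrMap K he) where
  map_units x := by
    have hx : algebraMap R K (x : R) ≠ 0 := by
      rw [Ne, FaithfulSMul.algebraMap_eq_zero_iff]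
      exact nonZeroDivisors.ne_zero x.2
    rw [Module.End.isUnit_iff]
    constructor
    · intro a b hab
      have h1 : (x : R) • a = (x : R) • b := hab
      have h2 : algebraMap R K (x : R) • a = algebraMap R K (x : R) • b := by
        rw [algebraMap_smul, algebraMap_smul]
        exact h1
      exact smul_right_injective _ hx h2
    · intro b
      refine ⟨(algebraMap R K (x : R))⁻¹ • b, ?_⟩
      change (x : R) • ((algebraMap R K (x : R))⁻¹ • b) = b
      rw [← algebraMap_smul K (x : R), smul_smul, mul_inv_cancel₀ hx, one_smul]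
  surj y := by
    obtain ⟨s, b, hs, hb⟩ := exists_lift (R := R) (B := B) K (y : K ⊗[R] B)
    have hmem : b ∈ contr K e := by
      change ((1 : K) ⊗ₜ[R] b) * e = (1 : K) ⊗ₜ[R] b
      rw [← hb, smul_mul_assoc, (mem_lid he).1 y.2]
    exact ⟨(⟨b, hmem⟩, ⟨s, mem_nonZeroDivisors_of_ne_zero hs⟩), Subtype.ext hb⟩
  exists_of_eq := by
    intro x y hxy
    refine ⟨1, ?_⟩
    rw [one_smul, one_smul]
    have h1 : (1 : K) ⊗ₜ[R] (x : B) = (1 : K) ⊗ₜ[R] (y : B) := congrArg Subtype.val hxy
    have hinj : Function.Injective (Algebra.TensorProduct.includeRight : B →ₐ[R] K ⊗[R] B) :=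
      Algebra.TensorProduct.includeRight_injective (IsFractionRing.injective R K)
    exact Subtype.ext (hinj h1)

end

section
variable {R : Type u} [CommRing R] [IsDomain R] [IsLocalRing R] [IsNoetherianRing R]
  {B : Type u} [Ring B] [Algebra R B] [IsAzumaya R B]
  (K : Type u) [Field K] [Algebra R K] [IsFractionRing R K]

theorem exists_idem
    (hpd : ∀ (M : Type u) [AddCommGroup M] [Module R M] [Module.Finite R M], ∃ n, PDLT R M n)
    (e' : K ⊗[R] B) (he' : e' * e' = e') :
    ∃ (e : B) (u : (K ⊗[R] B)ˣ), e * e = e ∧ ((1 : K) ⊗ₜ[R] e) * u = u * e' := by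
  have hfB : Module.Free R B := free_of_azumaya
  have hs : IsSimpleRing (K ⊗[R] B) := isSimpleRing_baseChange K
  have hloc := isLocalizedModule_contr K he'
  have hfin : Module.Finite R (contr K e') :=
    Module.Finite.of_injective ((contr K e').subtype.restrictScalars R)
      (contr K e').injective_subtype
  obtain ⟨L, _, _, _, _, _, _, hL⟩ := rk_of_finite (B := B) hpd (contr K e')
  have h1 : finrank R (lid e') = finrank R (contr K e') :=
    IsLocalizedModule.finrank_eq (nonZeroDivisors R) (contrMap K he') le_rfl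
  have h2 : finrank K (lid e') = finrank R (lid e') :=
    IsLocalization.finrank_eq K (nonZeroDivisors R) le_rfl
  have h3 : finrank K (lid e') ≤ finrank K (K ⊗[R] B) := by
    have := finrank_lid_add (F := K) he'
    omega
  rw [Module.finrank_baseChange] at h3
  obtain ⟨π, hπ⟩ := exists_surj (R := R) (B := B) B L (by omega)
  have hproj : Module.Projective B L := projective_of_free (R := R) L
  obtain ⟨σ, hσ⟩ := Module.projective_lifting_property π LinearMap.id hπ
  have hσ' : ∀ x, π (σ x) = x := fun x => LinearMap.congr_fun hσ x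
  set e : B := σ (π 1) with he
  have hmul : ∀ x : B, σ (π x) = x * e := by
    intro x
    have hx : x = x • (1 : B) := by rw [smul_eq_mul, mul_one]
    conv_lhs => rw [hx, map_smul, map_smul]
    rfl
  have hee : e * e = e := by
    rw [← hmul e, he, hσ']
  have hE : ((1 : K) ⊗ₜ[R] e) * ((1 : K) ⊗ₜ[R] e) = (1 : K) ⊗ₜ[R] e := by
    rw [Algebra.TensorProduct.tmul_mul_tmul, one_mul, hee]
  -- the dimension of the left ideal generated by `1 ⊗ e`
  have hdim : finrank K (lid ((1 : K) ⊗ₜ[R] e)) = finrank R L := by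
    let σK : (K ⊗[R] L) →ₗ[K] (K ⊗[R] B) := (σ.restrictScalars R).baseChange K
    let πK : (K ⊗[R] B) →ₗ[K] (K ⊗[R] L) := (π.restrictScalars R).baseChange K
    have hπσ : πK ∘ₗ σK = LinearMap.id := by
      rw [← LinearMap.baseChange_comp]
      have : (π.restrictScalars R) ∘ₗ (σ.restrictScalars R) = LinearMap.id := by
        ext x; exact hσ' x
      rw [this, LinearMap.baseChange_id]
    have hσinj : Function.Injective σK :=
      Function.LeftInverse.injective (g := πK) fun x => LinearMap.congr_fun hπσ x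
    have hσπ : ∀ y : K ⊗[R] B, σK (πK y) = y * ((1 : K) ⊗ₜ[R] e) := by
      intro y
      induction y using TensorProduct.induction_on with
      | zero => simp
      | tmul k x =>
        rw [Algebra.TensorProduct.tmul_mul_tmul, mul_one, ← hmul x]
        rfl
      | add x y hx hy => rw [map_add, map_add, hx, hy, add_mul]
    have hr : (lid ((1 : K) ⊗ₜ[R] e)).restrictScalars K = LinearMap.range σK := by
      ext y
      rw [Submodule.restrictScalars_mem, mem_lid hE]
      constructor
      · intro hy
        exact ⟨πK y, by rw [hσπ, hy]⟩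
      · rintro ⟨z, rfl⟩
        rw [← hσπ]
        exact congrArg σK (LinearMap.congr_fun hπσ z)
    have h4 : finrank K (lid ((1 : K) ⊗ₜ[R] e)) =
        finrank K ((lid ((1 : K) ⊗ₜ[R] e)).restrictScalars K) := rfl
    rw [h4, hr, LinearMap.finrank_range_of_inj hσinj, Module.finrank_baseChange]
  obtain ⟨u, hu⟩ := exists_conj (F := K) hE he' (by rw [hdim, hL, ← h1, ← h2])
  exact ⟨e, u, hee, hu⟩

end

end Pool.Agent.PurNrd
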