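import Mathlib

/-! Base changes of an Azumaya algebra over a local ring to fields are simple algebras. -/

namespace Pool.Agent.PurNrd

open Module TensorProduct

universe u

section
variable {R : Type u} [CommRing R] {B : Type u} [Ring B] [Algebra R B]

theorem free_of_azumaya [IsLocalRing R] [IsAzumaya R B] : Module.Free R B :=
  Module.free_of_flat_of_isLocalRing

theorem baseChange_mem (F : Type u) [Field F] [Algebra R F] (I : TwoSidedIdeal (F ⊗[R] B))
    {z : F ⊗[R] B} (hz : z ∈ I) (t : B ⊗[R] Bᵐᵒᵖ) :
    (AlgHom.mulLeftRight R B t).baseChange F z ∈ I := by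
  induction t using TensorProduct.induction_on with
  | zero => simp [I.zero_mem]
  | tmul a b =>
    have h : (AlgHom.mulLeftRight R B (a ⊗ₜ b)).baseChange F z
        = ((1 : F) ⊗ₜ[R] a) * z * ((1 : F) ⊗ₜ[R] b.unop) := by
      induction z using TensorProduct.induction_on with
      | zero => simp
      | tmul f x => simp
      | add x y hx hy =>
        have e : ∀ x : F ⊗[R] B, (AlgHom.mulLeftRight R B (a ⊗ₜ b)).baseChange F x
            = ((1 : F) ⊗ₜ[R] a) * x * ((1 : F) ⊗ₜ[R] b.unop) := by
          intro x
          induction x using TensorProduct.induction_on with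
          | zero => simp
          | tmul f x => simp
          | add x y hx hy => rw [map_add, hx, hy, mul_add, add_mul]
        exact e _
    rw [h]
    exact I.mul_mem_right _ _ (I.mul_mem_left _ _ hz)
  | add x y hx hy =>
    rw [map_add, LinearMap.baseChange_add]
    exact I.add_mem hx hy

theorem end_mem (F : Type u) [Field F] [Algebra R F] [IsAzumaya R B]
    (I : TwoSidedIdeal (F ⊗[R] B)) {z : F ⊗[R] B} (hz : z ∈ I) (g : B →ₗ[R] B) :
    g.baseChange F z ∈ I := by
  obtain ⟨t, rfl⟩ := (IsAzumaya.AlgHom.mulLeftRight_bij R B).2 g
  exact baseChange_mem F I hz t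

/-- base change of an Azumaya algebra over a local ring to any field is simple -/
theorem isSimpleRing_baseChange [IsLocalRing R] [IsAzumaya R B] (F : Type u) [Field F]
    [Algebra R F] : IsSimpleRing (F ⊗[R] B) := by
  classical
  have hfree : Module.Free R B := free_of_azumaya
  let b := Module.Free.chooseBasis R B
  have hnt : Nontrivial B := by
    by_contra h
    rw [not_nontrivial_iff_subsingleton] at h
    have h1 : (1 : R) = 0 := FaithfulSMul.algebraMap_injective R B (Subsingleton.elim _ _)
    exact one_ne_zero h1
  have hne : Nonempty (Module.Free.ChooseBasisIndex R B) := by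
    by_contra h
    rw [not_nonempty_iff] at h
    have : Subsingleton B := b.repr.toEquiv.subsingleton
    exact not_subsingleton B this
  have hntF : Nontrivial (F ⊗[R] B) := by
    have := (b.baseChange F)
    obtain ⟨i⟩ := hne
    exact ⟨⟨this i, 0, this.ne_zero i⟩⟩
  refine IsSimpleRing.of_eq_bot_or_eq_top fun I => ?_
  by_cases hI : I = ⊥
  · exact Or.inl hI
  · right
    have : ∃ z ∈ I, z ≠ 0 := by
      by_contra hcon
      push Not at hcon
      apply hI
      rw [eq_bot_iff]
      intro z hz
      rw [TwoSidedIdeal.mem_bot]
      exact hcon z hz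
    obtain ⟨z, hz, hz0⟩ := this
    have : ∃ j, (b.baseChange F).repr z j ≠ 0 := by
      by_contra hcon
      push Not at hcon
      apply hz0
      apply (b.baseChange F).repr.injective
      ext j
      simp [hcon j]
    obtain ⟨j, hj⟩ := this
    set g : B →ₗ[R] B := (b.coord j).smulRight 1 with hg
    have hgz : g.baseChange F z = ((b.baseChange F).repr z j) ⊗ₜ[R] (1 : B) := by
      have : g.baseChange F = ((b.baseChange F).coord j).smulRight (1 : F ⊗[R] B) := by
        refine (b.baseChange F).ext fun i => ?_
        rw [Module.Basis.baseChange_apply, LinearMap.baseChange_tmul, LinearMap.smulRight_apply,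
          LinearMap.smulRight_apply, Module.Basis.coord_apply, Module.Basis.repr_self]
        have : ((1 : F) ⊗ₜ[R] b i) = b.baseChange F i := by
          rw [Module.Basis.baseChange_apply]
        rw [this, Module.Basis.coord_apply, Module.Basis.repr_self]
        by_cases h : i = j
        · subst h
          simp [Algebra.TensorProduct.one_def]
        · simp [h]
      rw [this, LinearMap.smulRight_apply, Module.Basis.coord_apply, Algebra.TensorProduct.one_def,
        TensorProduct.smul_tmul', smul_eq_mul, mul_one]
    have h1 := end_mem F I hz g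
    rw [hgz] at h1
    have h2 := I.mul_mem_left (((b.baseChange F).repr z j)⁻¹ ⊗ₜ[R] (1 : B)) _ h1
    rw [Algebra.TensorProduct.tmul_mul_tmul, inv_mul_cancel₀ hj, one_mul,
      ← Algebra.TensorProduct.one_def] at h2
    exact I.one_mem_iff.1 h2

end

end Pool.Agent.PurNrd
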