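import Pool.Agent.PurNrd.ModClass
import Pool.Agent.PurNrd.Simple

/-! Modules over an Azumaya algebra over a local ring which are free of the right rank over the
base are free. -/

namespace Pool.Agent.PurNrd

open Module TensorProduct

universe u

section
variable {R : Type u} [CommRing R] {B : Type u} [Ring B] [Algebra R B]
  (F : Type u) [Field F] [Algebra R F]
  (L : Type u) [AddCommGroup L] [Module R L] [Module B L] [IsScalarTower R B L]

theorem act_comm (x : F) (y : B) : Commute (Algebra.ofId F (Module.End F (F ⊗[R] L)) x)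
    (((Module.End.baseChangeHom R F L).comp
      (Algebra.lsmul R R L : B →ₐ[R] Module.End R L)) y) := by
  rw [Algebra.ofId_apply]
  exact Algebra.commute_algebraMap_left _ _

/-- the action of `F ⊗ B` on `F ⊗ L` -/
noncomputable def act : (F ⊗[R] B) →ₐ[F] Module.End F (F ⊗[R] L) :=
  Algebra.TensorProduct.lift (Algebra.ofId F (Module.End F (F ⊗[R] L)))
    ((Module.End.baseChangeHom R F L).comp (Algebra.lsmul R R L : B →ₐ[R] Module.End R L))
    (act_comm F L)

theorem act_tmul (f : F) (b : B) (g : F) (x : L) :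
    act F L (f ⊗ₜ[R] b) (g ⊗ₜ[R] x) = (f * g) ⊗ₜ[R] (b • x) := by
  rw [act, Algebra.TensorProduct.lift_tmul, Algebra.ofId_apply]
  change algebraMap F (Module.End F (F ⊗[R] L)) f
    (((Algebra.lsmul R R L b : Module.End R L).baseChange F) (g ⊗ₜ[R] x)) = _
  rw [LinearMap.baseChange_tmul, Module.algebraMap_end_apply, TensorProduct.smul_tmul',
    smul_eq_mul]
  rfl

variable {F L} in
theorem act_one (c : F ⊗[R] B) (x : L) : ∀ g : F, act F L c (g ⊗ₜ[R] x) =
    g • act F L c (1 ⊗ₜ[R] x) := by
  intro g
  rw [← map_smul, TensorProduct.smul_tmul', smul_eq_mul, mul_one]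

end

section
variable {R : Type u} [CommRing R] [IsLocalRing R] {B : Type u} [Ring B] [Algebra R B]
  [IsAzumaya R B]
  (L : Type u) [AddCommGroup L] [Module R L] [Module B L] [IsScalarTower R B L]

/-- a module over an Azumaya algebra `B` over a local ring `R` which is free over `R` of the same
rank as `B^k` is isomorphic to `B^k` -/
theorem free_of_rank [Module.Free R L] [Module.Finite R L] (k : ℕ)
    (hk : finrank R L = k * finrank R B) : Nonempty ((Fin k → B) ≃ₗ[B] L) := by
  classical
  let F := IsLocalRing.ResidueField R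
  have hfB : Module.Free R B := free_of_azumaya
  have hs : IsSimpleRing (F ⊗[R] B) := isSimpleRing_baseChange F
  let _ : Module (F ⊗[R] B) (F ⊗[R] L) := Module.compHom _ (act F L).toRingHom
  have hsm : ∀ (c : F ⊗[R] B) (x : F ⊗[R] L), c • x = act F L c x := fun c x => rfl
  have : IsScalarTower F (F ⊗[R] B) (F ⊗[R] L) := ⟨fun f c x => by
    rw [hsm, hsm, map_smul]; rfl⟩
  have hd : finrank F (Fin k → F ⊗[R] B) = finrank F (F ⊗[R] L) := by
    rw [Module.finrank_pi_fintype, Module.finrank_baseChange, Module.finrank_baseChange, hk]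
    simp
  obtain ⟨ψ⟩ := equiv_of_finrank (F := F) (S := F ⊗[R] B) hd
  have hsurjL : ∀ y : F ⊗[R] L, ∃ x : L, (1 : F) ⊗ₜ[R] x = y :=
    TensorProduct.mk_surjective R L F Ideal.Quotient.mk_surjective
  have hsurjB : ∀ y : F ⊗[R] B, ∃ x : B, (1 : F) ⊗ₜ[R] x = y :=
    TensorProduct.mk_surjective R B F Ideal.Quotient.mk_surjective
  choose l hl using fun i : Fin k => hsurjL (ψ (Pi.single i 1))
  let h : (Fin k → B) →ₗ[B] L := Fintype.linearCombination B l
  have hsur : Function.Surjective h := by
    have hN : LinearMap.range (h.restrictScalars R) = ⊤ := by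
      rw [← IsLocalRing.map_tensorProduct_mk_eq_top, eq_top_iff]
      intro y _
      obtain ⟨s, rfl⟩ := ψ.surjective y
      choose b hb using fun i : Fin k => hsurjB (s i)
      refine ⟨h b, ⟨b, rfl⟩, ?_⟩
      have hs1 : s = ∑ i, s i • (Pi.single i (1 : F ⊗[R] B) : Fin k → F ⊗[R] B) := by
        ext i
        simp [Finset.sum_apply, Pi.single_apply]
      have hh : h b = ∑ i, b i • l i := by
        simp [h, Fintype.linearCombination_apply]
      rw [hs1, map_sum, hh, TensorProduct.mk_apply, TensorProduct.tmul_sum]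
      refine Finset.sum_congr rfl fun i _ => ?_
      rw [map_smul, ← hl, ← hb, hsm, act_tmul, one_mul]
    intro x
    have : x ∈ LinearMap.range (h.restrictScalars R) := by rw [hN]; trivial
    obtain ⟨y, hy⟩ := this
    exact ⟨y, hy⟩
  have hdR : finrank R L = finrank R (Fin k → B) := by
    rw [hk, Module.finrank_pi_fintype]; simp
  have e : L ≃ₗ[R] (Fin k → B) := LinearEquiv.ofFinrankEq _ _ hdR
  have hinj : Function.Injective h := by
    have h1 : Function.Injective (e.toLinearMap ∘ₗ h.restrictScalars R) :=
      OrzechProperty.injective_of_surjective_endomorphism _ (e.surjective.comp hsur)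
    intro x y hxy
    apply h1
    change e (h x) = e (h y)
    rw [hxy]
  exact ⟨LinearEquiv.ofBijective h ⟨hinj, hsur⟩⟩

end

end Pool.Agent.PurNrd
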