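import Pool.Agent.PurNrd.Depth
import Pool.Agent.PurNrd.Dvr

/-! Localisations at primes associated to principal ideals are principal ideal rings when finitely
generated modules have finite projective dimension. -/

namespace Pool.Agent.PurNrd

open Module TensorProduct IsLocalRing

universe u

section
variable {R : Type u} [CommRing R] [IsNoetherianRing R] (A : Type u) [CommRing A] [Algebra R A]
  [Module.Flat R A]

theorem pd_baseChange (n : ℕ) : ∀ (M : Type u) [AddCommGroup M] [Module R M] [Module.Finite R M]
    (_ : PDLT R M (n + 1)), PDLT A (A ⊗[R] M) (n + 1) := by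
  induction n with
  | zero =>
    intro M _ _ _ h
    rw [zero_add, pd_one_iff] at h ⊢
    infer_instance
  | succ n ih =>
    intro M _ _ _ h
    obtain ⟨k, f, hf⟩ := Module.Finite.exists_fin' R M
    have h1 := ih (LinearMap.ker f) (pd_ker f hf n h)
    have hF : Function.Surjective (f.baseChange A) := LinearMap.lTensor_surjective A hf
    have hG : Function.Injective ((LinearMap.ker f).subtype.baseChange A) :=
      Module.Flat.lTensor_preserves_injective_linearMap (M := A) _
        (LinearMap.ker f).injective_subtype
    have hex : Function.Exact ((LinearMap.ker f).subtype.baseChange A) (f.baseChange A) :=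
      lTensor_exact A (fun y => by rw [← LinearMap.mem_ker]; simp) hf
    let e : (A ⊗[R] LinearMap.ker f) ≃ₗ[A] LinearMap.ker (f.baseChange A) :=
      (LinearEquiv.ofInjective _ hG).trans (LinearEquiv.ofEq _ _ (by
        rw [LinearMap.exact_iff.1 hex]))
    refine pd_quot (f.baseChange A) hF (n + 1) (pd_congr e (n + 1) h1)
      (pd_mono (by omega) ((pd_one_iff (R := A) (A ⊗[R] (Fin k → R))).2 inferInstance))

end

section
variable {R : Type u} [CommRing R]

/-- the ideal `q` is the annihilator of a nonzero class modulo a nonzero principal ideal -/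
def AssPrin (q : Ideal R) : Prop :=
  ∃ a s : R, a ≠ 0 ∧ s ∉ Ideal.span {a} ∧ ∀ r, r ∈ q ↔ r * s ∈ Ideal.span {a}

variable [IsDomain R] [IsNoetherianRing R]

theorem loc_domain' (q : Ideal R) [q.IsPrime] : IsDomain (Localization.AtPrime q) :=
  IsLocalization.isDomain_localization (Ideal.primeCompl_le_nonZeroDivisors _)

theorem loc_inj' (q : Ideal R) [q.IsPrime] :
    Function.Injective (algebraMap R (Localization.AtPrime q)) :=
  IsLocalization.injective _ (Ideal.primeCompl_le_nonZeroDivisors q)

/-- a free ideal of a domain is principal -/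
theorem principal_of_free {A : Type u} [CommRing A] [IsDomain A] [IsNoetherianRing A] (I : Ideal A)
    [Module.Free A I] : I.IsPrincipal := by
  by_cases hI : I = ⊥
  · subst hI
    infer_instance
  · have h1 : finrank A I ≤ 1 := by
      have := LinearMap.finrank_le_finrank_of_injective (f := I.subtype) I.injective_subtype
      rwa [Module.finrank_self] at this
    have h2 : finrank A I ≠ 0 := by
      intro h0
      have : Subsingleton I := Module.finrank_zero_iff.1 h0
      exact hI ((Submodule.eq_bot_iff _).2 fun x hx =>
        congrArg Subtype.val (Subsingleton.elim (⟨x, hx⟩ : I) 0))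
    have h3 : finrank A A = finrank A I := by
      rw [Module.finrank_self]; omega
    let e : A ≃ₗ[A] I := LinearEquiv.ofFinrankEq A I h3
    refine ⟨(e 1 : A), ?_⟩
    ext x
    constructor
    · intro hx
      obtain ⟨y, hy⟩ := e.surjective ⟨x, hx⟩
      refine Submodule.mem_span_singleton.2 ⟨y, ?_⟩
      have h4 : e y = y • e 1 := by rw [← map_smul, smul_eq_mul, mul_one]
      rw [h4] at hy
      exact congrArg Subtype.val hy
    · intro hx
      obtain ⟨y, rfl⟩ := Submodule.mem_span_singleton.1 hx
      exact I.smul_mem y (e 1).2

theorem loc_pid' (hpd : ∀ (M : Type u) [AddCommGroup M] [Module R M] [Module.Finite R M],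
      ∃ n, PDLT R M n) (q : Ideal R) [q.IsPrime] (hq : AssPrin q) :
    IsPrincipalIdealRing (Localization.AtPrime q) := by
  obtain ⟨a, s, ha0, hs, hqs⟩ := hq
  have hdom := loc_domain' q
  have hnoeth : IsNoetherianRing (Localization.AtPrime q) :=
    IsLocalization.isNoetherianRing q.primeCompl _ inferInstance
  have hflat : Module.Flat R (Localization.AtPrime q) := IsLocalization.flat _ q.primeCompl
  refine ((tfae_of_isNoetherianRing_of_isLocalRing_of_isDomain
    (Localization.AtPrime q)).out 4 0).1 ?_
  set A := Localization.AtPrime q with hA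
  have hinj : Function.Injective (algebraMap R A) := loc_inj' q
  have hmap : q.map (algebraMap R A) = maximalIdeal A := Localization.AtPrime.map_eq_maximalIdeal
  -- the extension of `q` has finite projective dimension
  obtain ⟨n, hn⟩ := hpd q
  have h1 : PDLT A (A ⊗[R] q) (n + 1) := pd_baseChange A n q (pd_mono (Nat.le_succ n) hn)
  have hloc : IsLocalizedModule q.primeCompl (Algebra.idealMap (S := A) q) := inferInstance
  have hbc := (isLocalizedModule_iff_isBaseChange q.primeCompl A (Algebra.idealMap (S := A) q)).1
    hloc
  have h2 : PDLT A (q.map (algebraMap R A)) (n + 1) := pd_congr hbc.equiv (n + 1) h1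
  rw [hmap] at h2
  have ha' : algebraMap R A a ≠ 0 := fun h => ha0 (hinj (h.trans (map_zero _).symm))
  have hreg : IsSMulRegular A (algebraMap R A a) := fun x y hxy => mul_left_cancel₀ ha' hxy
  have hregM : IsSMulRegular (maximalIdeal A) (algebraMap R A a) := fun x y hxy =>
    Subtype.ext (mul_left_cancel₀ ha' (congrArg Subtype.val hxy))
  have hs' : algebraMap R A s ∉ Ideal.span {algebraMap R A a} := by
    intro hmem
    obtain ⟨b, hb⟩ := Ideal.mem_span_singleton.1 hmem
    obtain ⟨⟨b1, t⟩, hbt⟩ := IsLocalization.surj q.primeCompl b
    have h3 : t * s = a * b1 := by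
      apply hinj
      rw [map_mul, map_mul, hb, ← hbt]
      ring
    have h4 : (t : R) ∈ q := (hqs t).2 (by rw [h3]; exact Ideal.mem_span_singleton.2 ⟨b1, rfl⟩)
    exact t.2 h4
  have hms : ∀ m ∈ maximalIdeal A, m * algebraMap R A s ∈ Ideal.span {algebraMap R A a} := by
    intro m hm
    rw [← hmap] at hm
    let J : Ideal A := Submodule.comap (LinearMap.mulRight A (algebraMap R A s))
      (Ideal.span {algebraMap R A a})
    have hle : q.map (algebraMap R A) ≤ J := by
      rw [Ideal.map_le_iff_le_comap]
      intro r hr
      have h5 := (hqs r).1 hr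
      obtain ⟨c, hc⟩ := Ideal.mem_span_singleton.1 h5
      change algebraMap R A r * algebraMap R A s ∈ Ideal.span {algebraMap R A a}
      rw [← map_mul, hc, map_mul]
      exact Ideal.mem_span_singleton.2 ⟨_, rfl⟩
    exact hle hm
  have hfree : Module.Free A (maximalIdeal A) :=
    free_of_depth_one hreg hs' hms n (maximalIdeal A) hregM h2
  exact principal_of_free _

end

end Pool.Agent.PurNrd
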