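import Pool.Agent.PurNrd.Change

/-! Regular local rings are domains over which all finitely generated modules have finite
projective dimension. -/

namespace Pool.Agent.PurNrd

open Module Pointwise IsLocalRing

universe u

section
variable {R : Type u} [CommRing R] [IsNoetherianRing R] [IsLocalRing R] {x : R}

theorem map_max (hx : x ∈ maximalIdeal R) [IsLocalRing (R ⧸ Ideal.span {x})] :
    maximalIdeal (R ⧸ Ideal.span {x}) =
      (maximalIdeal R).map (Ideal.Quotient.mk (Ideal.span {x})) := by
  symm
  have h : ((maximalIdeal R).map (Ideal.Quotient.mk (Ideal.span {x}))).IsMaximal := by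
    have := Ideal.map_eq_top_or_isMaximal_of_surjective (Ideal.Quotient.mk (Ideal.span {x}))
      Ideal.Quotient.mk_surjective (maximalIdeal.isMaximal R)
    refine this.resolve_left fun htop => ?_
    have h1 : Ideal.comap (Ideal.Quotient.mk (Ideal.span {x}))
        ((maximalIdeal R).map (Ideal.Quotient.mk (Ideal.span {x}))) = maximalIdeal R := by
      rw [Ideal.comap_map_of_surjective _ Ideal.Quotient.mk_surjective]
      rw [← RingHom.ker_eq_comap_bot, Ideal.mk_ker, sup_eq_left,
        Ideal.span_singleton_le_iff_mem]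
      exact hx
    rw [htop, Ideal.comap_top] at h1
    exact (maximalIdeal.isMaximal R).ne_top h1.symm
  exact IsLocalRing.eq_maximalIdeal h

theorem spanFinrank_quot (hx : x ∈ maximalIdeal R) (hx2 : x ∉ maximalIdeal R ^ 2) (d : ℕ)
    (hd : (maximalIdeal R).spanFinrank = d + 1) [IsLocalRing (R ⧸ Ideal.span {x})] :
    (maximalIdeal (R ⧸ Ideal.span {x})).spanFinrank ≤ d := by
  classical
  obtain ⟨G, hG1, hG2⟩ := Submodule.FG.exists_span_finset_card_eq_spanFinrank
    (maximalIdeal R).fg_of_isNoetherianRing
  rw [hd] at hG1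
  have hxG : x ∈ Submodule.span R (G : Set R) := by rw [hG2]; exact hx
  obtain ⟨r, -, hr⟩ := Submodule.mem_span_finset.1 hxG
  have hGm : ∀ g ∈ G, g ∈ maximalIdeal R := by
    intro g hg
    rw [← hG2]
    exact Submodule.subset_span hg
  obtain ⟨g0, hg0, hu⟩ : ∃ g ∈ G, IsUnit (r g) := by
    by_contra hcon
    push Not at hcon
    apply hx2
    rw [← hr, sq]
    refine Ideal.sum_mem _ fun g hg => ?_
    rw [smul_eq_mul]
    exact Ideal.mul_mem_mul ((mem_maximalIdeal _).2 (hcon g hg)) (hGm g hg)
  set mk := Ideal.Quotient.mk (Ideal.span {x}) with hmk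
  have hmax : maximalIdeal (R ⧸ Ideal.span {x}) =
      Submodule.span _ ((((G.erase g0).image mk : Finset (R ⧸ Ideal.span {x})) :
        Set (R ⧸ Ideal.span {x}))) := by
    rw [map_max hx, ← hG2]
    refine le_antisymm ?_ ?_
    · change Ideal.map mk (Ideal.span _) ≤ _
      rw [Ideal.map_span, Ideal.span_le]
      rintro _ ⟨g, hg, rfl⟩
      by_cases hgg : g = g0
      · subst hgg
        obtain ⟨u, hu⟩ := hu
        have h1 : mk (r g * g) = - ∑ g' ∈ G.erase g, mk (r g') * mk g' := by
          have h2 : ∑ g' ∈ G, mk (r g') * mk g' = 0 := by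
            have h3 : mk x = 0 := Ideal.Quotient.eq_zero_iff_mem.2
              (Ideal.mem_span_singleton_self x)
            have h5 : mk (∑ a ∈ G, r a • a) = 0 := by rw [hr]; exact h3
            rw [← h5, map_sum]
            exact Finset.sum_congr rfl fun g' _ => by rw [smul_eq_mul, map_mul]
          rw [← Finset.add_sum_erase _ _ hg] at h2
          rw [map_mul]
          exact eq_neg_of_add_eq_zero_left h2
        have h4 : mk g = mk (u⁻¹ : Rˣ) * mk (r g * g) := by
          rw [← map_mul, ← mul_assoc, ← hu, Units.inv_mul, one_mul]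
        rw [h4, h1]
        refine Ideal.mul_mem_left _ _ (neg_mem (Ideal.sum_mem _ fun g' hg' => ?_))
        refine Ideal.mul_mem_left _ _ (Submodule.subset_span ?_)
        exact Finset.mem_coe.2 (Finset.mem_image_of_mem _ hg')
      · exact Submodule.subset_span (Finset.mem_coe.2 (Finset.mem_image_of_mem _
          (Finset.mem_erase.2 ⟨hgg, hg⟩)))
    · rw [Submodule.span_le]
      intro y hy
      obtain ⟨g, hg, rfl⟩ := Finset.mem_image.1 (Finset.mem_coe.1 hy)
      exact Ideal.mem_map_of_mem _ (Submodule.subset_span (Finset.mem_of_mem_erase hg))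
  rw [hmax]
  refine (Submodule.spanFinrank_span_le_ncard_of_finite (Finset.finite_toSet _)).trans ?_
  rw [Set.ncard_coe_finset]
  refine Finset.card_image_le.trans ?_
  rw [Finset.card_erase_of_mem hg0, hG1]
  rfl

end

section
variable {R : Type u} [CommRing R] [IsRegularLocalRing R] {x : R}

theorem regular_quot (hx : x ∈ maximalIdeal R)
    (hx2 : x ∉ maximalIdeal R ^ 2) (d : ℕ) (hd : (maximalIdeal R).spanFinrank = d + 1) :
    ∃ _ : IsRegularLocalRing (R ⧸ Ideal.span {x}),
      (maximalIdeal (R ⧸ Ideal.span {x})).spanFinrank = d := by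
  have hloc := isLocalRing_quot hx
  have h1 := spanFinrank_quot hx hx2 d hd
  have hdim : ringKrullDim R = ((d + 1 : ℕ) : WithBot ℕ∞) := by
    rw [← IsRegularLocalRing.spanFinrank_maximalIdeal, hd]
  have h2 : ringKrullDim R ≤ ringKrullDim (R ⧸ Ideal.span {x}) + 1 := by
    have h3 := ringKrullDim_le_ringKrullDim_quotSMulTop_succ hx
    have h4 : (x • (⊤ : Ideal R)) = Ideal.span {x} := by
      rw [← Submodule.ideal_span_singleton_smul, smul_eq_mul, Ideal.mul_top]
    rw [h4] at h3
    exact h3
  have h5 := ringKrullDim_le_spanFinrank_maximalIdeal (R ⧸ Ideal.span {x})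
  have h6 : ((d : ℕ) : WithBot ℕ∞) ≤ ringKrullDim (R ⧸ Ideal.span {x}) := by
    rw [hdim, Nat.cast_add, ← Nat.cast_one (R := WithBot ℕ∞),
      ENat.WithBot.add_le_add_natCast_right_iff] at h2
    exact h2
  have h7 : ((maximalIdeal (R ⧸ Ideal.span {x})).spanFinrank : WithBot ℕ∞) ≤ d := by
    exact_mod_cast h1
  refine ⟨IsRegularLocalRing.of_spanFinrank_maximalIdeal_le _ (h7.trans h6), ?_⟩
  have h8 := h6.trans h5
  have h9 : d ≤ (maximalIdeal (R ⧸ Ideal.span {x})).spanFinrank := by
    exact_mod_cast h8
  exact le_antisymm h1 h9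

end

theorem regular_aux (d : ℕ) : ∀ (R : Type u) [CommRing R] [IsRegularLocalRing R]
    (_ : (maximalIdeal R).spanFinrank = d),
    IsDomain R ∧ ∀ (M : Type u) [AddCommGroup M] [Module R M] [Module.Finite R M],
      ∃ n, PDLT R M n := by
  induction d with
  | zero =>
    intro R _ _ h
    have hbot : maximalIdeal R = ⊥ :=
      (Submodule.spanFinrank_eq_zero_iff_eq_bot (maximalIdeal R).fg_of_isNoetherianRing).1 h
    have hF : IsField R := IsLocalRing.isField_iff_maximalIdeal_eq.2 hbot
    refine ⟨hF.isDomain, fun M _ _ _ => ⟨1, ?_⟩⟩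
    rw [pd_one_iff]
    letI := hF.toField
    exact Module.Projective.of_free
  | succ d ih =>
    intro R _ _ h
    have hne : maximalIdeal R ≠ ⊥ := by
      intro hb
      rw [hb, Submodule.spanFinrank_bot] at h
      omega
    have hdim : ringKrullDim R = ((d + 1 : ℕ) : WithBot ℕ∞) := by
      rw [← IsRegularLocalRing.spanFinrank_maximalIdeal, h]
    -- a good parameter
    obtain ⟨x, hx, hx2, hxP⟩ : ∃ x ∈ maximalIdeal R, x ∉ maximalIdeal R ^ 2 ∧
        ∀ P ∈ minimalPrimes R, x ∉ P := by
      by_contra hcon
      push Not at hcon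
      have hfin := minimalPrimes.finite_of_isNoetherianRing R
      have hsub : ((maximalIdeal R : Ideal R) : Set R) ⊆
          ((maximalIdeal R ^ 2 : Ideal R) : Set R) ∪ ((maximalIdeal R ^ 2 : Ideal R) : Set R) ∪
            ⋃ P ∈ (↑hfin.toFinset : Set (Ideal R)), ((id P : Ideal R) : Set R) := by
        intro x hx
        by_cases h2 : x ∈ maximalIdeal R ^ 2
        · exact Or.inl (Or.inl h2)
        · obtain ⟨P, hP, hxP⟩ := hcon x hx h2
          refine Or.inr (Set.mem_biUnion (x := P) ?_ hxP)
          rw [Set.Finite.coe_toFinset]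
          exact hP
      have hor := (Ideal.subset_union_prime' (s := hfin.toFinset) (f := id)
        (a := maximalIdeal R ^ 2) (b := maximalIdeal R ^ 2) (fun P hP => by
          rw [Set.Finite.mem_toFinset] at hP
          exact Ideal.minimalPrimes_isPrime hP)).1 hsub
      have hsq : ¬ maximalIdeal R ≤ maximalIdeal R ^ 2 := by
        intro hle
        apply hne
        refine Submodule.eq_bot_of_le_smul_of_le_jacobson_bot (maximalIdeal R) (maximalIdeal R)
          (maximalIdeal R).fg_of_isNoetherianRing ?_ ?_
        · rwa [smul_eq_mul, ← sq]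
        · rw [IsLocalRing.jacobson_eq_maximalIdeal ⊥ bot_ne_top]
      rcases hor with h1 | h1 | ⟨P, hP, h1⟩
      · exact hsq h1
      · exact hsq h1
      · rw [Set.Finite.mem_toFinset] at hP
        have hPp : P.IsPrime := Ideal.minimalPrimes_isPrime hP
        have hPm : P = maximalIdeal R :=
          le_antisymm (le_maximalIdeal hPp.ne_top) h1
        have h0 : (maximalIdeal R).height = 0 := by
          rw [Ideal.height_eq_zero_iff, ← hPm]
          exact hP
        have h2 := IsLocalRing.maximalIdeal_height_eq_ringKrullDim (R := R)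
        rw [h0, hdim] at h2
        have : (0 : ℕ) = d + 1 := by exact_mod_cast h2
        omega
    obtain ⟨hreg, hd'⟩ := regular_quot hx hx2 d h
    obtain ⟨hdom, hpd⟩ := ih (R ⧸ Ideal.span {x}) hd'
    have hprime : (Ideal.span {x}).IsPrime :=
      (Ideal.Quotient.isDomain_iff_prime _).1 hdom
    -- `R` is a domain
    have hR : IsDomain R := by
      obtain ⟨P, hP, hPx⟩ := Ideal.exists_minimalPrimes_le (I := (⊥ : Ideal R))
        (J := Ideal.span {x}) bot_le
      have hPp : P.IsPrime := Ideal.minimalPrimes_isPrime hP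
      have hxnP := hxP P hP
      have hle : P ≤ Ideal.span {x} • P := by
        intro a ha
        obtain ⟨b, rfl⟩ := Ideal.mem_span_singleton.1 (hPx ha)
        have hb : b ∈ P := (hPp.mem_or_mem ha).resolve_left hxnP
        rw [smul_eq_mul]
        exact Ideal.mul_mem_mul (Ideal.mem_span_singleton_self x) hb
      have hPbot : P = ⊥ := by
        refine Submodule.eq_bot_of_le_smul_of_le_jacobson_bot (Ideal.span {x}) P
          P.fg_of_isNoetherianRing hle ?_
        rw [IsLocalRing.jacobson_eq_maximalIdeal ⊥ bot_ne_top,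
          Ideal.span_singleton_le_iff_mem]
        exact hx
      rw [hPbot] at hPp
      exact IsDomain.of_bot_isPrime R
    refine ⟨hR, fun M _ _ _ => ?_⟩
    have hx0 : x ≠ 0 := by
      rintro rfl
      exact hx2 (zero_mem _)
    have hregx : IsSMulRegular R x := by
      intro a b hab
      exact mul_left_cancel₀ hx0 hab
    obtain ⟨k, f, hf⟩ := Module.Finite.exists_fin' R M
    have hZreg : IsSMulRegular (LinearMap.ker f) x := by
      intro a b hab
      have h7 : x • (a : Fin k → R) = x • (b : Fin k → R) := congrArg Subtype.val hab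
      exact Subtype.ext (funext fun i => hregx (congrFun h7 i))
    have hfin : Module.Finite (R ⧸ Ideal.span {x}) (QuotSMulTop x (LinearMap.ker f)) :=
      Module.Finite.of_restrictScalars_finite R _ _
    obtain ⟨n, hn⟩ := hpd (QuotSMulTop x (LinearMap.ker f))
    have h9 := change hx hregx n (LinearMap.ker f) hZreg (pd_mono (Nat.le_succ n) hn)
    exact ⟨n + 2, pd_quot f hf (n + 1) h9
      (pd_mono (by omega) ((pd_one_iff (R := R) (Fin k → R)).2 inferInstance))⟩

/-- a regular local ring is a domain -/
theorem isDomain_of_regular (R : Type u) [CommRing R] [IsRegularLocalRing R] : IsDomain R :=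
  (regular_aux _ R rfl).1

/-- finitely generated modules over a regular local ring have finite projective dimension -/
theorem finite_pd (R : Type u) [CommRing R] [IsRegularLocalRing R] (M : Type u)
    [AddCommGroup M] [Module R M] [Module.Finite R M] : ∃ n, PDLT R M n :=
  (regular_aux _ R rfl).2 M

end Pool.Agent.PurNrd
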