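import Pool.Agent.PurNrd.Local

/-! A noetherian local domain over which all finitely generated modules have finite projective
dimension is a unique factorisation domain. -/

namespace Pool.Agent.PurNrd

open Module TensorProduct IsLocalRing

universe u

section
variable {R : Type u} [CommRing R] [IsDomain R] [IsLocalRing R] [IsNoetherianRing R]

/-- the devissage for lattices in free modules -/
theorem dev (hpd : ∀ (M : Type u) [AddCommGroup M] [Module R M] [Module.Finite R M],
      ∃ n, PDLT R M n) {r : R} (hr : r ≠ 0) (n : ℕ) : ∀ (k : ℕ) (Λ : Submodule R (Fin k → R))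
    (_ : ∀ v : Fin k → R, r • v ∈ Λ) (_ : PDLT R Λ (n + 1)),
    ∃ x y : R, x ≠ 0 ∧ y ≠ 0 ∧ ∀ (q : Ideal R) [q.IsPrime], AssPrin q →
      lp (R := R) (Localization.AtPrime q) ((Fin k → R) ⧸ Λ) +
        Ring.ord (Localization.AtPrime q) (algebraMap R _ y) =
        Ring.ord (Localization.AtPrime q) (algebraMap R _ x) := by
  induction n with
  | zero =>
    intro k Λ hΛ hp
    rw [zero_add, pd_one_iff] at hp
    have hfree : Module.Free R Λ := Module.free_of_flat_of_isLocalRing
    let p' := smulInto r Λ hΛ
    have hp' : Function.Injective p' := by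
      rw [injective_iff_map_eq_zero]
      intro v hv
      have h1 : r • v = 0 := congrArg Subtype.val hv
      exact (smul_eq_zero.1 h1).resolve_left hr
    have hrk : finrank R (Fin k → R) = finrank R Λ := by
      have h1 : finrank R Λ ≤ finrank R (Fin k → R) :=
        LinearMap.finrank_le_finrank_of_injective (f := Λ.subtype) Λ.injective_subtype
      have h2 : finrank R (Fin k → R) ≤ finrank R Λ :=
        LinearMap.finrank_le_finrank_of_injective (f := p') hp'
      exact le_antisymm h2 h1
    let h : (Fin k → R) ≃ₗ[R] Λ := LinearEquiv.ofFinrankEq _ _ hrk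
    let f : (Fin k → R) →ₗ[R] (Fin k → R) := Λ.subtype ∘ₗ h.toLinearMap
    have hfinj : Function.Injective f := Λ.injective_subtype.comp h.injective
    have hfr : LinearMap.range f = Λ := by
      ext x
      constructor
      · rintro ⟨y, rfl⟩
        exact (h y).2
      · intro hx
        obtain ⟨y, hy⟩ := h.surjective ⟨x, hx⟩
        exact ⟨y, congrArg Subtype.val hy⟩
    let f' : (Fin k → R) →ₗ[R] (Fin k → R) := h.symm.toLinearMap ∘ₗ p'
    have hff' : f ∘ₗ f' = r • (LinearMap.id : (Fin k → R) →ₗ[R] (Fin k → R)) := by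
      refine LinearMap.ext fun v => ?_
      change ((h (h.symm (p' v)) : Λ) : Fin k → R) = _
      rw [LinearEquiv.apply_symm_apply]
      rfl
    have hdd : LinearMap.det f * LinearMap.det f' = r ^ finrank R (Fin k → R) := by
      rw [← LinearMap.det_comp, hff', LinearMap.det_smul, LinearMap.det_id, mul_one]
    have hd0 : LinearMap.det f ≠ 0 := by
      intro h0
      rw [h0, zero_mul] at hdd
      exact pow_ne_zero _ hr hdd.symm
    refine ⟨LinearMap.det f, 1, hd0, one_ne_zero, fun q _ hq => ?_⟩
    have hdom := loc_domain' q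
    have hpid := loc_pid' hpd q hq
    have hflat : Module.Flat R (Localization.AtPrime q) := IsLocalization.flat _ q.primeCompl
    rw [map_one, Ring.ord_one, add_zero, ← lp_coker _ f hfinj, hfr]
  | succ n ih =>
    intro k Λ hΛ hp
    obtain ⟨k', g, hg⟩ := Module.Finite.exists_fin' R Λ
    have hpd' := pd_step hr n Λ hΛ g hg hp
    obtain ⟨x', y', hx', hy', hxy⟩ := ih k' _ (fun v => by
      change g (r • v) ∈ LinearMap.range (smulInto r Λ hΛ)
      refine ⟨((g v : Λ) : Fin k → R), ?_⟩
      refine Subtype.ext ?_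
      rw [map_smul]
      rfl) hpd'
    refine ⟨r ^ k * y', x', mul_ne_zero (pow_ne_zero _ hr) hy', hx', fun q _ hq => ?_⟩
    have hdom := loc_domain' q
    have hpid := loc_pid' hpd q hq
    have hflat : Module.Flat R (Localization.AtPrime q) := IsLocalization.flat _ q.primeCompl
    have hadd := lp_add_lattice (Localization.AtPrime q) Λ hΛ g hg
    have hinj : Function.Injective
        (r • (LinearMap.id : (Fin k → R) →ₗ[R] (Fin k → R))) := by
      intro v v' h
      exact smul_right_injective _ hr h
    rw [lp_coker _ _ hinj, LinearMap.det_smul, LinearMap.det_id, mul_one,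
      Module.finrank_fin_fun] at hadd
    have hne : ∀ {z : R}, z ≠ 0 → algebraMap R (Localization.AtPrime q) z ≠ 0 :=
      fun {z} hz h => hz (loc_inj' q (h.trans (map_zero _).symm))
    rw [map_mul, Ring.ord_mul' _ (mem_nonZeroDivisors_of_ne_zero (hne (pow_ne_zero k hr))), hadd,
      ← hxy q hq]
    ring

omit [IsDomain R] [IsLocalRing R] [IsNoetherianRing R] in
theorem isUnit_of_ord {w : R} (h : Ring.ord R w = 0) : IsUnit w := by
  rw [Ring.ord, Module.length_eq_zero_iff] at h
  have h1 : Ideal.span {w} = ⊤ := Ideal.Quotient.subsingleton_iff.1 h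
  exact Ideal.span_singleton_eq_top.1 h1

omit [IsLocalRing R] in
/-- divisibility may be checked at the primes associated to principal ideals -/
theorem dvd_of_ord (hpd : ∀ (M : Type u) [AddCommGroup M] [Module R M] [Module.Finite R M],
      ∃ n, PDLT R M n) {u v : R} (hv : v ≠ 0)
    (h : ∀ (q : Ideal R) [q.IsPrime], AssPrin q →
      Ring.ord (Localization.AtPrime q) (algebraMap R _ v) ≤
        Ring.ord (Localization.AtPrime q) (algebraMap R _ u)) : v ∣ u := by
  by_contra hnd
  by_cases hu : u = 0
  · exact hnd (hu ▸ dvd_zero v)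
  have hne : (Ideal.Quotient.mk (Ideal.span {v}) u : R ⧸ Ideal.span {v}) ≠ 0 := by
    intro h0
    exact hnd (Ideal.mem_span_singleton.1 (Ideal.Quotient.eq_zero_iff_mem.1 h0))
  obtain ⟨q, hq, hle⟩ := exists_le_isAssociatedPrime_of_isNoetherianRing R
    (Ideal.Quotient.mk (Ideal.span {v}) u) hne
  obtain ⟨hqp, z, hz⟩ := isAssociatedPrime_iff.1 hq
  obtain ⟨s, rfl⟩ := Ideal.Quotient.mk_surjective z
  have hmem : ∀ r, r ∈ q ↔ r * s ∈ Ideal.span {v} := by
    intro r
    rw [hz, Submodule.mem_colon_singleton, Submodule.mem_bot, Algebra.smul_def,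
      Ideal.Quotient.algebraMap_eq, ← map_mul, Ideal.Quotient.eq_zero_iff_mem]
  have hs : s ∉ Ideal.span {v} := by
    intro hs
    apply hqp.ne_top
    rw [Ideal.eq_top_iff_one, hmem, one_mul]
    exact hs
  have hA : AssPrin q := ⟨v, s, hv, hs, hmem⟩
  have hdom := loc_domain' q
  have hpid := loc_pid' hpd q hA
  have h1 := h q hA
  -- in the discrete valuation ring, `v` divides `u`
  have hdvd : algebraMap R (Localization.AtPrime q) v ∣ algebraMap R (Localization.AtPrime q) u := by
    have hval : ValuationRing (Localization.AtPrime q) := inferInstance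
    rcases (ValuationRing.dvd_total (algebraMap R (Localization.AtPrime q) v)
      (algebraMap R (Localization.AtPrime q) u)) with h2 | ⟨w, hw⟩
    · exact h2
    · have hne' : ∀ {z : R}, z ≠ 0 → algebraMap R (Localization.AtPrime q) z ≠ 0 :=
        fun {z} hz h => hz (loc_inj' q (h.trans (map_zero _).symm))
      have hu0 := hne' hu
      rw [hw, Ring.ord_mul' _ (mem_nonZeroDivisors_of_ne_zero hu0)] at h1
      have hfin : Ring.ord (Localization.AtPrime q) (algebraMap R _ u) ≠ ⊤ :=
        Ring.ord_ne_top (mem_nonZeroDivisors_of_ne_zero hu0)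
      have hw0 : Ring.ord (Localization.AtPrime q) w = 0 := by
        have h2 : Ring.ord (Localization.AtPrime q) (algebraMap R _ u) +
            Ring.ord (Localization.AtPrime q) w ≤
            Ring.ord (Localization.AtPrime q) (algebraMap R _ u) + 0 := by
          rw [add_zero]
          exact h1
        exact nonpos_iff_eq_zero.1 ((ENat.add_le_add_iff_left hfin).1 h2)
      have hwu : IsUnit w := isUnit_of_ord hw0
      obtain ⟨w', rfl⟩ := hwu
      exact ⟨((w'⁻¹ : (Localization.AtPrime q)ˣ) : Localization.AtPrime q), by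
        rw [hw, mul_assoc, Units.mul_inv, mul_one]⟩
  obtain ⟨b, hb⟩ := hdvd
  obtain ⟨⟨b1, t⟩, hbt⟩ := IsLocalization.surj q.primeCompl b
  have h3 : t * u = v * b1 := by
    apply loc_inj' q
    rw [map_mul, map_mul, hb, ← hbt]
    ring
  have h4 : (t : R) ∈ q := by
    apply hle
    rw [Submodule.mem_colon_singleton, Submodule.mem_bot, Algebra.smul_def,
      Ideal.Quotient.algebraMap_eq, ← map_mul, Ideal.Quotient.eq_zero_iff_mem, h3]
    exact Ideal.mem_span_singleton.2 ⟨b1, rfl⟩
  exact t.2 h4

omit [IsLocalRing R] in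
/-- the length of `R/q` at `q` is positive -/
theorem lp_self_ne (q : Ideal R) [q.IsPrime] :
    lp (R := R) (Localization.AtPrime q) (R ⧸ q) ≠ 0 := by
  intro h
  rw [lp, Module.length_eq_zero_iff] at h
  let κ := IsLocalRing.ResidueField (Localization.AtPrime q)
  let f : Localization.AtPrime q →ₐ[R] κ := IsScalarTower.toAlgHom R (Localization.AtPrime q) κ
  let g : (R ⧸ q) →ₐ[R] κ := Ideal.Quotient.liftₐ q (Algebra.ofId R κ) (fun a ha => by
    rw [Algebra.ofId_apply, IsScalarTower.algebraMap_apply R (Localization.AtPrime q) κ,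
      IsLocalRing.ResidueField.algebraMap_eq, IsLocalRing.residue_eq_zero_iff,
      ← Localization.AtPrime.map_eq_maximalIdeal]
    exact Ideal.mem_map_of_mem _ ha)
  let φ := Algebra.TensorProduct.productMap f g
  have h1 : φ 1 = φ 0 := congrArg φ (Subsingleton.elim _ _)
  rw [map_one, map_zero] at h1
  exact one_ne_zero h1

theorem principal_of_height_one (hpd : ∀ (M : Type u) [AddCommGroup M] [Module R M]
      [Module.Finite R M], ∃ n, PDLT R M n) (p : Ideal R) [p.IsPrime] (hp : p.height = 1) :
    p.IsPrincipal := by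
  have hpb : p ≠ ⊥ := p.ne_bot_of_height_eq_one hp
  obtain ⟨a, hap, ha0⟩ := Submodule.exists_mem_ne_zero_of_ne_bot hpb
  -- `p` is associated to `(a)`
  have hA : AssPrin p := by
    have hmin : p ∈ (Ideal.span {a}).minimalPrimes :=
      Ideal.mem_minimalPrimes_of_height_le ((Ideal.span_singleton_le_iff_mem _).2 hap) (by
        rw [hp, Order.one_le_iff_pos, pos_iff_ne_zero]
        intro h0
        rw [Ideal.height_eq_zero_iff_eq_bot, Ideal.span_singleton_eq_bot] at h0
        exact ha0 h0)
    have h1 := Module.associatedPrimes.minimalPrimes_annihilator_subset_associatedPrimes R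
      (R ⧸ Ideal.span {a})
    rw [Ideal.annihilator_quotient] at h1
    obtain ⟨hqp, z, hz⟩ := isAssociatedPrime_iff.1 (h1 hmin)
    obtain ⟨s, rfl⟩ := Ideal.Quotient.mk_surjective z
    have hmem : ∀ r, r ∈ p ↔ r * s ∈ Ideal.span {a} := by
      intro r
      rw [hz, Submodule.mem_colon_singleton, Submodule.mem_bot, Algebra.smul_def,
        Ideal.Quotient.algebraMap_eq, ← map_mul, Ideal.Quotient.eq_zero_iff_mem]
    refine ⟨a, s, ha0, fun hs => hqp.ne_top ?_, hmem⟩
    rw [Ideal.eq_top_iff_one, hmem, one_mul]
    exact hs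
  -- the lattice `p` in `R`
  let e : (Fin 1 → R) ≃ₗ[R] R := LinearEquiv.funUnique (Fin 1) R R
  let Λ : Submodule R (Fin 1 → R) := Submodule.comap e.toLinearMap p
  have hΛ : ∀ v : Fin 1 → R, a • v ∈ Λ := by
    intro v
    change e (a • v) ∈ p
    rw [map_smul, smul_eq_mul]
    exact p.mul_mem_right _ hap
  obtain ⟨n, hn⟩ := hpd Λ
  obtain ⟨x, y, hx, hy, hxy⟩ := dev hpd ha0 n 1 Λ hΛ (pd_mono (Nat.le_succ n) hn)
  have hquot : ∀ (q : Ideal R) [q.IsPrime], lp (R := R) (Localization.AtPrime q)
      ((Fin 1 → R) ⧸ Λ) = lp (R := R) (Localization.AtPrime q) (R ⧸ p) := by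
    intro q _
    exact lp_congr _ (Submodule.Quotient.equiv Λ p e (by
      rw [Submodule.map_comap_eq_of_surjective e.surjective]))
  have hne : ∀ (q : Ideal R) [q.IsPrime] {z : R}, z ≠ 0 →
      algebraMap R (Localization.AtPrime q) z ≠ 0 :=
    fun q _ {z} hz h => hz (loc_inj' q (h.trans (map_zero _).symm))
  obtain ⟨c, hc⟩ : y ∣ x := by
    refine dvd_of_ord hpd hy fun q _ hq => ?_
    rw [← hxy q hq]
    exact le_add_self
  have hc0 : c ≠ 0 := by
    rintro rfl
    exact hx (by rw [hc, mul_zero])
  have hord : ∀ (q : Ideal R) [q.IsPrime], AssPrin q →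
      lp (R := R) (Localization.AtPrime q) (R ⧸ p) =
        Ring.ord (Localization.AtPrime q) (algebraMap R _ c) := by
    intro q _ hq
    have hdom := loc_domain' q
    have hpid := loc_pid' hpd q hq
    have h1 := hxy q hq
    rw [hquot, hc, map_mul, Ring.ord_mul' _ (mem_nonZeroDivisors_of_ne_zero (hne q hy)),
      add_comm] at h1
    have hfin : Ring.ord (Localization.AtPrime q) (algebraMap R _ y) ≠ ⊤ :=
      Ring.ord_ne_top (mem_nonZeroDivisors_of_ne_zero (hne q hy))
    exact (ENat.add_right_injective_of_ne_top hfin) h1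
  refine ⟨c, le_antisymm ?_ ?_⟩
  · intro z hz
    by_cases hz0 : z = 0
    · subst hz0
      exact zero_mem _
    · refine Ideal.mem_span_singleton.2 (dvd_of_ord hpd hc0 fun q _ hq => ?_)
      have hdom := loc_domain' q
      have hpid := loc_pid' hpd q hq
      have hflat : Module.Flat R (Localization.AtPrime q) := IsLocalization.flat _ q.primeCompl
      rw [← hord q hq]
      let f : R →ₗ[R] R := LinearMap.mulLeft R z
      have hf : Function.Injective f := fun x y h => mul_left_cancel₀ hz0 h
      have h1 := lp_coker (Localization.AtPrime q) f hf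
      have h2 : LinearMap.det f = z := by
        rw [LinearMap.det_ring]
        exact mul_one z
      rw [h2] at h1
      rw [← h1]
      have hle : LinearMap.range f ≤ p := by
        rintro _ ⟨w, rfl⟩
        exact p.mul_mem_right _ hz
      exact Module.length_le_of_surjective
        ((Submodule.factor hle).baseChange (Localization.AtPrime q))
        (LinearMap.lTensor_surjective _ (Submodule.factor_surjective hle))
  · change Ideal.span {c} ≤ p
    rw [Ideal.span_singleton_le_iff_mem]
    by_contra hcp
    have hdom := loc_domain' p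
    have hpid := loc_pid' hpd p hA
    have h1 := hord p hA
    have h2 : IsUnit (algebraMap R (Localization.AtPrime p) c) :=
      IsLocalization.map_units (Localization.AtPrime p) (⟨c, hcp⟩ : p.primeCompl)
    rw [Ring.ord_of_isUnit h2] at h1
    exact lp_self_ne p h1

/-- the theorem of Auslander and Buchsbaum -/
theorem ufd (hpd : ∀ (M : Type u) [AddCommGroup M] [Module R M] [Module.Finite R M],
      ∃ n, PDLT R M n) : UniqueFactorizationMonoid R :=
  UniqueFactorizationMonoid.of_forall_isPrincipal_of_height_eq_one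
    fun p _ hp => principal_of_height_one hpd p hp

end

end Pool.Agent.PurNrd
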