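import Pool.Agent.PurNrd.Purity
import Pool.Agent.PurNrd.Reg
import Pool.Agent.PurNrd.Ufd

/-! Purity for reduced norms over regular local rings. -/

namespace Pool.Agent.PurNrd

open Module TensorProduct

universe u

theorem purity_regular {R : Type u} [CommRing R] [IsRegularLocalRing R]
    {m r : ℕ} (B : Fin m → Type u) [∀ j, Ring (B j)] [∀ j, Algebra R (B j)]
    [∀ j, IsAzumaya R (B j)]
    (K : Type u) [Field K] [Algebra R K] [IsFractionRing R K] [CharZero K]
    (l : Fin m → Fin r → ℤ) (c : Fin r → K) (hc : ∀ i, c i ≠ 0)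
    (h : ∀ p : Ideal R, p.IsPrime → p.height = 1 →
      ∃ (a s : Fin r → R) (b : ∀ j, (K ⊗[R] B j)ˣ) (ν : Fin m → K),
        (∀ i, a i ∉ p ∧ s i ∉ p) ∧ (∀ j, IsReducedNorm K (b j : K ⊗[R] B j) (ν j)) ∧
        ∀ i, algebraMap R K (s i) * c i = algebraMap R K (a i) * ∏ j, ν j ^ l j i) :
    ∃ (a : Fin r → Rˣ) (b : ∀ j, (K ⊗[R] B j)ˣ) (ν : Fin m → K),
      (∀ j, IsReducedNorm K (b j : K ⊗[R] B j) (ν j)) ∧
      ∀ i, c i = algebraMap R K (a i) * ∏ j, ν j ^ l j i := by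
  have hdom := isDomain_of_regular R
  have hufd : UniqueFactorizationMonoid R := ufd (finite_pd R)
  exact purity_ufd (finite_pd R) B K l c hc h

end Pool.Agent.PurNrd
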