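import Mathlib

/-! Finite dimensional modules over a simple finite dimensional algebra are classified by their
dimension. -/

namespace Pool.Agent.PurNrd

open Module

universe u

section
variable {F S V W : Type u} [Field F] [Ring S] [Algebra F S] [IsSimpleRing S]
  [FiniteDimensional F S]
  [AddCommGroup V] [Module S V] [Module F V] [IsScalarTower F S V] [FiniteDimensional F V]
  [AddCommGroup W] [Module S W] [Module F W] [IsScalarTower F S W] [FiniteDimensional F W]

theorem equiv_of_finrank (h : finrank F V = finrank F W) : Nonempty (V ≃ₗ[S] W) := by
  classical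
  have : IsArtinianRing S := IsArtinianRing.of_finite F S
  have hiso : IsIsotypic S (V × W) := IsSimpleRing.isIsotypic S (V × W)
  by_cases hn : Nontrivial (V × W)
  · obtain ⟨T, hT⟩ := IsAtomic.exists_atom (Submodule S (V × W))
    rw [← isSimpleModule_iff_isAtom] at hT
    have h0 : IsIsotypicOfType S (V × W) T := hiso T
    have hV : IsIsotypicOfType S V T :=
      h0.of_injective (LinearMap.inl S V W) LinearMap.inl_injective
    have hW : IsIsotypicOfType S W T :=
      h0.of_injective (LinearMap.inr S V W) LinearMap.inr_injective
    have : Module.Finite S V := Module.Finite.of_restrictScalars_finite F S V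
    have : Module.Finite S W := Module.Finite.of_restrictScalars_finite F S W
    obtain ⟨a, ⟨ea⟩⟩ := hV.linearEquiv_fun
    obtain ⟨b, ⟨eb⟩⟩ := hW.linearEquiv_fun
    have : Nontrivial T := IsSimpleModule.nontrivial S T
    have : FiniteDimensional F (V × W) := inferInstance
    have : FiniteDimensional F T :=
      FiniteDimensional.of_injective ((T.subtype).restrictScalars F) T.injective_subtype
    have h1 : finrank F V = a * finrank F T := by
      rw [(ea.restrictScalars F).finrank_eq, Module.finrank_pi_fintype]
      simp
    have h2 : finrank F W = b * finrank F T := by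
      rw [(eb.restrictScalars F).finrank_eq, Module.finrank_pi_fintype]
      simp
    have h3 : 0 < finrank F T := Module.finrank_pos
    have hab : a = b := by
      have := h1.symm.trans (h.trans h2)
      exact Nat.eq_of_mul_eq_mul_right h3 this
    subst hab
    exact ⟨ea.trans eb.symm⟩
  · rw [not_nontrivial_iff_subsingleton] at hn
    have : Subsingleton V := ⟨fun x y => congrArg Prod.fst (Subsingleton.elim (x, (0 : W)) (y, 0))⟩
    have : Subsingleton W := ⟨fun x y => congrArg Prod.snd (Subsingleton.elim ((0 : V), x) (0, y))⟩
    exact ⟨{ (0 : V →ₗ[S] W) with invFun := 0, left_inv := fun _ => Subsingleton.elim _ _, right_inv := fun _ => Subsingleton.elim _ _ }⟩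

end

end Pool.Agent.PurNrd
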