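import Pool.Agent.PurNrd.Dvr
import Pool.Agent.PurNrd.Glue

/-! Saturation of the range of an endomorphism at a prime element. -/

namespace Pool.Agent.PurNrd

open Module TensorProduct

universe u

section
variable {R : Type u} [CommRing R] {B : Type u} [Ring B] [Algebra R B]

/-- the saturation at `π` of the range of `f` -/
def sat {π : R} (hπ : Prime π) {k : ℕ} (f : (Fin k → B) →ₗ[B] (Fin k → B)) :
    Submodule B (Fin k → B) where
  carrier := {v | ∃ s : R, ¬ π ∣ s ∧ ∃ w, s • v = f w}
  zero_mem' := ⟨1, fun h => hπ.not_isUnit (isUnit_of_dvd_one h), 0, by simp⟩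
  add_mem' := by
    rintro v v' ⟨s, hs, w, hw⟩ ⟨s', hs', w', hw'⟩
    refine ⟨s * s', fun h => (hπ.dvd_or_dvd h).elim hs hs', s' • w + s • w', ?_⟩
    have h1 : f (s' • w) = s' • f w := (f.restrictScalars R).map_smul s' w
    have h2 : f (s • w') = s • f w' := (f.restrictScalars R).map_smul s w'
    rw [map_add, h1, h2, ← hw, ← hw', smul_add, smul_smul, smul_smul, mul_comm s' s]
  smul_mem' := by
    rintro b v ⟨s, hs, w, hw⟩
    refine ⟨s, hs, b • w, ?_⟩
    rw [map_smul, ← hw]
    exact smul_comm s b v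

end

section kill
variable {R : Type u} [CommRing R] (O : Type u) [CommRing O] [Algebra R O]

theorem lp_zero {A : Type u} [AddCommGroup A] [Module R A]
    (h : ∀ a : A, ∃ s : R, IsUnit (algebraMap R O s) ∧ s • a = 0) : lp (R := R) O A = 0 := by
  rw [lp, Module.length_eq_zero_iff]
  refine subsingleton_of_forall_eq 0 fun x => ?_
  induction x using TensorProduct.induction_on with
  | zero => rfl
  | tmul o a =>
    obtain ⟨s, ⟨u, hu⟩, ha⟩ := h a
    have : o = s • (o * ((u⁻¹ : Oˣ) : O)) := by
      rw [Algebra.smul_def, ← hu, mul_left_comm, Units.mul_inv, mul_one]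
    rw [this, TensorProduct.smul_tmul, ha, TensorProduct.tmul_zero]
  | add x y hx hy => rw [hx, hy, add_zero]

end kill

section
variable {R : Type u} [CommRing R] [IsDomain R] [IsLocalRing R] [IsNoetherianRing R]
  {B : Type u} [Ring B] [Algebra R B] [IsAzumaya R B]
  (K : Type u) [Field K] [Algebra R K] [IsFractionRing R K] [CharZero K]
  {π : R} (hπ : Prime π)

include hπ in
theorem sat_step (hpd : ∀ (M : Type u) [AddCommGroup M] [Module R M] [Module.Finite R M],
      ∃ n, PDLT R M n) {k : ℕ} (f : (Fin k → B) →ₗ[B] (Fin k → B)) (t : ℕ) (d : R)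
    (hd : ¬ π ∣ d) (hf : LinearMap.det (f.restrictScalars R) = π ^ t * d) :
    ∃ (y : (K ⊗[R] B)ˣ) (w : Rˣ), LinearMap.det (LinearMap.mulRight K (y : K ⊗[R] B)) =
      algebraMap R K ((w : R) * π ^ t) := by
  classical
  have hfB : Module.Free R B := free_of_azumaya
  have hP := prime_span hπ
  have hdom := loc_domain (π := π)
  have hpid := loc_pid (π := π)
  have hflat : Module.Flat R (Localization.AtPrime (Ideal.span {π})) :=
    IsLocalization.flat _ (Ideal.span {π}).primeCompl
  have hO0 := loc_ne hπ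
  have hO := loc_ord (π := π)
  set O := Localization.AtPrime (Ideal.span {π}) with hOdef
  obtain ⟨g, hg1, hg2⟩ := exists_adj (f.restrictScalars R)
  have hdne : d ≠ 0 := by
    rintro rfl
    exact hd (dvd_zero π)
  have hdet0 : LinearMap.det (f.restrictScalars R) ≠ 0 := by
    rw [hf]
    exact mul_ne_zero (pow_ne_zero _ hπ.ne_zero) hdne
  have hfinj : Function.Injective (f.restrictScalars R) := by
    rw [← LinearMap.ker_eq_bot, LinearMap.ker_eq_bot']
    intro v hv
    have h1 := LinearMap.congr_fun hg2 v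
    rw [LinearMap.comp_apply, hv, map_zero] at h1
    exact (smul_eq_zero.1 h1.symm).resolve_left hdet0
  set Λ := sat hπ f with hΛdef
  have hΛ : ∀ v : Fin k → B, (π ^ t) • v ∈ Λ := by
    intro v
    refine ⟨d, hd, g v, ?_⟩
    have h1 := LinearMap.congr_fun hg1 v
    rw [hf] at h1
    rw [smul_smul, mul_comm d]
    exact h1.symm
  have hfin : Module.Finite R Λ :=
    Module.Finite.of_injective (Λ.subtype.restrictScalars R) Λ.injective_subtype
  obtain ⟨n, hn⟩ := hpd Λ
  obtain ⟨y, w, t', ht', hy⟩ := devissage K hπ O hO0 hO t n k Λ hΛ (pd_mono (Nat.le_succ n) hn)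
  -- compare the lengths
  have h1 : lp (R := R) O ((Fin k → B) ⧸ LinearMap.range (f.restrictScalars R)) = t := by
    rw [lp_coker O _ hfinj, hf, map_mul, Ring.ord_mul_of_isUnit_right (loc_unit hd)]
    have := ord_unit_pow O hO0 hO (1 : Rˣ) t
    rwa [Units.val_one, one_mul] at this
  have hle : LinearMap.range (f.restrictScalars R) ≤ Λ.restrictScalars R := by
    rintro v ⟨w, rfl⟩
    exact ⟨1, fun h => hπ.not_isUnit (isUnit_of_dvd_one h), w, one_smul _ _⟩
  let β := Submodule.factor hle
  have hβ : Function.Surjective β := Submodule.factor_surjective hle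
  have h2 := lp_add O (LinearMap.ker β).subtype β (Submodule.injective_subtype _) hβ (fun x => by
    rw [← LinearMap.mem_ker]
    simp)
  have h3 : lp (R := R) O (LinearMap.ker β) = 0 := by
    refine lp_zero O fun a => ?_
    obtain ⟨x, hx⟩ := a
    obtain ⟨v, rfl⟩ := (LinearMap.range (f.restrictScalars R)).mkQ_surjective x
    have hv : v ∈ Λ := by
      have h1 : (Λ.restrictScalars R).mkQ v = 0 := hx
      rwa [← LinearMap.mem_ker, Submodule.ker_mkQ] at h1
    obtain ⟨s, hs, w, hw⟩ := hv
    refine ⟨s, loc_unit hs, Subtype.ext ?_⟩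
    change s • (LinearMap.range (f.restrictScalars R)).mkQ v = 0
    rw [← map_smul, ← LinearMap.mem_ker, Submodule.ker_mkQ, hw]
    exact ⟨w, rfl⟩
  rw [h3, zero_add, h1] at h2
  have h4 : lp (R := R) O ((Fin k → B) ⧸ Λ.restrictScalars R) = t' := ht'
  rw [h4] at h2
  have h5 : t = t' := by exact_mod_cast h2
  exact ⟨y, w, by rw [h5]; exact hy⟩

end

end Pool.Agent.PurNrd
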