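import Pool.Agent.PurNrd.Lift

/-! Surjections between lattices over an Azumaya algebra over a local ring. -/

namespace Pool.Agent.PurNrd

open Module TensorProduct

universe u

section
variable {F S V W : Type u} [Field F] [Ring S] [Algebra F S] [IsSimpleRing S]
  [FiniteDimensional F S]
  [AddCommGroup V] [Module S V] [Module F V] [IsScalarTower F S V] [FiniteDimensional F V]
  [AddCommGroup W] [Module S W] [Module F W] [IsScalarTower F S W] [FiniteDimensional F W]

theorem surj_of_finrank (h : finrank F W ≤ finrank F V) :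
    ∃ f : V →ₗ[S] W, Function.Surjective f := by
  classical
  have : IsArtinianRing S := IsArtinianRing.of_finite F S
  have hiso : IsIsotypic S (V × W) := IsSimpleRing.isIsotypic S (V × W)
  by_cases hn : Nontrivial (V × W)
  · obtain ⟨T, hT⟩ := IsAtomic.exists_atom (Submodule S (V × W))
    rw [← isSimpleModule_iff_isAtom] at hT
    have h0 : IsIsotypicOfType S (V × W) T := hiso T
    have hV : IsIsotypicOfType S V T :=
      h0.of_injective (LinearMap.inl S V W) LinearMap.inl_injective
    have hW : IsIsotypicOfType S W T :=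
      h0.of_injective (LinearMap.inr S V W) LinearMap.inr_injective
    have : Module.Finite S V := Module.Finite.of_restrictScalars_finite F S V
    have : Module.Finite S W := Module.Finite.of_restrictScalars_finite F S W
    obtain ⟨a, ⟨ea⟩⟩ := hV.linearEquiv_fun
    obtain ⟨b, ⟨eb⟩⟩ := hW.linearEquiv_fun
    have : Nontrivial T := IsSimpleModule.nontrivial S T
    have : FiniteDimensional F (V × W) := inferInstance
    have : FiniteDimensional F T :=
      FiniteDimensional.of_injective ((T.subtype).restrictScalars F) T.injective_subtype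
    have h1 : finrank F V = a * finrank F T := by
      rw [(ea.restrictScalars F).finrank_eq, Module.finrank_pi_fintype]
      simp
    have h2 : finrank F W = b * finrank F T := by
      rw [(eb.restrictScalars F).finrank_eq, Module.finrank_pi_fintype]
      simp
    have h3 : 0 < finrank F T := Module.finrank_pos
    have hab : b ≤ a := by
      rw [h1, h2] at h
      exact Nat.le_of_mul_le_mul_right h h3
    refine ⟨eb.symm.toLinearMap ∘ₗ LinearMap.funLeft S T (Fin.castLE hab) ∘ₗ ea.toLinearMap, ?_⟩
    exact eb.symm.surjective.comp ((LinearMap.funLeft_surjective_of_injective S T _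
      (Fin.castLE_injective hab)).comp ea.surjective)
  · rw [not_nontrivial_iff_subsingleton] at hn
    have : Subsingleton W := ⟨fun x y => congrArg Prod.snd (Subsingleton.elim ((0 : V), x) (0, y))⟩
    exact ⟨0, fun y => ⟨0, Subsingleton.elim _ _⟩⟩

end

section
variable {R : Type u} [CommRing R] [IsDomain R] [IsLocalRing R] {B : Type u} [Ring B]
  [Algebra R B] [IsAzumaya R B]
  (L : Type u) [AddCommGroup L] [Module R L] [Module B L] [IsScalarTower R B L]
  (L' : Type u) [AddCommGroup L'] [Module R L'] [Module B L'] [IsScalarTower R B L']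

theorem nontrivial_of_azumaya (R : Type u) [CommRing R] [IsLocalRing R] (B : Type u) [Ring B]
    [Algebra R B] [IsAzumaya R B] : Nontrivial B := by
  by_contra h
  rw [not_nontrivial_iff_subsingleton] at h
  have h1 : (1 : R) = 0 := FaithfulSMul.algebraMap_injective R B (Subsingleton.elim _ _)
  exact one_ne_zero h1

theorem finrank_pos_of_azumaya (R : Type u) [CommRing R] [IsDomain R] [IsLocalRing R] (B : Type u) [Ring B]
    [Algebra R B] [IsAzumaya R B] : 0 < finrank R B := by
  have := nontrivial_of_azumaya R B
  have hfB : Module.Free R B := free_of_azumaya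
  exact Module.finrank_pos

/-- lattices over an Azumaya algebra are projective -/
theorem projective_of_free [Module.Free R L] [Module.Finite R L] : Module.Projective B L := by
  have hfB : Module.Free R B := free_of_azumaya
  have hpos := finrank_pos_of_azumaya R B
  obtain ⟨e⟩ := free_of_rank (R := R) (B := B) (Fin (finrank R B) → L) (finrank R L) (by
    rw [Module.finrank_pi_fintype]
    simp [mul_comm])
  have hproj : Module.Projective B (Fin (finrank R B) → L) := Module.Projective.of_equiv e
  exact Module.Projective.of_split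
    (LinearMap.single B (fun _ : Fin (finrank R B) => L) ⟨0, hpos⟩)
    (LinearMap.proj ⟨0, hpos⟩) (by ext x; simp)

/-- surjections between lattices -/
theorem exists_surj [Module.Free R L] [Module.Finite R L] [Module.Free R L'] [Module.Finite R L']
    (h : finrank R L' ≤ finrank R L) : ∃ f : L →ₗ[B] L', Function.Surjective f := by
  classical
  let F := IsLocalRing.ResidueField R
  have hfB : Module.Free R B := free_of_azumaya
  have hs : IsSimpleRing (F ⊗[R] B) := isSimpleRing_baseChange F
  have hproj : Module.Projective B L := projective_of_free (R := R) L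
  let _ : Module (F ⊗[R] B) (F ⊗[R] L) := Module.compHom _ (act F L).toRingHom
  have hsm : ∀ (c : F ⊗[R] B) (x : F ⊗[R] L), c • x = act F L c x := fun c x => rfl
  have : IsScalarTower F (F ⊗[R] B) (F ⊗[R] L) := ⟨fun f c x => by
    rw [hsm, hsm, map_smul]; rfl⟩
  let _ : Module (F ⊗[R] B) (F ⊗[R] L') := Module.compHom _ (act F L').toRingHom
  have hsm' : ∀ (c : F ⊗[R] B) (x : F ⊗[R] L'), c • x = act F L' c x := fun c x => rfl
  have : IsScalarTower F (F ⊗[R] B) (F ⊗[R] L') := ⟨fun f c x => by
    rw [hsm', hsm', map_smul]; rfl⟩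
  have hd : finrank F (F ⊗[R] L') ≤ finrank F (F ⊗[R] L) := by
    rw [Module.finrank_baseChange, Module.finrank_baseChange]
    exact h
  obtain ⟨ψ, hψ⟩ := surj_of_finrank (F := F) (S := F ⊗[R] B) hd
  have hsurjL : ∀ y : F ⊗[R] L, ∃ x : L, (1 : F) ⊗ₜ[R] x = y :=
    TensorProduct.mk_surjective R L F Ideal.Quotient.mk_surjective
  have hsurjL' : ∀ y : F ⊗[R] L', ∃ x : L', (1 : F) ⊗ₜ[R] x = y :=
    TensorProduct.mk_surjective R L' F Ideal.Quotient.mk_surjective
  -- the target as a `B`-module
  let _ : Module B (F ⊗[R] L') := Module.compHom _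
    (Algebra.TensorProduct.includeRight : B →ₐ[R] F ⊗[R] B).toRingHom
  have hsB : ∀ (b : B) (x : F ⊗[R] L'), b • x = ((1 : F) ⊗ₜ[R] b) • x := fun b x => rfl
  let p' : L' →ₗ[B] F ⊗[R] L' :=
    { toFun := fun x => (1 : F) ⊗ₜ[R] x
      map_add' := fun x y => TensorProduct.tmul_add _ _ _
      map_smul' := fun b x => by
        rw [RingHom.id_apply, hsB, hsm', act_tmul, one_mul] }
  let q : L →ₗ[B] F ⊗[R] L' :=
    { toFun := fun x => ψ ((1 : F) ⊗ₜ[R] x)
      map_add' := fun x y => by rw [TensorProduct.tmul_add, map_add]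
      map_smul' := fun b x => by
        rw [RingHom.id_apply, hsB, ← map_smul, hsm, act_tmul, one_mul] }
  obtain ⟨f, hf⟩ := Module.projective_lifting_property p' q hsurjL'
  have hf' : ∀ x, (1 : F) ⊗ₜ[R] f x = ψ ((1 : F) ⊗ₜ[R] x) := fun x => LinearMap.congr_fun hf x
  refine ⟨f, ?_⟩
  have hN : LinearMap.range (f.restrictScalars R) = ⊤ := by
    rw [← IsLocalRing.map_tensorProduct_mk_eq_top, eq_top_iff]
    intro y _
    obtain ⟨z, rfl⟩ := hψ y
    obtain ⟨x, rfl⟩ := hsurjL z
    exact ⟨f x, ⟨x, rfl⟩, hf' x⟩
  intro x
  have : x ∈ LinearMap.range (f.restrictScalars R) := by rw [hN]; trivial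
  obtain ⟨y, hy⟩ := this
  exact ⟨y, hy⟩

end

end Pool.Agent.PurNrd
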