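import Mathlib

/-! The valuations of the fraction field of a unique factorisation domain attached to primes, and
an abstract gluing argument over a unique factorisation domain. -/

namespace Pool.Agent.PurNrd

universe u

section
variable {R : Type u} [CommRing R] [IsDomain R] [UniqueFactorizationMonoid R]
  {K : Type u} [Field K] [Algebra R K] [IsFractionRing R K]

/-- the valuation at `π` -/
noncomputable def vl (π : R) (c : K) : ℤ :=
  (multiplicity π (IsFractionRing.num R c) : ℤ) -
    (multiplicity π ((IsFractionRing.den R c : nonZeroDivisors R) : R) : ℤ)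

theorem vl_eq {π : R} (hπ : Prime π) {a s : R} (ha : a ≠ 0) (hs : s ≠ 0) {c : K}
    (h : algebraMap R K s * c = algebraMap R K a) :
    vl π c = (multiplicity π a : ℤ) - (multiplicity π s : ℤ) := by
  set n := IsFractionRing.num R c with hn
  set d := ((IsFractionRing.den R c : nonZeroDivisors R) : R) with hd
  have hd0 : d ≠ 0 := nonZeroDivisors.ne_zero (IsFractionRing.den R c).2
  have hc : algebraMap R K d * c = algebraMap R K n := by
    have h1 := IsFractionRing.mk'_num_den R c
    rw [IsLocalization.mk'_eq_iff_eq_mul, ← hn, ← hd] at h1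
    rw [h1, mul_comm]
  have hcross : a * d = s * n := by
    apply IsFractionRing.injective R K
    rw [map_mul, map_mul, ← h, ← hc]
    ring
  have hn0 : n ≠ 0 := by
    intro h0
    rw [h0, mul_zero] at hcross
    exact mul_ne_zero ha hd0 hcross
  have hf : ∀ {x : R}, x ≠ 0 → FiniteMultiplicity π x := fun {x} hx =>
    FiniteMultiplicity.of_prime_left hπ hx
  have h2 := multiplicity_mul hπ (hf (mul_ne_zero ha hd0))
  have h3 := multiplicity_mul hπ (hf (mul_ne_zero hs hn0))
  rw [hcross] at h2
  rw [h2] at h3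
  have : (multiplicity π a : ℤ) + multiplicity π d = multiplicity π s + multiplicity π n := by
    exact_mod_cast h3
  change (multiplicity π n : ℤ) - multiplicity π d = _
  linarith

omit [UniqueFactorizationMonoid R] in
theorem exists_frac {c : K} (hc : c ≠ 0) : ∃ a s : R, a ≠ 0 ∧ s ≠ 0 ∧
    algebraMap R K s * c = algebraMap R K a := by
  obtain ⟨a, s, hs, h⟩ := IsFractionRing.div_surjective (A := R) c
  have hs0 : s ≠ 0 := nonZeroDivisors.ne_zero hs
  have hsK : algebraMap R K s ≠ 0 := by
    rw [Ne, FaithfulSMul.algebraMap_eq_zero_iff]; exact hs0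
  refine ⟨a, s, ?_, hs0, ?_⟩
  · rintro rfl
    rw [map_zero, zero_div] at h
    exact hc h.symm
  · rw [← h]
    field_simp

theorem vl_mul {π : R} (hπ : Prime π) {c c' : K} (hc : c ≠ 0) (hc' : c' ≠ 0) :
    vl π (c * c') = vl π c + vl π c' := by
  obtain ⟨a, s, ha, hs, h⟩ := exists_frac (R := R) hc
  obtain ⟨a', s', ha', hs', h'⟩ := exists_frac (R := R) hc'
  have hf : ∀ {x : R}, x ≠ 0 → FiniteMultiplicity π x := fun {x} hx =>
    FiniteMultiplicity.of_prime_left hπ hx
  rw [vl_eq hπ ha hs h, vl_eq hπ ha' hs' h',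
    vl_eq hπ (mul_ne_zero ha ha') (mul_ne_zero hs hs') (c := c * c') (by
      rw [map_mul, map_mul, ← h, ← h']; ring),
    multiplicity_mul hπ (hf (mul_ne_zero ha ha')), multiplicity_mul hπ (hf (mul_ne_zero hs hs'))]
  push_cast
  ring

theorem vl_algebraMap {π : R} (hπ : Prime π) {a : R} (ha : a ≠ 0) :
    vl π (algebraMap R K a) = multiplicity π a := by
  rw [vl_eq hπ ha one_ne_zero (c := algebraMap R K a) (by rw [map_one, one_mul]),
    multiplicity_of_one_right hπ.not_isUnit]
  simp

/-- the valuation as a homomorphism from the group of units of `K` -/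
noncomputable def vh {π : R} (hπ : Prime π) : Kˣ →* Multiplicative ℤ where
  toFun c := Multiplicative.ofAdd (vl π (c : K))
  map_one' := by
    have := vl_algebraMap (K := K) hπ (one_ne_zero (α := R))
    rw [map_one] at this
    rw [Units.val_one, this, multiplicity_of_one_right hπ.not_isUnit]
    rfl
  map_mul' c c' := by
    rw [Units.val_mul, vl_mul hπ c.ne_zero c'.ne_zero]
    rfl

theorem vl_inv {π : R} (hπ : Prime π) (c : Kˣ) :
    vl π ((c⁻¹ : Kˣ) : K) = - vl π (c : K) :=
  congrArg Multiplicative.toAdd (map_inv (vh (K := K) hπ) c)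

theorem vl_zpow {π : R} (hπ : Prime π) (c : Kˣ) (k : ℤ) :
    vl π ((c ^ k : Kˣ) : K) = k * vl π (c : K) := by
  have := congrArg Multiplicative.toAdd (map_zpow (vh (K := K) hπ) c k)
  rw [toAdd_zpow, smul_eq_mul] at this
  exact this

theorem vl_pow {π : R} (hπ : Prime π) (c : Kˣ) (k : ℕ) :
    vl π ((c ^ k : Kˣ) : K) = k * vl π (c : K) := by
  have := congrArg Multiplicative.toAdd (map_pow (vh (K := K) hπ) c k)
  rw [toAdd_pow, nsmul_eq_mul] at this
  exact this

theorem vl_prod {π : R} (hπ : Prime π) {ι : Type*} (s : Finset ι) (f : ι → Kˣ) :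
    vl π ((∏ i ∈ s, f i : Kˣ) : K) = ∑ i ∈ s, vl π (f i : K) := by
  have := congrArg Multiplicative.toAdd (map_prod (vh (K := K) hπ) f s)
  rw [toAdd_prod] at this
  exact this

theorem vl_unit {π : R} (hπ : Prime π) (w : Rˣ) : vl π (algebraMap R K (w : R)) = 0 := by
  rw [vl_algebraMap hπ (Units.ne_zero w), multiplicity_eq_zero.2]
  · rfl
  · intro h
    exact hπ.not_isUnit (isUnit_of_dvd_unit h w.isUnit)

theorem vl_congr {π π' : R} (h : Associated π π') (c : K) : vl π c = vl π' c := by
  rw [vl, vl, multiplicity_eq_of_associated_left h, multiplicity_eq_of_associated_left h]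

theorem isUnit_of_vl (c : Kˣ) (h : ∀ π : R, Prime π → vl π (c : K) = 0) :
    ∃ w : Rˣ, (c : K) = algebraMap R K (w : R) := by
  set n := IsFractionRing.num R (c : K) with hn
  set d := ((IsFractionRing.den R (c : K) : nonZeroDivisors R) : R) with hd
  have hd0 : d ≠ 0 := nonZeroDivisors.ne_zero (IsFractionRing.den R (c : K)).2
  have hc : algebraMap R K d * c = algebraMap R K n := by
    have h1 := IsFractionRing.mk'_num_den R (c : K)
    rw [IsLocalization.mk'_eq_iff_eq_mul, ← hn, ← hd] at h1
    rw [h1, mul_comm]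
  have hn0 : n ≠ 0 := by
    intro h0
    rw [h0, map_zero] at hc
    rcases mul_eq_zero.1 hc with h1 | h1
    · rw [FaithfulSMul.algebraMap_eq_zero_iff] at h1
      exact hd0 h1
    · exact c.ne_zero h1
  have hrel : IsRelPrime n d := IsFractionRing.num_den_reduced R (c : K)
  have hmul : ∀ π : R, Prime π → (multiplicity π n : ℤ) = multiplicity π d := by
    intro π hπ
    have := h π hπ
    rw [vl, ← hn, ← hd] at this
    linarith
  have hboth : ∀ π : R, Prime π → ¬ π ∣ n ∧ ¬ π ∣ d := by
    intro π hπ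
    have h1 : multiplicity π n = multiplicity π d := by exact_mod_cast hmul π hπ
    have key : π ∣ n ↔ π ∣ d := by
      rw [← not_iff_not, ← multiplicity_eq_zero, ← multiplicity_eq_zero, h1]
    have hnot : ¬ (π ∣ n ∧ π ∣ d) := fun hh => hπ.not_isUnit (hrel hh.1 hh.2)
    tauto
  have hunit : ∀ x : R, x ≠ 0 → (∀ π : R, Prime π → ¬ π ∣ x) → IsUnit x := by
    intro x hx hxp
    by_contra hu
    obtain ⟨p, hp, hpx⟩ := WfDvdMonoid.exists_irreducible_factor hu hx
    exact hxp p (UniqueFactorizationMonoid.irreducible_iff_prime.1 hp) hpx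
  obtain ⟨un, hun⟩ := hunit n hn0 fun π hπ => (hboth π hπ).1
  obtain ⟨ud, hud⟩ := hunit d hd0 fun π hπ => (hboth π hπ).2
  refine ⟨un * ud⁻¹, ?_⟩
  have hdK : algebraMap R K d ≠ 0 := by
    rw [Ne, FaithfulSMul.algebraMap_eq_zero_iff]; exact hd0
  apply mul_left_cancel₀ hdK
  rw [hc, ← map_mul, Units.val_mul, hun, ← hud, mul_left_comm, Units.mul_inv, mul_one]

theorem finite_support (c : Kˣ) : ∃ D : R, D ≠ 0 ∧ ∀ π : R, Prime π → vl π (c : K) ≠ 0 → π ∣ D := by
  obtain ⟨a, s, ha, hs, h⟩ := exists_frac (R := R) c.ne_zero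
  refine ⟨a * s, mul_ne_zero ha hs, fun π hπ hv => ?_⟩
  by_contra hcon
  apply hv
  rw [vl_eq hπ ha hs h, multiplicity_eq_zero.2 fun h => hcon (h.mul_right s),
    multiplicity_eq_zero.2 fun h => hcon (h.mul_left a)]
  simp

end

end Pool.Agent.PurNrd
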